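import Pool.Agent.Run7.h3.ST.Cla

set_option autoImplicit false
set_option linter.unusedSectionVars false
set_option linter.unusedVariables false

/-! The joint moments of the normalised traces of the powers of Frobenius of a random hypersurface. -/

namespace Run7.h3.ST

open Finset
open Pool.Agent.Y722.HS (Mon mev)
open Q282.CL
open Q282MM (gm)

theorem prod_near {α : Type} [DecidableEq α] (S : Finset α) (x y C D : α → ℝ) {ε : ℝ} (hε : 0 ≤ ε) (hε1 : ε ≤ 1)
    (hC : ∀ a ∈ S, 0 ≤ C a) (hxy : ∀ a ∈ S, |x a - y a| ≤ C a * ε) (hy : ∀ a ∈ S, |y a| ≤ D a) :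
    |∏ a ∈ S, x a - ∏ a ∈ S, y a| ≤ (∏ a ∈ S, (1 + C a + D a)) * ε := by
  induction S using Finset.induction_on with
  | empty => simpa using hε
  | insert a S ha ih =>
    have ih' := ih (fun b hb => hC b (mem_insert_of_mem hb)) (fun b hb => hxy b (mem_insert_of_mem hb)) (fun b hb => hy b (mem_insert_of_mem hb))
    have h0 := hC a (mem_insert_self _ _)
    have h1 := hxy a (mem_insert_self _ _)
    have h2 := hy a (mem_insert_self _ _)
    have hD : 0 ≤ D a := (abs_nonneg _).trans h2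
    rw [prod_insert ha, prod_insert ha, prod_insert ha]
    have hX : |∏ b ∈ S, x b| ≤ ∏ b ∈ S, (1 + C b + D b) := by
      rw [abs_prod]
      refine prod_le_prod (fun b _ => abs_nonneg _) fun b hb => ?_
      have h3 := hxy b (mem_insert_of_mem hb)
      have h4 := hy b (mem_insert_of_mem hb)
      have h5 := hC b (mem_insert_of_mem hb)
      have h6 := abs_sub_le (x b) (y b) 0
      rw [sub_zero, sub_zero] at h6
      nlinarith
    have hP : 0 ≤ ∏ b ∈ S, (1 + C b + D b) := (abs_nonneg _).trans hX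
    have h3 : x a * ∏ b ∈ S, x b - y a * ∏ b ∈ S, y b = (x a - y a) * ∏ b ∈ S, x b + y a * (∏ b ∈ S, x b - ∏ b ∈ S, y b) := by ring
    rw [h3]
    refine (abs_add_le _ _).trans ?_
    rw [abs_mul, abs_mul]
    have h4 : |x a - y a| * |∏ b ∈ S, x b| ≤ C a * ε * ∏ b ∈ S, (1 + C b + D b) := mul_le_mul h1 hX (abs_nonneg _) (mul_nonneg h0 hε)
    have h5 : |y a| * |∏ b ∈ S, x b - ∏ b ∈ S, y b| ≤ D a * ((∏ b ∈ S, (1 + C b + D b)) * ε) := mul_le_mul h2 ih' (abs_nonneg _) hD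
    have h6 : 0 ≤ (∏ b ∈ S, (1 + C b + D b)) * ε := mul_nonneg hP hε
    nlinarith

/-- the moment of the trace of the `j`-th power -/
noncomputable def mj (j a : ℕ) : ℝ := ∑ i ∈ range (a + 1), (a.choose i : ℝ) * Real.sqrt j ^ i * eta j ^ (a - i) * gm i

/-- the main part of the normalised trace -/
noncomputable def ZZ {p : ℕ} [hp : Fact p.Prime] {n : ℕ} (W : (Fin (n + 1) → KB p) → Prop) (d : ℕ) {D : ℕ} (j : ℕ) (c : Mon n D → ZMod p) : ℝ :=
  Real.sqrt j * GG W d j c + eta j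

theorem eta_nonneg (j : ℕ) : 0 ≤ eta j := by
  unfold eta
  split_ifs <;> norm_num

theorem eta_le (j : ℕ) : eta j ≤ 1 := by
  unfold eta
  split_ifs <;> norm_num

section

variable {p : ℕ} [hp : Fact p.Prime] {n D : ℕ} {W : (Fin (n + 1) → KB p) → Prop} {d B : ℕ} {C₀ : ℝ}

theorem nr_tau (hW : Sz W d B C₀) (hC₀ : 0 ≤ C₀) (hd : 2 ≤ d) {b : ℕ → ℝ} {j : ℕ} (hj : j ∈ Icc 1 B)
    (hb : |((VW W j).card : ℝ) / (p : ℝ) ^ j - b j| ≤ C₀ * (ep p * sp p d ^ j)) :
    Nr (fun e => GG W d (D := D) e) B (ep p) j ((Real.sqrt j + 1) + (j * Real.sqrt j + (C₀ + j * ((j + 3) * (1 + C₀)))))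
      (fun c => tau W d b j c) (fun c => ZZ W d j c) := by
  have hj1 := (mem_Icc.1 hj).1
  have hjB := (mem_Icc.1 hj).2
  have hep := (ep_pos (p := p)).le
  have hep1 := ep_le_one (p := p)
  have hs0 := sp_pos (p := p) (n := d)
  have hs1 := one_le_sp (p := p) (n := d)
  have hsj0 : 0 ≤ Real.sqrt j := Real.sqrt_nonneg _
  have hG : ∀ e ∈ Icc 1 B, Cl (fun e => GG W d (D := D) e) B e 1 (fun c => GG W d e c) := fun e he => Cl.var he
  -- the near part
  have h1 : Cl (fun e => GG W d (D := D) e) B j ((j * Real.sqrt j + (C₀ + j * ((j + 3) * (1 + C₀)))) * ep p)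
      (fun c => tau W d b j c - ZZ W d j c) := by
    have h2 : (fun c : Mon n D → ZMod p => tau W d b j c - ZZ W d j c) = fun c =>
        (∑ e ∈ j.properDivisors, (Real.sqrt e * sp p d ^ e / sp p d ^ j) * GG W d e c) + (Mj W d b j - eta j) := by
      funext c
      rw [tau_eq hW.stab hj1]
      unfold ZZ
      rw [← Nat.cons_self_properDivisors (by omega), sum_cons, mul_div_assoc, div_self (pow_pos hs0 _).ne', mul_one]
      ring
    rw [h2]
    have h3 : ∀ e ∈ j.properDivisors, Cl (fun e => GG W d (D := D) e) B j (Real.sqrt j * ep p)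
        (fun c => (Real.sqrt e * sp p d ^ e / sp p d ^ j) * GG W d e c) := by
      intro e he
      have he' := Nat.mem_properDivisors.1 he
      have he1 : 1 ≤ e := Nat.pos_of_dvd_of_pos he'.1 (by omega)
      refine ((hG e (mem_Icc.2 ⟨he1, by omega⟩)).smul (Real.sqrt e * sp p d ^ e / sp p d ^ j)).mono he'.2.le ?_
      rw [mul_one, abs_of_nonneg (by positivity), mul_div_assoc]
      refine mul_le_mul (Real.sqrt_le_sqrt (by exact_mod_cast he'.2.le)) ?_ (by positivity) hsj0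
      refine le_trans ?_ (inv_sp_le (p := p) hd)
      rw [div_le_div_iff₀ (pow_pos hs0 _) hs0, one_mul, ← pow_succ]
      exact pow_le_pow_right₀ hs1 he'.2
    have h4 := (Cl.sum j.properDivisors h3).add (Cl.const (G := fun e => GG W d (D := D) e) (B := B) (Mj W d b j - eta j))
    refine h4.mono (by simp) ?_
    have h5 := Mj_near hW hC₀ hd hj hb
    rw [sum_const, nsmul_eq_mul]
    have h6 : (j.properDivisors.card : ℝ) * (Real.sqrt j * ep p) ≤ j * (Real.sqrt j * ep p) := by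
      refine mul_le_mul_of_nonneg_right ?_ (by positivity)
      have h7 : j.properDivisors ⊆ range j := fun d hd => mem_range.2 (Nat.mem_properDivisors.1 hd).2
      have h8 : j.properDivisors.card ≤ j := by simpa using card_le_card h7
      exact_mod_cast h8
    calc _ ≤ j * (Real.sqrt j * ep p) + (C₀ + j * ((j + 3) * (1 + C₀))) * ep p := add_le_add h6 h5
      _ = _ := by ring
  have h2 : Cl (fun e => GG W d (D := D) e) B j (Real.sqrt j + 1) (fun c => ZZ W d j c) := by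
    have h3 := ((hG j hj).smul (Real.sqrt j)).add (Cl.const (G := fun e => GG W d (D := D) e) (B := B) (eta j))
    refine h3.mono (by simp) ?_
    rw [abs_of_nonneg hsj0, abs_of_nonneg (eta_nonneg j), mul_one]
    have := eta_le j
    linarith
  have hc0 : (0 : ℝ) ≤ j * Real.sqrt j + (C₀ + j * ((j + 3) * (1 + C₀))) := by positivity
  refine ⟨?_, h2.mono le_rfl (by linarith), h1.mono le_rfl ?_⟩
  · have h3 := h2.add h1
    rw [max_self] at h3
    have h4 : (fun c : Mon n D → ZMod p => tau W d b j c) = fun c => ZZ W d j c + (tau W d b j c - ZZ W d j c) := by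
      funext c
      ring
    rw [h4]
    refine h3.mono le_rfl ?_
    nlinarith
  · nlinarith

theorem GG_PV {e : ℕ} (he : 1 ≤ e) :
    (fun c => GG W d (D := D) e c) ∈ PV (fun (v : Fin (n + 1) → KB p) (c : Mon n D → ZMod p) => Xi v c) dg (AA W e) e := by
  classical
  have h1 := PV.cs (X := fun (v : Fin (n + 1) → KB p) (c : Mon n D → ZMod p) => Xi v c) (w := dg) (A := AA W e) (e := e)
    (fun v hv => (AA_dg he hv).le) (1 / (p : ℝ) ^ e)
  have h2 := Submodule.smul_mem _ (Real.sqrt e / sp p d ^ e) h1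
  convert h2 using 1
  funext c
  unfold GG
  rw [Pi.smul_apply, smul_eq_mul]
  ring

theorem ZZ_PV {e : ℕ} (he : 1 ≤ e) :
    (fun c => ZZ W d (D := D) e c) ∈ PV (fun (v : Fin (n + 1) → KB p) (c : Mon n D → ZMod p) => Xi v c) dg (AA W e) e := by
  classical
  have h1 := Submodule.add_mem _ (Submodule.smul_mem _ (Real.sqrt e) (GG_PV (W := W) (d := d) (D := D) he))
    (PV.const (X := fun (v : Fin (n + 1) → KB p) (c : Mon n D → ZMod p) => Xi v c) (w := dg) (AA W e) e (eta e))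
  convert h1 using 1
  funext c
  rfl

theorem av_blocks {B : ℕ} (b : ℕ → ℕ) (f : ℕ → (Mon n D → ZMod p) → ℝ)
    (hf : ∀ e, 1 ≤ e → f e ∈ PV (fun (v : Fin (n + 1) → KB p) (c : Mon n D → ZMod p) => Xi v c) dg (AA W e) e)
    (hb : ∑ e ∈ Icc 1 B, e * b e ≤ D + 1) :
    av (fun c => ∏ e ∈ Icc 1 B, f e c ^ b e) = ∏ e ∈ Icc 1 B, av (fun c => f e c ^ b e) := by
  classical
  have hI := ind_Om (W := W) (D := D) B
  exact hI.av_prod (Icc 1 B) (fun e => AA W e) (fun e => e * b e) (fun e c => f e c ^ b e)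
    (fun e he v hv => mem_Om.2 ⟨e, he, hv⟩) AA_disj hb (fun e he => PV.pow hI.idem (hf e (mem_Icc.1 he).1) (b e))

end

/-- **joint moments of the normalised traces of powers of Frobenius** -/
theorem one_near (n d D B : ℕ) (C₀ : ℝ) (hC₀ : 0 ≤ C₀) (a : ℕ → ℕ) (hd : 2 ≤ d) (ha : ∑ j ∈ Icc 1 B, j * a j ≤ D + 1) :
    ∃ C : ℝ, 0 ≤ C ∧ ∀ (p : ℕ) [Fact p.Prime] (W : (Fin (n + 1) → KB p) → Prop) (b : ℕ → ℝ), Sz W d B C₀ →
      (∀ j ∈ Icc 1 B, |((VW W j).card : ℝ) / (p : ℝ) ^ j - b j| ≤ C₀ * (ep p * sp p d ^ j)) →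
      |av (fun c : Mon n D → ZMod p => ∏ j ∈ Icc 1 B, tau W d b j c ^ a j) - ∏ j ∈ Icc 1 B, mj j (a j)| ≤ C * ep p := by
  classical
  -- uniform constant
  have hx : ∀ e b : ℕ, ∃ C : ℝ, 0 ≤ C ∧ (e ∈ Icc 1 B → e * b ≤ D + 1 → ∀ (p : ℕ) [Fact p.Prime] (W : (Fin (n + 1) → KB p) → Prop), Sz W d B C₀ →
      |av (fun c : Mon n D → ZMod p => GG W d e c ^ b) - (gm b : ℝ)| ≤ C * ep p) := by
    intro e b
    by_cases h : e ∈ Icc 1 B ∧ e * b ≤ D + 1
    · obtain ⟨C, hC, hC'⟩ := gg_mom n d D B e b C₀ hC₀ hd h.1 h.2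
      exact ⟨C, hC, fun _ _ => hC'⟩
    · exact ⟨0, le_rfl, fun h1 h2 => absurd ⟨h1, h2⟩ h⟩
  choose C₁ hC₁ hgg using hx
  obtain ⟨C₂, hC₂⟩ : ∃ C₂, C₂ = ∑ e ∈ Icc 1 B, ∑ b ∈ range (D + 2), C₁ e b := ⟨_, rfl⟩
  have hC₂0 : 0 ≤ C₂ := by rw [hC₂]; exact sum_nonneg fun e _ => sum_nonneg fun b _ => hC₁ e b
  have hgg' : ∀ e ∈ Icc 1 B, ∀ b, e * b ≤ D + 1 → ∀ (p : ℕ) [Fact p.Prime] (W : (Fin (n + 1) → KB p) → Prop), Sz W d B C₀ →
      |av (fun c : Mon n D → ZMod p => GG W d e c ^ b) - (gm b : ℝ)| ≤ C₂ * ep p := by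
    intro e he b hb p hp W hW
    have he1 := (mem_Icc.1 he).1
    refine (hgg e b he hb p W hW).trans (mul_le_mul_of_nonneg_right ?_ (ep_pos (p := p)).le)
    have hbD : b ∈ range (D + 2) := by
      rw [mem_range]
      have : b ≤ e * b := Nat.le_mul_of_pos_left b he1
      omega
    rw [hC₂]
    refine le_trans (single_le_sum (f := fun b => C₁ e b) (fun b _ => hC₁ e b) hbD) ?_
    exact single_le_sum (f := fun e => ∑ b ∈ range (D + 2), C₁ e b) (fun e _ => sum_nonneg fun b _ => hC₁ e b) he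
  obtain ⟨G₀, hG₀⟩ : ∃ G₀ : ℝ, G₀ = ∑ b ∈ range (D + 2), (gm b : ℝ) := ⟨_, rfl⟩
  have hG₀0 : 0 ≤ G₀ := by rw [hG₀]; exact sum_nonneg fun b _ => Nat.cast_nonneg _
  have hgm : ∀ e, 1 ≤ e → ∀ b, e * b ≤ D + 1 → (gm b : ℝ) ≤ G₀ := by
    intro e he b hb
    rw [hG₀]
    refine single_le_sum (f := fun b => (gm b : ℝ)) (fun b _ => Nat.cast_nonneg _) ?_
    rw [mem_range]
    have : b ≤ e * b := Nat.le_mul_of_pos_left b he
    omega
  obtain ⟨M, hM⟩ : ∃ M, M = (1 + G₀ + C₂) ^ B := ⟨_, rfl⟩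
  have hM1 : 1 ≤ 1 + G₀ + C₂ := by linarith
  have hmon : ∀ (p : ℕ) [Fact p.Prime] (W : (Fin (n + 1) → KB p) → Prop) (b : ℕ → ℕ), Sz W d B C₀ → ∑ e ∈ Icc 1 B, e * b e ≤ D + 1 →
      |av (mon (fun e => GG W d (D := D) e) B b)| ≤ M := by
    intro p hp W b hW hb
    have h1 := av_blocks (W := W) (D := D) (B := B) b (fun e c => GG W d e c) (fun e he => GG_PV he) hb
    have h2 : av (mon (fun e => GG W d (D := D) e) B b) = ∏ e ∈ Icc 1 B, av (fun c : Mon n D → ZMod p => GG W d e c ^ b e) := h1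
    rw [h2, abs_prod, hM]
    have h3 : ∀ e ∈ Icc 1 B, |av (fun c : Mon n D → ZMod p => GG W d e c ^ b e)| ≤ 1 + G₀ + C₂ := by
      intro e he
      have he1 := (mem_Icc.1 he).1
      have hbe : e * b e ≤ D + 1 := le_trans (single_le_sum (f := fun e => e * b e) (fun _ _ => Nat.zero_le _) he) hb
      have h4 := hgg' e he (b e) hbe p W hW
      have h5 := hgm e he1 (b e) hbe
      have h6 := abs_sub_le (av (fun c : Mon n D → ZMod p => GG W d e c ^ b e)) (gm (b e) : ℝ) 0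
      rw [sub_zero, sub_zero, abs_of_nonneg (Nat.cast_nonneg (gm (b e)) : (0 : ℝ) ≤ (gm (b e) : ℝ))] at h6
      have h7 : C₂ * ep p ≤ C₂ := mul_le_of_le_one_right hC₂0 (ep_le_one (p := p))
      linarith
    refine (prod_le_prod (fun e _ => abs_nonneg _) h3).trans ?_
    rw [prod_const, Nat.card_Icc, Nat.add_sub_cancel]
  -- the constants of the factors
  obtain ⟨cj, hcj⟩ : ∃ cj : ℕ → ℝ, cj = fun (j : ℕ) => (Real.sqrt j + 1) + (j * Real.sqrt j + (C₀ + j * ((j + 3) * (1 + C₀)))) := ⟨_, rfl⟩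
  obtain ⟨dj, hdj⟩ : ∃ dj : ℕ → ℝ, dj = fun (j : ℕ) => ∑ i ∈ range (a j + 1), ((a j).choose i : ℝ) * Real.sqrt j ^ i * C₂ := ⟨_, rfl⟩
  have hdj0 : ∀ j, 0 ≤ dj j := fun j => by
    rw [hdj]
    exact sum_nonneg fun i _ => by positivity
  refine ⟨(∏ j ∈ Icc 1 B, (2 * (2 * cj j) ^ a j)) * M + ∏ j ∈ Icc 1 B, (1 + dj j + |mj j (a j)|), ?_, fun p hp W bb hW hbb => ?_⟩
  · have h1 : ∀ j, 0 ≤ cj j := fun j => by rw [hcj]; positivity
    have h2 : 0 ≤ M := by rw [hM]; positivity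
    have h3 : 0 ≤ ∏ j ∈ Icc 1 B, (2 * (2 * cj j) ^ a j) := prod_nonneg fun j _ => by have := h1 j; positivity
    have h4 : 0 ≤ ∏ j ∈ Icc 1 B, (1 + dj j + |mj j (a j)|) := prod_nonneg fun j _ => by have := hdj0 j; positivity
    positivity
  have hep := (ep_pos (p := p)).le
  have hep1 := ep_le_one (p := p)
  -- replace the traces by their main parts
  have h1 : Nr (fun e => GG W d (D := D) e) B (ep p) (∑ j ∈ Icc 1 B, j * a j) (∏ j ∈ Icc 1 B, (2 * (2 * cj j) ^ a j))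
      (fun c => ∏ j ∈ Icc 1 B, tau W d bb j c ^ a j) (fun c => ∏ j ∈ Icc 1 B, ZZ W d j c ^ a j) := by
    refine Nr.prod hep (Icc 1 B) fun j hj => ?_
    have h2 := (nr_tau (D := D) hW hC₀ hd hj (hbb j hj)).pow hep (a j)
    rw [hcj]
    exact h2
  have h2 := h1.near.av_le (M := M) (fun b hb => hmon p W b hW (hb.trans ha))
  rw [av_sub] at h2
  -- the main parts
  have h3 := av_blocks (W := W) (D := D) (B := B) a (fun e c => ZZ W d e c) (fun e he => ZZ_PV he) ha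
  rw [h3] at h2
  have h4 : |∏ j ∈ Icc 1 B, av (fun c : Mon n D → ZMod p => ZZ W d j c ^ a j) - ∏ j ∈ Icc 1 B, mj j (a j)| ≤
      (∏ j ∈ Icc 1 B, (1 + dj j + |mj j (a j)|)) * ep p := by
    refine prod_near (Icc 1 B) _ _ dj (fun j => |mj j (a j)|) hep hep1 (fun j _ => hdj0 j) (fun j hj => ?_) (fun j _ => le_rfl)
    have hj1 := (mem_Icc.1 hj).1
    have hja : j * a j ≤ D + 1 := le_trans (single_le_sum (f := fun e => e * a e) (fun _ _ => Nat.zero_le _) hj) ha
    have h5 : av (fun c : Mon n D → ZMod p => ZZ W d j c ^ a j) =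
        ∑ i ∈ range (a j + 1), ((a j).choose i : ℝ) * Real.sqrt j ^ i * eta j ^ (a j - i) * av (fun c : Mon n D → ZMod p => GG W d j c ^ i) := by
      have h6 : (fun c : Mon n D → ZMod p => ZZ W d j c ^ a j) = fun c =>
          ∑ i ∈ range (a j + 1), (((a j).choose i : ℝ) * Real.sqrt j ^ i * eta j ^ (a j - i)) * GG W d j c ^ i := by
        funext c
        unfold ZZ
        rw [add_pow]
        refine sum_congr rfl fun i _ => ?_
        rw [mul_pow]
        ring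
      rw [h6, av_sum]
      exact sum_congr rfl fun i _ => by rw [Q282.CL.av_mul]
    rw [h5]
    unfold mj
    rw [← sum_sub_distrib, hdj]
    simp only
    rw [sum_mul]
    refine (abs_sum_le_sum_abs _ _).trans (sum_le_sum fun i hi => ?_)
    rw [← mul_sub, abs_mul, abs_of_nonneg (by have := eta_nonneg j; positivity)]
    have hi' : j * i ≤ D + 1 := le_trans (Nat.mul_le_mul_left j (by have := mem_range.1 hi; omega)) hja
    have h6 := hgg' j hj i hi' p W hW
    have h7 : eta j ^ (a j - i) ≤ 1 := pow_le_one₀ (eta_nonneg j) (eta_le j)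
    have h8 : ((a j).choose i : ℝ) * Real.sqrt j ^ i * eta j ^ (a j - i) ≤ ((a j).choose i : ℝ) * Real.sqrt j ^ i :=
      mul_le_of_le_one_right (by positivity) h7
    rw [mul_assoc _ C₂]
    exact mul_le_mul h8 h6 (abs_nonneg _) (by positivity)
  have h5 := abs_sub_le (av (fun c : Mon n D → ZMod p => ∏ j ∈ Icc 1 B, tau W d bb j c ^ a j))
    (∏ j ∈ Icc 1 B, av (fun c : Mon n D → ZMod p => ZZ W d j c ^ a j)) (∏ j ∈ Icc 1 B, mj j (a j))
  rw [add_mul]
  have h6 : (∏ j ∈ Icc 1 B, (2 * (2 * cj j) ^ a j)) * ep p * M = (∏ j ∈ Icc 1 B, (2 * (2 * cj j) ^ a j)) * M * ep p := by ring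
  rw [h6] at h2
  linarith

end Run7.h3.ST
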