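import Pool.Agent.Run7.h3.ST.Law

set_option autoImplicit false
set_option linter.unusedSectionVars false
set_option linter.unusedVariables false

/-! Products of several random sections: the law of large numbers for the joint moments. -/

namespace Run7.h3.ST

open Finset
open Pool.Agent.Y722.HS (Mon mev)
open Q282.CL
open Q282MM (gm)
open scoped Nat

/-- the moment in the usual form -/
theorem mom_eq {s : ℝ} (hs : s ^ 2 = 1) (j a : ℕ) : s ^ a * mj j a =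
    ∑ i ∈ range (a / 2 + 1), (a.choose (2 * i) : ℝ) * ((2 * i - 1)‼ : ℕ) * (j : ℝ) ^ i * (s * eta j) ^ (a - 2 * i) := by
  unfold mj
  have h1 : ∑ i ∈ range (a + 1), (a.choose i : ℝ) * Real.sqrt j ^ i * eta j ^ (a - i) * gm i =
      ∑ i ∈ range (a / 2 + 1), (a.choose (2 * i) : ℝ) * Real.sqrt j ^ (2 * i) * eta j ^ (a - 2 * i) * gm (2 * i) := by
    rw [← sum_image (f := fun i => (a.choose i : ℝ) * Real.sqrt j ^ i * eta j ^ (a - i) * gm i) (g := fun i => 2 * i) (s := range (a / 2 + 1))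
      (fun x _ y _ h => by simpa using h)]
    symm
    apply sum_subset
    · intro i hi
      obtain ⟨k, hk, rfl⟩ := mem_image.1 hi
      rw [mem_range] at hk ⊢
      omega
    · intro i hi hni
      have h2 : ¬ Even i := by
        rintro ⟨k, hk⟩
        apply hni
        rw [mem_image]
        refine ⟨k, ?_, by omega⟩
        rw [mem_range] at hi ⊢
        omega
      rw [gm_odd h2]
      simp
  rw [h1, mul_sum]
  refine sum_congr rfl fun i hi => ?_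
  have hi' : 2 * i ≤ a := by
    have := mem_range.1 hi
    omega
  have h2 : s ^ a = s ^ (a - 2 * i) := by
    conv_lhs => rw [← Nat.sub_add_cancel hi', pow_add, pow_mul, hs, _root_.one_pow, mul_one]
  have h3 : Real.sqrt j ^ (2 * i) = (j : ℝ) ^ i := by rw [pow_mul, Real.sq_sqrt (Nat.cast_nonneg _)]
  have h4 : gm (2 * i) = (2 * i - 1)‼ := by
    unfold gm
    rw [if_pos (even_two_mul i)]
  rw [h2, h3, h4, mul_pow]
  ring

theorem av_sigma {Λ : Type} [Fintype Λ] [DecidableEq Λ] {M : Λ → Type} [∀ l, Fintype (M l)] [∀ l, DecidableEq (M l)] {F : Type} [Fintype F]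
    (f : ∀ l, (M l → F) → ℝ) : av (fun c : (Σ l, M l) → F => ∏ l, f l fun m => c ⟨l, m⟩) = ∏ l, av (f l) := by
  have h1 := av_equiv (Equiv.piCurry fun (l : Λ) (_ : M l) => F) (fun c : (∀ l, M l → F) => ∏ l, f l (c l))
  rw [av_pi] at h1
  exact h1

theorem av_one {Λ : Type} [Fintype Λ] [DecidableEq Λ] {M : Λ → Type} [∀ l, Fintype (M l)] [∀ l, DecidableEq (M l)] {F : Type} [AddCommGroup F] [Fintype F] [DecidableEq F]
    (l : Λ) (f : (M l → F) → ℝ) : av (fun c : (Σ l, M l) → F => f fun m => c ⟨l, m⟩) = av f := by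
  refine av_hom (A := (Σ l, M l) → F) (B := M l → F)
    { toFun := fun c m => c ⟨l, m⟩, map_zero' := rfl, map_add' := fun _ _ => rfl } ?_ f
  intro g
  refine ⟨fun x => if h : x.1 = l then g (h ▸ x.2) else 0, ?_⟩
  funext m
  simp

section

variable {Λ : Type} [Fintype Λ] [DecidableEq Λ] {n d δ : Λ → ℕ} {B : ℕ}

/-- the product of the powers of the normalised traces -/
noncomputable def TT (W : ∀ (l : Λ) (p : ℕ) [Fact p.Prime], (Fin (n l + 1) → KB p) → Prop) (d : Λ → ℕ) (b : Λ → ℕ → ℕ → ℝ) (s : Λ → ℝ) (a : Λ → ℕ → ℕ) (B : ℕ)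
    (p : ℕ) [Fact p.Prime] (c : (Σ l, Mon (n l) (δ l)) → ZMod p) : ℝ :=
  ∏ l, ∏ j ∈ Icc 1 B, (s l * tau (W l p) (d l) (b l p) j fun m => c ⟨l, m⟩) ^ a l j

/-- the product of the moments -/
noncomputable def mm (s : Λ → ℝ) (a : Λ → ℕ → ℕ) (B : ℕ) : ℝ := ∏ l, ∏ j ∈ Icc 1 B, (s l ^ a l j * mj j (a l j))

theorem TT_near (W : ∀ (l : Λ) (p : ℕ) [Fact p.Prime], (Fin (n l + 1) → KB p) → Prop) (b : Λ → ℕ → ℕ → ℝ) {s : Λ → ℝ} (hs : ∀ l, s l ^ 2 = 1)
    (a : Λ → ℕ → ℕ) {C₀ : ℝ} (hC₀ : 0 ≤ C₀) (hd : ∀ l, 2 ≤ d l) (hW : ∀ l (p : ℕ) [Fact p.Prime], Sz (W l p) (d l) B C₀)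
    (hb : ∀ l (p : ℕ) [Fact p.Prime], ∀ j ∈ Icc 1 B, |((VW (W l p) j).card : ℝ) / (p : ℝ) ^ j - b l p j| ≤ C₀ * (ep p * sp p (d l) ^ j))
    (ha : ∀ l, ∑ j ∈ Icc 1 B, j * a l j ≤ δ l + 1) :
    ∃ C : ℝ, 0 ≤ C ∧ ∀ (p : ℕ) [Fact p.Prime], |av (TT (δ := δ) W d b s a B p) - mm s a B| ≤ C * ep p := by
  classical
  choose C hC hCp using fun l => one_near (n l) (d l) (δ l) B C₀ hC₀ (a l) (hd l) (ha l)
  have hs1 : ∀ l, |s l| = 1 := by
    intro l
    have h1 : |s l| ^ 2 = 1 := by rw [sq_abs]; exact hs l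
    nlinarith [abs_nonneg (s l)]
  obtain ⟨y, hy⟩ : ∃ y : Λ → ℝ, y = fun l => ∏ j ∈ Icc 1 B, (s l ^ a l j * mj j (a l j)) := ⟨_, rfl⟩
  refine ⟨∏ l, (1 + C l + |y l|), prod_nonneg fun l _ => by have := hC l; positivity, fun p hp => ?_⟩
  have h1 : av (TT (δ := δ) W d b s a B p) = ∏ l, av (fun c : Mon (n l) (δ l) → ZMod p => ∏ j ∈ Icc 1 B, (s l * tau (W l p) (d l) (b l p) j c) ^ a l j) :=
    av_sigma (fun l (c : Mon (n l) (δ l) → ZMod p) => ∏ j ∈ Icc 1 B, (s l * tau (W l p) (d l) (b l p) j c) ^ a l j)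
  have h2 : mm s a B = ∏ l, y l := by rw [hy]; rfl
  rw [h1, h2]
  refine prod_near univ _ y C (fun l => |y l|) (ep_pos (p := p)).le (ep_le_one (p := p)) (fun l _ => hC l) (fun l _ => ?_) (fun l _ => le_rfl)
  have h3 := hCp l p (W l p) (b l p) (hW l p) (fun j hj => hb l p j hj)
  have h4 : (fun c : Mon (n l) (δ l) → ZMod p => ∏ j ∈ Icc 1 B, (s l * tau (W l p) (d l) (b l p) j c) ^ a l j) = fun c =>
      (∏ j ∈ Icc 1 B, s l ^ a l j) * ∏ j ∈ Icc 1 B, tau (W l p) (d l) (b l p) j c ^ a l j := by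
    funext c
    rw [← prod_mul_distrib]
    exact prod_congr rfl fun j _ => mul_pow _ _ _
  have h5 : y l = (∏ j ∈ Icc 1 B, s l ^ a l j) * ∏ j ∈ Icc 1 B, mj j (a l j) := by
    rw [hy, ← prod_mul_distrib]
  rw [h4, h5, Q282.CL.av_mul, ← mul_sub, abs_mul, abs_prod]
  have h6 : ∏ j ∈ Icc 1 B, |s l ^ a l j| = 1 := prod_eq_one fun j _ => by rw [abs_pow, hs1, _root_.one_pow]
  rw [h6, one_mul]
  exact h3

open scoped Classical in
/-- the functions for the law of large numbers -/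
noncomputable def XX (W : ∀ (l : Λ) (p : ℕ) [Fact p.Prime], (Fin (n l + 1) → KB p) → Prop) (d : Λ → ℕ) (b : Λ → ℕ → ℕ → ℝ) (s : Λ → ℝ) (a : Λ → ℕ → ℕ) (B : ℕ)
    (good : (p : ℕ) → ((Σ l, Mon (n l) (δ l)) → ZMod p) → Prop) (p : ℕ) (c : (Σ l, Mon (n l) (δ l)) → ZMod p) : ℝ :=
  if h : p.Prime then (haveI : Fact p.Prime := ⟨h⟩; if good p c then TT W d b s a B p c - mm s a B else 0) else 0

theorem engine (W : ∀ (l : Λ) (p : ℕ) [Fact p.Prime], (Fin (n l + 1) → KB p) → Prop) (b : Λ → ℕ → ℕ → ℝ) {s : Λ → ℝ} (hs : ∀ l, s l ^ 2 = 1)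
    (a : Λ → ℕ → ℕ) {C₀ : ℝ} (hC₀ : 0 ≤ C₀) (hd : ∀ l, 2 ≤ d l) (hW : ∀ l (p : ℕ) [Fact p.Prime], Sz (W l p) (d l) B C₀)
    (hb : ∀ l (p : ℕ) [Fact p.Prime], ∀ j ∈ Icc 1 B, |((VW (W l p) j).card : ℝ) / (p : ℝ) ^ j - b l p j| ≤ C₀ * (ep p * sp p (d l) ^ j))
    (ha : ∀ l, 2 * ∑ j ∈ Icc 1 B, j * a l j ≤ δ l + 1)
    (good : (p : ℕ) → ((Σ l, Mon (n l) (δ l)) → ZMod p) → Prop) (bad : (p : ℕ) → ((Σ l, Mon (n l) (δ l)) → ZMod p) → ℝ)
    (hbad0 : ∀ p c, 0 ≤ bad p c) (hbad1 : ∀ p c, ¬ good p c → 1 ≤ bad p c)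
    {Cb : ℝ} (hCb : 0 ≤ Cb) (hbad : ∀ (p : ℕ) [Fact p.Prime], av (bad p) ≤ Cb * (1 / p))
    {ε : ℝ} (hε : 0 < ε) (hε1 : ε ≤ 1) : ∃ C : ℝ, 0 ≤ C ∧ ∀ (w : ℕ → ℝ), (∀ p, |w p| ≤ 1) → ∀ (N : (Σ l, Mon (n l) (δ l)) → ℤ) (L : (Σ l, Mon (n l) (δ l)) → ℕ)
      (T : ℝ), (∀ i, T ≤ L i) → ∀ X₀ : ℕ, 1 ≤ X₀ → ∃ E ⊆ bx N L, (E.card : ℝ) ≤ C * (X₀ : ℝ) ^ (-(ε / 2)) * ∏ i, (L i : ℝ) ∧
        ∀ t ∈ bx N L, t ∉ E → ∀ Y Y' : ℕ, Y ≤ Y' → X₀ ≤ Y' → 8 * (Y' : ℝ) ^ 3 ≤ T →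
          |∑ i ∈ Ico Y Y', ff (XX W d b s a B good) w t i| ≤ 4 * (Y' : ℝ) ^ (1 / 2 + ε / 2) := by
  classical
  obtain ⟨C₁, hC₁0, hC₁⟩ := TT_near (δ := δ) W b hs a hC₀ hd hW hb (fun l => by have := ha l; omega)
  obtain ⟨C₂, hC₂0, hC₂⟩ := TT_near (δ := δ) W b hs (fun l j => 2 * a l j) hC₀ hd hW hb (fun l => by
    refine le_trans (le_of_eq ?_) (ha l)
    rw [mul_sum]
    exact sum_congr rfl fun j _ => by ring)
  obtain ⟨m, hm⟩ : ∃ m, m = mm s a B := ⟨_, rfl⟩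
  -- second moments
  obtain ⟨V, hV⟩ : ∃ V, V = 2 * (|mm s (fun l j => 2 * a l j) B| + C₂) + 2 * m ^ 2 := ⟨_, rfl⟩
  have hV0 : 0 ≤ V := by rw [hV]; positivity
  have hsec : ∀ (p : ℕ) [Fact p.Prime], av (fun c => (TT (δ := δ) W d b s a B p c - m) ^ 2) ≤ V := by
    intro p hp
    have h1 : ∀ c, (TT (δ := δ) W d b s a B p c - m) ^ 2 ≤ 2 * TT (δ := δ) W d b s (fun l j => 2 * a l j) B p c + 2 * m ^ 2 := by
      intro c
      have h2 : TT (δ := δ) W d b s (fun l j => 2 * a l j) B p c = TT (δ := δ) W d b s a B p c ^ 2 := by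
        unfold TT
        rw [← prod_pow]
        refine prod_congr rfl fun l _ => ?_
        rw [← prod_pow]
        refine prod_congr rfl fun j _ => ?_
        rw [← pow_mul, mul_comm (a l j) 2]
      rw [h2]
      nlinarith [sq_nonneg (TT (δ := δ) W d b s a B p c + m)]
    refine (av_mono h1).trans ?_
    rw [av_add, Q282.CL.av_mul, av_const, hV]
    have h2 := hC₂ p
    have h3 := abs_sub_le (av (TT (δ := δ) W d b s (fun l j => 2 * a l j) B p)) (mm s (fun l j => 2 * a l j) B) 0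
    rw [sub_zero, sub_zero] at h3
    have h4 : C₂ * ep p ≤ C₂ := mul_le_of_le_one_right hC₂0 (ep_le_one (p := p))
    have h5 := le_abs_self (av (TT (δ := δ) W d b s (fun l j => 2 * a l j) B p))
    have h6 : (av fun a_1 => TT (δ := δ) W d b s (fun l j => 2 * a l j) B p a_1) = av (TT (δ := δ) W d b s (fun l j => 2 * a l j) B p) := rfl
    rw [h6]
    linarith
  obtain ⟨C₃, hC₃⟩ : ∃ C₃, C₃ = C₁ + Cb + V + 1 := ⟨_, rfl⟩
  have hC₃1 : 1 ≤ C₃ := by rw [hC₃]; linarith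
  refine law (X := XX (δ := δ) W d b s a B good) (C₀ := C₃) (by linarith) (fun p hp => ?_) (fun p hp => ?_) hε hε1
  · have hX : XX (δ := δ) W d b s a B good p = fun c => (TT (δ := δ) W d b s a B p c - m) - (if good p c then 0 else TT (δ := δ) W d b s a B p c - m) := by
      funext c
      unfold XX
      rw [dif_pos hp.out, ← hm]
      by_cases h : good p c
      · rw [if_pos h, if_pos h, sub_zero]
      · rw [if_neg h, if_neg h, sub_self]
    rw [hX, av_sub, av_sub, av_const]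
    have h1 := hC₁ p
    rw [← hm] at h1
    have hsq0 : 0 < Real.sqrt p := lt_of_lt_of_le one_pos (one_le_sqrt (p := p))
    have hsq2 : Real.sqrt p ^ 2 = p := Real.sq_sqrt (Nat.cast_nonneg _)
    have h2 : |av (fun c => if good p c then 0 else TT (δ := δ) W d b s a B p c - m)| ≤ (Cb + V) * ep p := by
      refine (abs_av_le _).trans ?_
      have h3 : ∀ c, |if good p c then 0 else TT (δ := δ) W d b s a B p c - m| ≤ Real.sqrt p * bad p c + ep p * (TT (δ := δ) W d b s a B p c - m) ^ 2 := by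
        intro c
        have hepp := (ep_pos (p := p)).le
        have hb0 := hbad0 p c
        split_ifs with h
        · rw [abs_zero]
          positivity
        · have h4 := hbad1 p c h
          obtain ⟨z, hz⟩ : ∃ z, z = |TT (δ := δ) W d b s a B p c - m| := ⟨_, rfl⟩
          have hz0 : 0 ≤ z := by rw [hz]; exact abs_nonneg _
          rw [← sq_abs, ← hz]
          have h5 : z ≤ Real.sqrt p + ep p * z ^ 2 := by
            unfold ep
            rw [one_div, inv_mul_eq_div, ← sub_le_iff_le_add', le_div_iff₀ hsq0]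
            nlinarith [sq_nonneg (z - Real.sqrt p)]
          have h6 : Real.sqrt p * 1 ≤ Real.sqrt p * bad p c := mul_le_mul_of_nonneg_left h4 hsq0.le
          linarith
      refine (av_mono h3).trans ?_
      rw [av_add, Q282.CL.av_mul, Q282.CL.av_mul]
      have h4 := mul_le_mul_of_nonneg_left (hbad p) hsq0.le
      have h5 := mul_le_mul_of_nonneg_left (hsec p) (ep_pos (p := p)).le
      have h6 : Real.sqrt p * (Cb * (1 / p)) = Cb * ep p := by
        unfold ep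
        nth_rewrite 2 [← hsq2]
        field_simp
      have h7 : (av fun a => bad p a) = av (bad p) := rfl
      rw [h7]
      linarith
    have h3 := abs_sub (av (fun a_1 => TT (δ := δ) W d b s a B p a_1) - m) (av (fun c => if good p c then 0 else TT (δ := δ) W d b s a B p c - m))
    have h4 : (av fun a_1 => TT (δ := δ) W d b s a B p a_1) = av (TT (δ := δ) W d b s a B p) := rfl
    rw [h4] at h3 ⊢
    have h5 : C₃ * ep p = C₁ * ep p + (Cb + V) * ep p + ep p := by rw [hC₃]; ring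
    have h6 := (ep_pos (p := p)).le
    linarith
  · have h1 : ∀ c, XX (δ := δ) W d b s a B good p c ^ 2 ≤ (TT (δ := δ) W d b s a B p c - m) ^ 2 := by
      intro c
      unfold XX
      rw [dif_pos hp.out, ← hm]
      by_cases h : good p c
      · rw [if_pos h]
      · rw [if_neg h]
        have := sq_nonneg (TT (δ := δ) W d b s a B p c - m)
        simpa using this
    refine (av_mono h1).trans ((hsec p).trans ?_)
    have h2 : V ≤ C₃ := by rw [hC₃]; linarith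
    nlinarith

end

end Run7.h3.ST
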