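import Pool.Agent.Run7.h3.ST.Asm
import Pool.Agent.Y722.HS.Bad

set_option autoImplicit false
set_option linter.unusedSectionVars false
set_option linter.unusedVariables false

/-! From forms with integer coefficients to the functions of the law of large numbers. -/

namespace Run7.h3.ST

open Finset
open Pool.Agent.Y722.HS (Mon mev form IsSmooth)
open Q282.CL
open scoped LinearAlgebra.Projectivization

section

variable {n : ℕ}

/-- the value of a polynomial with integer coefficients -/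
noncomputable def evz {k : Type} [Field k] (v : Fin (n + 1) → k) (G : MvPolynomial (Fin (n + 1)) ℤ) : k :=
  MvPolynomial.eval₂ (Int.castRingHom k) v G

theorem aeval_eq {k : Type} [Field k] [Algebra ℤ k] (v : Fin (n + 1) → k) (G : MvPolynomial (Fin (n + 1)) ℤ) : MvPolynomial.aeval v G = evz v G := by
  rw [MvPolynomial.aeval_def]
  unfold evz
  congr 1
  exact RingHom.ext_int _ _

/-- the points of the scheme defined by `S` -/
def WS (S : Set (MvPolynomial (Fin (n + 1)) ℤ)) (p : ℕ) [Fact p.Prime] (v : Fin (n + 1) → KB p) : Prop :=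
  ∀ G ∈ S, evz v G = 0

variable {S : Set (MvPolynomial (Fin (n + 1)) ℤ)}

theorem evz_smul {k : Type} [Field k] {G : MvPolynomial (Fin (n + 1)) ℤ} {D : ℕ} (hG : G.IsHomogeneous D) (a : k) (v : Fin (n + 1) → k) :
    evz (a • v) G = a ^ D * evz v G := by
  unfold evz
  rw [MvPolynomial.eval₂_eq', MvPolynomial.eval₂_eq', mul_sum]
  refine sum_congr rfl fun m hm => ?_
  have h2 : ∑ i, m i = D := by
    have h3 := hG (MvPolynomial.mem_support_iff.mp hm)
    rw [Finsupp.weight_apply, Finsupp.sum_fintype _ _ (fun i => by simp)] at h3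
    simpa using h3
  simp only [Pi.smul_apply, smul_eq_mul, mul_pow, prod_mul_distrib]
  rw [prod_pow_eq_pow_sum, h2]
  ring

theorem hom_evz {k k' : Type} [Field k] [Field k'] (σ : k →+* k') (v : Fin (n + 1) → k) (G : MvPolynomial (Fin (n + 1)) ℤ) :
    evz (fun i => σ (v i)) G = σ (evz v G) := by
  unfold evz
  rw [MvPolynomial.hom_eval₂]
  congr 1
  exact RingHom.ext_int _ _

theorem stab_WS (p : ℕ) [hp : Fact p.Prime] : Stab (WS S p) := by
  intro v s
  unfold WS
  refine forall_congr' fun G => forall_congr' fun _ => ?_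
  have h1 : (Fr p)^[s] v = fun i => (iterateFrobenius (KB p) p s) (v i) := by
    rw [Fr_iter]
    rfl
  rw [h1, hom_evz]
  exact map_eq_zero_iff _ (iterateFrobenius (KB p) p s).injective

theorem evz_form {k : Type} [Field k] {δ : ℕ} (t : Mon n δ → ℤ) (v : Fin (n + 1) → k) :
    evz v (form t) = ∑ m, (t m : k) * mev v m := by
  unfold evz form mev
  rw [MvPolynomial.eval₂_sum]
  refine sum_congr rfl fun m _ => ?_
  rw [MvPolynomial.eval₂_mul, MvPolynomial.eval₂_C, MvPolynomial.eval₂_prod]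
  simp

theorem form_hom {δ : ℕ} (t : Mon n δ → ℤ) : (form t).IsHomogeneous δ := by
  unfold form
  refine MvPolynomial.IsHomogeneous.sum _ _ _ fun m _ => ?_
  have h1 : (∏ i, (MvPolynomial.X i : MvPolynomial (Fin (n + 1)) ℤ) ^ (m.1 i : ℕ)).IsHomogeneous (∑ i, (m.1 i : ℕ)) :=
    MvPolynomial.IsHomogeneous.prod _ _ _ fun i _ => MvPolynomial.isHomogeneous_X_pow i _
  rw [m.2] at h1
  have h2 := (MvPolynomial.isHomogeneous_C (Fin (n + 1)) (t m)).mul h1
  rwa [zero_add] at h2

theorem form_val {δ : ℕ} (p : ℕ) [Fact p.Prime] (t : Mon n δ → ℤ) (v : Fin (n + 1) → KB p) :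
    evz v (form t) = val v (fun m => (t m : ZMod p)) := by
  rw [evz_form]
  unfold val
  refine sum_congr rfl fun m _ => ?_
  rw [map_intCast]

/-- the number of the points -/
theorem pts_WS (hS : ∀ G ∈ S, ∃ d, G.IsHomogeneous d) (p : ℕ) [hp : Fact p.Prime] {j : ℕ} (hj : 1 ≤ j) :
    Nat.card {P : ℙ (GaloisField p j) (Fin (n + 1) → GaloisField p j) // ∀ G ∈ S, MvPolynomial.aeval P.rep G = 0} = (VW (WS S p) j).card := by
  classical
  have hk : Nat.card (GaloisField p j) = p ^ j := GaloisField.card p j (by omega)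
  have hfin : Finite (GaloisField p j) := inferInstance
  simp only [aeval_eq]
  have h1 := card_pts (n := n) (GaloisField p j) hj hk (fun v => ∀ G ∈ S, evz v G = 0) (WS S p) (fun a v ha => ?_) (fun σ v => ?_)
  · rw [h1]
    unfold VW
    congr 1
  · refine forall_congr' fun G => forall_congr' fun hG => ?_
    obtain ⟨D, hD⟩ := hS G hG
    rw [evz_smul hD, mul_eq_zero, or_iff_right (pow_ne_zero _ ha)]
  · unfold WS
    refine forall_congr' fun G => forall_congr' fun hG => ?_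
    have h3 : evz (fun i => σ (v i)) G = σ.toRingHom (evz v G) := hom_evz σ.toRingHom v G
    rw [h3]
    exact (map_eq_zero_iff _ σ.toRingHom.injective).symm

theorem pts_sec (hS : ∀ G ∈ S, ∃ d, G.IsHomogeneous d) (p : ℕ) [hp : Fact p.Prime] {j : ℕ} (hj : 1 ≤ j) {δ : ℕ} (t : Mon n δ → ℤ) :
    (Nat.card {P : ℙ (GaloisField p j) (Fin (n + 1) → GaloisField p j) // ∀ G ∈ S ∪ {form t}, MvPolynomial.aeval P.rep G = 0} : ℝ) =
      ∑ v ∈ VW (WS S p) j, Xi v (fun m => (t m : ZMod p)) := by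
  classical
  rw [pts_WS (S := S ∪ {form t}) (fun G hG => by
    rcases hG with hG | hG
    · exact hS G hG
    · rw [Set.mem_singleton_iff] at hG
      exact ⟨δ, hG ▸ form_hom t⟩) p hj]
  unfold Xi
  rw [← sum_filter, sum_const, nsmul_eq_mul, mul_one]
  congr 2
  ext v
  rw [mem_filter, mem_VW hj, mem_VW hj, ← form_val]
  unfold WS
  constructor
  · rintro ⟨h1, h2, h3⟩
    exact ⟨⟨h1, h2, fun G hG => h3 G (Or.inl hG)⟩, h3 _ (Or.inr rfl)⟩
  · rintro ⟨⟨h1, h2, h3⟩, h4⟩
    refine ⟨h1, h2, fun G hG => ?_⟩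
    rcases hG with hG | hG
    · exact h3 G hG
    · rw [Set.mem_singleton_iff] at hG
      rw [hG]
      exact h4

/-- projective space -/
theorem sz_proj (hn : 1 ≤ n) (B : ℕ) (p : ℕ) [hp : Fact p.Prime] {C₀ : ℝ} (hC₀ : (n : ℝ) ≤ C₀) : Sz (WS (n := n) ∅ p) n B C₀ := by
  refine ⟨stab_WS p, fun e he => ?_⟩
  have he1 := (mem_Icc.1 he).1
  have h1 : VW (WS (n := n) ∅ p) e = VV p n e := by
    classical
    unfold VW
    refine filter_true_of_mem fun v _ => ?_
    intro G hG
    exact absurd hG (Set.notMem_empty G)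
  rw [h1, card_VV he1, sum_range_succ]
  push_cast
  rw [add_sub_cancel_right]
  have hp1 := one_le_p (p := p)
  have hpe : (1 : ℝ) ≤ (p : ℝ) ^ e := one_le_pow₀ hp1
  have hpp : (p : ℝ) ≤ (p : ℝ) ^ e := le_self_pow₀ hp1 (by omega)
  have hpen : (0 : ℝ) < ((p : ℝ) ^ e) ^ n := by positivity
  have hie := inv_p_le (p := p)
  have hep := (ep_pos (p := p)).le
  have h2 : ∀ i ∈ range n, ((p : ℝ) ^ e) ^ i ≤ ((p : ℝ) ^ e) ^ n * ep p := by
    intro i hi
    have h3 : ((p : ℝ) ^ e) ^ i * (p : ℝ) ^ e ≤ ((p : ℝ) ^ e) ^ n := by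
      rw [← pow_succ]
      exact pow_le_pow_right₀ hpe (by have := mem_range.1 hi; omega)
    have h4 : ((p : ℝ) ^ e) ^ i * p ≤ ((p : ℝ) ^ e) ^ n := le_trans (mul_le_mul_of_nonneg_left hpp (by positivity)) h3
    calc ((p : ℝ) ^ e) ^ i = (((p : ℝ) ^ e) ^ i * p) * (1 / p) := by
          have := (p_pos (p := p)).ne'
          field_simp
      _ ≤ ((p : ℝ) ^ e) ^ n * (1 / p) := mul_le_mul_of_nonneg_right h4 (by positivity)
      _ ≤ ((p : ℝ) ^ e) ^ n * ep p := mul_le_mul_of_nonneg_left hie hpen.le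
  rw [abs_of_nonneg (sum_nonneg fun i _ => by positivity)]
  refine (sum_le_sum h2).trans ?_
  rw [sum_const, card_range, nsmul_eq_mul]
  exact mul_le_mul_of_nonneg_right hC₀ (by positivity)

theorem cen_proj (p : ℕ) [hp : Fact p.Prime] {C₀ : ℝ} (hC₀ : 1 ≤ C₀) {j : ℕ} (hj : 1 ≤ j) :
    |((VW (WS (n := n) ∅ p) j).card : ℝ) / (p : ℝ) ^ j - ∑ i ∈ range n, ((p : ℝ) ^ j) ^ i| ≤ C₀ * (ep p * sp p n ^ j) := by
  have h1 : VW (WS (n := n) ∅ p) j = VV p n j := by
    classical
    unfold VW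
    refine filter_true_of_mem fun v _ => ?_
    intro G hG
    exact absurd hG (Set.notMem_empty G)
  have hp1 := one_le_p (p := p)
  have hpj : (0 : ℝ) < (p : ℝ) ^ j := by positivity
  have hep := ep_pos (p := p)
  rw [h1, card_VV hj]
  push_cast
  have h2 : (∑ i ∈ range (n + 1), ((p : ℝ) ^ j) ^ i) / (p : ℝ) ^ j = ∑ i ∈ range n, ((p : ℝ) ^ j) ^ i + 1 / (p : ℝ) ^ j := by
    rw [sum_range_succ', add_div, pow_zero, sum_div]
    congr 1
    refine sum_congr rfl fun i _ => ?_
    rw [pow_succ, mul_div_assoc, div_self hpj.ne', mul_one]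
  rw [h2, add_sub_cancel_left, abs_of_nonneg (by positivity)]
  have h3 : 1 / (p : ℝ) ^ j ≤ 1 / (p : ℝ) := div_le_div_of_nonneg_left zero_le_one p_pos (le_self_pow₀ hp1 (by omega))
  have h4 : 1 ≤ sp p n ^ j := one_le_pow₀ one_le_sp
  calc 1 / (p : ℝ) ^ j ≤ ep p := h3.trans inv_p_le
    _ = 1 * (ep p * 1) := by ring
    _ ≤ C₀ * (ep p * sp p n ^ j) := mul_le_mul hC₀ (mul_le_mul_of_nonneg_left h4 hep.le) (by positivity) (by linarith)

open scoped Classical in
/-- few forms are singular -/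
theorem few_bad {δ : ℕ} (p : ℕ) [hp : Fact p.Prime] :
    av (fun c : Mon n δ → ZMod p => if Pool.Agent.Y722.HS.IsBad p c then (1 : ℝ) else 0) ≤
      ((δ : ℝ) + (Pool.Agent.Y722.HS.Delta n δ).totalDegree + 1) * (1 / p) ∨ δ = 0 := by
  rcases Nat.eq_zero_or_pos δ with h0 | h0
  · exact Or.inr h0
  left
  have hp0 := p_pos (p := p)
  have hle1 : av (fun c : Mon n δ → ZMod p => if Pool.Agent.Y722.HS.IsBad p c then (1 : ℝ) else 0) ≤ 1 := by
    refine (av_mono (g := fun _ => (1 : ℝ)) fun c => ?_).trans (le_of_eq (av_const 1))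
    split_ifs <;> norm_num
  by_cases h : p ∣ δ
  · refine hle1.trans ?_
    have h1 : (p : ℝ) ≤ δ := by exact_mod_cast Nat.le_of_dvd h0 h
    rw [mul_one_div, le_div_iff₀ hp0, one_mul]
    have h2 : (0 : ℝ) ≤ (Pool.Agent.Y722.HS.Delta n δ).totalDegree := Nat.cast_nonneg _
    linarith
  · have h1 := Pool.Agent.Y722.HS.card_bad n δ p h
    unfold av
    rw [Finset.sum_boole, Fintype.card_fun, ZMod.card]
    have h2 : Nat.card {c : Mon n δ → ZMod p // Pool.Agent.Y722.HS.IsBad p c} = (univ.filter fun c : Mon n δ → ZMod p => Pool.Agent.Y722.HS.IsBad p c).card := by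
      rw [Nat.card_eq_fintype_card, Fintype.card_subtype]
    rw [h2] at h1
    have h3 : (0 : ℝ) < (p : ℝ) ^ Fintype.card (Mon n δ) := by positivity
    push_cast
    rw [mul_one_div, div_le_div_iff₀ h3 hp0]
    refine h1.trans ?_
    refine mul_le_mul_of_nonneg_right ?_ h3.le
    have : (0 : ℝ) ≤ δ := Nat.cast_nonneg _
    linarith

end

end Run7.h3.ST
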