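import Pool.Agent.Run7.h3.ST.Gmo

set_option autoImplicit false
set_option linter.unusedSectionVars false
set_option linter.unusedVariables false

/-! Polynomials in the normalised sums, of bounded weight and with bounded coefficients. -/

namespace Run7.h3.ST

open Finset
open Q282.CL

section

variable {K : Type} {G : ℕ → K → ℝ} {B : ℕ}

/-- the monomial with exponents `b` -/
def mon (G : ℕ → K → ℝ) (B : ℕ) (b : ℕ → ℕ) (c : K) : ℝ := ∏ e ∈ Icc 1 B, G e c ^ b e

/-- a polynomial in the functions `G e`, of weight at most `μ`, with coefficients of sum at most `C` -/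
def Cl (G : ℕ → K → ℝ) (B μ : ℕ) (C : ℝ) (f : K → ℝ) : Prop :=
  ∃ (I : Type) (_ : Fintype I) (α : I → ℝ) (b : I → ℕ → ℕ), (∀ i, ∑ e ∈ Icc 1 B, e * b i e ≤ μ) ∧ ∑ i, |α i| ≤ C ∧
    ∀ c, f c = ∑ i, α i * mon G B (b i) c

theorem Cl.mono {μ μ' : ℕ} {C C' : ℝ} {f : K → ℝ} (h : Cl G B μ C f) (hμ : μ ≤ μ') (hC : C ≤ C') : Cl G B μ' C' f := by
  obtain ⟨I, hI, α, b, h1, h2, h3⟩ := h
  exact ⟨I, hI, α, b, fun i => (h1 i).trans hμ, h2.trans hC, h3⟩

theorem Cl.nonneg {μ : ℕ} {C : ℝ} {f : K → ℝ} (h : Cl G B μ C f) : 0 ≤ C := by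
  obtain ⟨I, hI, α, b, h1, h2, h3⟩ := h
  exact (sum_nonneg fun i _ => abs_nonneg (α i)).trans h2

theorem Cl.const (a : ℝ) : Cl G B 0 |a| (fun _ => a) := by
  refine ⟨Unit, inferInstance, fun _ => a, fun _ _ => 0, fun _ => by simp, by simp, fun c => ?_⟩
  simp [mon]

theorem Cl.var {e : ℕ} (he : e ∈ Icc 1 B) : Cl G B e 1 (G e) := by
  classical
  refine ⟨Unit, inferInstance, fun _ => 1, fun _ x => if x = e then 1 else 0, fun _ => ?_, by simp, fun c => ?_⟩
  · rw [sum_eq_single e]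
    · simp
    · intro x _ hx
      simp only
      rw [if_neg hx, mul_zero]
    · intro h
      exact absurd he h
  · simp only [mon, univ_unique, sum_singleton, one_mul]
    rw [prod_eq_single e]
    · simp
    · intro x _ hx
      rw [if_neg hx, pow_zero]
    · intro h
      exact absurd he h

theorem Cl.add {μ μ' : ℕ} {C C' : ℝ} {f g : K → ℝ} (hf : Cl G B μ C f) (hg : Cl G B μ' C' g) :
    Cl G B (max μ μ') (C + C') (fun c => f c + g c) := by
  obtain ⟨I, hI, α, b, h1, h2, h3⟩ := hf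
  obtain ⟨J, hJ, β, d, k1, k2, k3⟩ := hg
  refine ⟨I ⊕ J, inferInstance, Sum.elim α β, Sum.elim b d, ?_, ?_, fun c => ?_⟩
  · rintro (i | j)
    · exact (h1 i).trans (le_max_left _ _)
    · exact (k1 j).trans (le_max_right _ _)
  · rw [Fintype.sum_sum_type]
    exact add_le_add h2 k2
  · simp only
    rw [h3, k3, Fintype.sum_sum_type]
    rfl

theorem Cl.smul {μ : ℕ} {C : ℝ} {f : K → ℝ} (a : ℝ) (hf : Cl G B μ C f) : Cl G B μ (|a| * C) (fun c => a * f c) := by
  obtain ⟨I, hI, α, b, h1, h2, h3⟩ := hf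
  refine ⟨I, hI, fun i => a * α i, b, h1, ?_, fun c => ?_⟩
  · simp only [abs_mul]
    rw [← mul_sum]
    exact mul_le_mul_of_nonneg_left h2 (abs_nonneg a)
  · simp only
    rw [h3, mul_sum]
    exact sum_congr rfl fun i _ => by ring

theorem Cl.sub {μ μ' : ℕ} {C C' : ℝ} {f g : K → ℝ} (hf : Cl G B μ C f) (hg : Cl G B μ' C' g) :
    Cl G B (max μ μ') (C + C') (fun c => f c - g c) := by
  have h1 := hf.add (hg.smul (-1))
  rw [abs_neg, abs_one, one_mul] at h1
  have h2 : (fun c => f c - g c) = fun c => f c + -1 * g c := by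
    funext c
    ring
  rw [h2]
  exact h1

theorem Cl.mul {μ μ' : ℕ} {C C' : ℝ} {f g : K → ℝ} (hf : Cl G B μ C f) (hg : Cl G B μ' C' g) :
    Cl G B (μ + μ') (C * C') (fun c => f c * g c) := by
  have hC := hf.nonneg
  obtain ⟨I, hI, α, b, h1, h2, h3⟩ := hf
  obtain ⟨J, hJ, β, d, k1, k2, k3⟩ := hg
  refine ⟨I × J, inferInstance, fun q => α q.1 * β q.2, fun q e => b q.1 e + d q.2 e, ?_, ?_, fun c => ?_⟩
  · rintro ⟨i, j⟩
    simp only [mul_add, sum_add_distrib]
    exact add_le_add (h1 i) (k1 j)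
  · simp only [abs_mul]
    rw [Fintype.sum_prod_type]
    simp only
    rw [← Fintype.sum_mul_sum]
    exact mul_le_mul h2 k2 (sum_nonneg fun i _ => abs_nonneg _) hC
  · simp only
    rw [h3, k3, Fintype.sum_mul_sum, Fintype.sum_prod_type]
    refine sum_congr rfl fun i _ => sum_congr rfl fun j _ => ?_
    unfold mon
    simp only [pow_add]
    rw [prod_mul_distrib]
    ring

theorem Cl.sum {α : Type} [DecidableEq α] (S : Finset α) {μ : ℕ} {C : α → ℝ} {f : α → K → ℝ} (h : ∀ a ∈ S, Cl G B μ (C a) (f a)) :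
    Cl G B μ (∑ a ∈ S, C a) (fun c => ∑ a ∈ S, f a c) := by
  induction S using Finset.induction_on with
  | empty =>
    simp only [sum_empty]
    have h1 := (Cl.const (G := G) (B := B) 0).mono (Nat.zero_le μ) le_rfl
    rwa [abs_zero] at h1
  | insert a S ha ih =>
    simp only [sum_insert ha]
    have h1 := (h a (mem_insert_self _ _)).add (ih fun x hx => h x (mem_insert_of_mem hx))
    rwa [max_self] at h1

theorem Cl.av_le [Fintype K] {μ : ℕ} {C M : ℝ} {f : K → ℝ} (hf : Cl G B μ C f)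
    (hM : ∀ b : ℕ → ℕ, ∑ e ∈ Icc 1 B, e * b e ≤ μ → |av (mon G B b)| ≤ M) : |av f| ≤ C * M := by
  obtain ⟨I, hI, α, b, h1, h2, h3⟩ := hf
  have hM0 : 0 ≤ M := (abs_nonneg _).trans (hM (fun _ => 0) (by simp))
  have h4 : f = fun c => ∑ i, α i * mon G B (b i) c := funext h3
  rw [h4, av_sum]
  refine (abs_sum_le_sum_abs _ _).trans ?_
  have h5 : ∀ i ∈ (univ : Finset I), |av (fun c => α i * mon G B (b i) c)| ≤ |α i| * M := by
    intro i _
    rw [Q282.CL.av_mul, abs_mul]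
    exact mul_le_mul_of_nonneg_left (hM _ (h1 i)) (abs_nonneg _)
  refine (sum_le_sum h5).trans ?_
  rw [← sum_mul]
  exact mul_le_mul_of_nonneg_right h2 hM0

/-- two polynomials which are close -/
structure Nr (G : ℕ → K → ℝ) (B : ℕ) (ε : ℝ) (μ : ℕ) (C : ℝ) (f g : K → ℝ) : Prop where
  left : Cl G B μ C f
  right : Cl G B μ C g
  near : Cl G B μ (C * ε) (fun c => f c - g c)

theorem Nr.one {ε : ℝ} (hε : 0 ≤ ε) : Nr G B ε 0 1 (fun _ => 1) (fun _ => 1) := by
  have h1 := Cl.const (G := G) (B := B) 1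
  rw [abs_one] at h1
  refine ⟨h1, h1, ?_⟩
  have h2 := (Cl.const (G := G) (B := B) 0).mono le_rfl (by rw [abs_zero]; linarith : |(0 : ℝ)| ≤ 1 * ε)
  simpa using h2

theorem Nr.mul {ε : ℝ} {μ μ' : ℕ} {C C' : ℝ} {f g f' g' : K → ℝ} (h : Nr G B ε μ C f g) (h' : Nr G B ε μ' C' f' g') :
    Nr G B ε (μ + μ') (2 * C * C') (fun c => f c * f' c) (fun c => g c * g' c) := by
  have hC := h.left.nonneg
  have hC' := h'.left.nonneg
  have hCC : C * C' ≤ 2 * C * C' := by nlinarith [mul_nonneg hC hC']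
  refine ⟨(h.left.mul h'.left).mono le_rfl hCC, (h.right.mul h'.right).mono le_rfl hCC, ?_⟩
  have h1 := (h.left.mul h'.near).add (h.near.mul h'.right)
  rw [max_self] at h1
  have h2 : (fun c => f c * f' c - g c * g' c) = fun c => f c * (f' c - g' c) + (f c - g c) * g' c := by
    funext c
    ring
  rw [h2]
  exact h1.mono le_rfl (le_of_eq (by ring))

theorem Nr.pow {ε : ℝ} (hε : 0 ≤ ε) {μ : ℕ} {C : ℝ} {f g : K → ℝ} (h : Nr G B ε μ C f g) (a : ℕ) :
    Nr G B ε (μ * a) ((2 * C) ^ a) (fun c => f c ^ a) (fun c => g c ^ a) := by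
  induction a with
  | zero =>
    simp only [pow_zero, mul_zero]
    exact Nr.one hε
  | succ a ih =>
    have h1 := ih.mul h
    simp only [pow_succ, mul_add, mul_one]
    have h2 : (2 * C) ^ a * (2 * C) = 2 * (2 * C) ^ a * C := by ring
    rw [h2]
    exact h1

theorem Nr.prod {ε : ℝ} (hε : 0 ≤ ε) {α : Type} [DecidableEq α] (S : Finset α) {μ : α → ℕ} {C : α → ℝ} {f g : α → K → ℝ}
    (h : ∀ a ∈ S, Nr G B ε (μ a) (C a) (f a) (g a)) :
    Nr G B ε (∑ a ∈ S, μ a) (∏ a ∈ S, (2 * C a)) (fun c => ∏ a ∈ S, f a c) (fun c => ∏ a ∈ S, g a c) := by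
  induction S using Finset.induction_on with
  | empty =>
    simp only [prod_empty, sum_empty]
    exact Nr.one hε
  | insert a S ha ih =>
    simp only [prod_insert ha, sum_insert ha]
    have h1 := (h a (mem_insert_self _ _)).mul (ih fun x hx => h x (mem_insert_of_mem hx))
    exact h1

end

end Run7.h3.ST
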