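import Pool.Agent.Y722.HS.Disc

set_option autoImplicit false
set_option linter.unusedSectionVars false
set_option linter.unusedVariables false

/-! The action of Frobenius on an algebraic closure of a prime field. -/

namespace Run7.h3.ST

open Finset Polynomial

section field

variable (p : ℕ) [hp : Fact p.Prime]

/-- the algebraic closure -/
abbrev KB : Type := AlgebraicClosure (ZMod p)

/-- the elements of the field with `p ^ e` elements -/
noncomputable def Fx (e : ℕ) : Finset (KB p) := by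
  classical exact ((X ^ (p ^ e) - X : (KB p)[X]).roots).toFinset

variable {p}

theorem pe_gt {e : ℕ} (he : 1 ≤ e) : 1 < p ^ e := Nat.one_lt_pow (by omega) hp.out.one_lt

theorem mem_Fx {e : ℕ} (he : 1 ≤ e) {x : KB p} : x ∈ Fx p e ↔ x ^ (p ^ e) = x := by
  classical
  have hne : (X ^ (p ^ e) - X : (KB p)[X]) ≠ 0 := by
    intro h
    have h1 := FiniteField.X_pow_card_pow_sub_X_natDegree_eq (KB p) (p := p) (n := e) (by omega) hp.out.one_lt
    rw [h, natDegree_zero] at h1
    have := pe_gt (p := p) he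
    omega
  unfold Fx
  rw [Multiset.mem_toFinset, mem_roots hne, IsRoot.def, eval_sub, eval_pow, eval_X, sub_eq_zero]

theorem card_Fx {e : ℕ} (he : 1 ≤ e) : (Fx p e).card = p ^ e := by
  classical
  have h1 := FiniteField.X_pow_card_pow_sub_X_natDegree_eq (KB p) (p := p) (n := e) (by omega) hp.out.one_lt
  have h2 : (X ^ (p ^ e) - X : (KB p)[X]).Separable := galois_poly_separable p _ (dvd_pow_self p (by omega))
  unfold Fx
  rw [Multiset.toFinset_card_of_nodup (nodup_roots h2), IsAlgClosed.card_roots_eq_natDegree, h1]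

theorem fix_mul {e : ℕ} {x : KB p} (hx : x ^ (p ^ e) = x) (k : ℕ) : x ^ (p ^ (e * k)) = x := by
  induction k with
  | zero => simp
  | succ k ih => rw [mul_add, mul_one, pow_add, pow_mul, ih, hx]

theorem fix_dvd {e L : ℕ} {x : KB p} (hx : x ^ (p ^ e) = x) (h : e ∣ L) : x ^ (p ^ L) = x := by
  obtain ⟨k, rfl⟩ := h
  exact fix_mul hx k

theorem exists_fix (x : KB p) : ∃ l, 1 ≤ l ∧ x ^ (p ^ l) = x := by
  classical
  have hint : IsIntegral (ZMod p) x := (AlgebraicClosure.isAlgebraic (ZMod p)).isIntegral.isIntegral x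
  have hfd : FiniteDimensional (ZMod p) (IntermediateField.adjoin (ZMod p) {x}) :=
    IntermediateField.adjoin.finiteDimensional hint
  have hfin : Finite (IntermediateField.adjoin (ZMod p) {x}) := Module.finite_of_finite (ZMod p)
  have hft : Fintype (IntermediateField.adjoin (ZMod p) {x}) := Fintype.ofFinite _
  have h1 := Module.card_eq_pow_finrank (K := ZMod p) (V := IntermediateField.adjoin (ZMod p) {x})
  rw [ZMod.card] at h1
  refine ⟨Module.finrank (ZMod p) (IntermediateField.adjoin (ZMod p) {x}), Module.finrank_pos, ?_⟩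
  have h2 := FiniteField.pow_card (⟨x, IntermediateField.mem_adjoin_simple_self (ZMod p) x⟩ :
    IntermediateField.adjoin (ZMod p) {x})
  rw [h1] at h2
  have h3 := congrArg (fun y : IntermediateField.adjoin (ZMod p) {x} => (y : KB p)) h2
  simpa using h3

theorem mem_prime {x : KB p} (hx : x ^ p = x) : ∃ a : ZMod p, algebraMap (ZMod p) (KB p) a = x := by
  classical
  have h1 : univ.image (algebraMap (ZMod p) (KB p)) ⊆ Fx p 1 := by
    intro y hy
    obtain ⟨a, _, rfl⟩ := mem_image.1 hy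
    rw [mem_Fx le_rfl, ← map_pow, ZMod.pow_card_pow]
  have h2 : (univ.image (algebraMap (ZMod p) (KB p))).card = p := by
    rw [card_image_of_injective _ (algebraMap (ZMod p) (KB p)).injective, card_univ, ZMod.card]
  have h3 : univ.image (algebraMap (ZMod p) (KB p)) = Fx p 1 :=
    eq_of_subset_of_card_le h1 (by rw [h2, card_Fx le_rfl, pow_one])
  have h4 : x ∈ Fx p 1 := by
    rw [mem_Fx le_rfl, pow_one]
    exact hx
  rw [← h3, mem_image] at h4
  obtain ⟨a, _, ha⟩ := h4
  exact ⟨a, ha⟩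

theorem frob_shift {L : ℕ} {x : KB p} (hx : x ^ (p ^ L) = x) :
    (∑ s ∈ range L, x ^ (p ^ s)) ^ p = ∑ s ∈ range L, x ^ (p ^ s) := by
  have h1 := sum_pow_char_pow (R := KB p) p 1 (range L) fun s => x ^ (p ^ s)
  rw [pow_one] at h1
  rw [h1]
  have h2 : ∀ s ∈ range L, (x ^ (p ^ s)) ^ p = x ^ (p ^ (s + 1)) := fun s _ => by
    rw [← pow_mul, pow_succ]
  rw [sum_congr rfl h2]
  have h3 := sum_range_succ (fun s => x ^ (p ^ s)) L
  have h4 := sum_range_succ' (fun s => x ^ (p ^ s)) L
  rw [h3] at h4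
  simp only [pow_zero, pow_one] at h4
  rw [hx] at h4
  exact (add_right_cancel h4).symm

theorem exists_trace_one {L : ℕ} (hL : 1 ≤ L) : ∃ c : KB p, c ^ (p ^ L) = c ∧ ∑ s ∈ range L, c ^ (p ^ s) = 1 := by
  classical
  obtain ⟨c₀, hc₀, hT⟩ : ∃ c₀ ∈ Fx p L, ∑ s ∈ range L, c₀ ^ (p ^ s) ≠ 0 := by
    by_contra hcon
    push Not at hcon
    obtain ⟨P, hP⟩ : ∃ P : (KB p)[X], P = ∑ s ∈ range L, X ^ (p ^ s) := ⟨_, rfl⟩
    have hdeg : P.natDegree ≤ p ^ (L - 1) := by
      rw [hP]
      refine natDegree_sum_le_of_forall_le _ _ fun s hs => ?_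
      rw [natDegree_X_pow]
      exact Nat.pow_le_pow_right hp.out.pos (by have := mem_range.1 hs; omega)
    have hP0 : P ≠ 0 := by
      intro h
      have h1 : P.coeff (p ^ (L - 1)) = 1 := by
        rw [hP, finset_sum_coeff, sum_eq_single (L - 1)]
        · rw [coeff_X_pow, if_pos rfl]
        · intro s hs hsL
          rw [coeff_X_pow, if_neg]
          intro h
          exact hsL (Nat.pow_right_injective hp.out.two_le h).symm
        · intro h
          exact absurd (mem_range.2 (by omega)) h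
      rw [h, coeff_zero] at h1
      exact zero_ne_one h1
    have h1 : Fx p L ⊆ P.roots.toFinset := by
      intro x hx
      rw [Multiset.mem_toFinset, mem_roots hP0, IsRoot.def, hP, eval_finset_sum]
      simp only [eval_pow, eval_X]
      exact hcon x hx
    have h2 := card_le_card h1
    rw [card_Fx hL] at h2
    have h3 := (Multiset.toFinset_card_le P.roots).trans (P.card_roots'.trans hdeg)
    have h4 : p ^ (L - 1) < p ^ L := Nat.pow_lt_pow_right hp.out.one_lt (by omega)
    omega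
  rw [mem_Fx hL] at hc₀
  obtain ⟨τ, hτ⟩ : ∃ τ, τ = ∑ s ∈ range L, c₀ ^ (p ^ s) := ⟨_, rfl⟩
  rw [← hτ] at hT
  have hτp : τ ^ p = τ := by
    rw [hτ]
    exact frob_shift hc₀
  have hτs : ∀ s, τ ^ (p ^ s) = τ := by
    intro s
    have h1 := fix_mul (p := p) (e := 1) (x := τ) (by rw [pow_one]; exact hτp) s
    rwa [one_mul] at h1
  refine ⟨c₀ / τ, ?_, ?_⟩
  · rw [div_pow, hc₀, hτs]
  · have h1 : ∀ s ∈ range L, (c₀ / τ) ^ (p ^ s) = c₀ ^ (p ^ s) / τ := fun s _ => by
      rw [div_pow, hτs]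
    rw [sum_congr rfl h1, ← sum_div, ← hτ, div_self hT]

end field

/-! ### interpolation by forms -/

section interp

open Pool.Agent.Y722.HS (Mon mev mkMon mkMon_apply)

variable {n : ℕ}

/-- the exponent vector of a monomial -/
noncomputable def toFs {D : ℕ} (ν : Mon n D) : Fin (n + 1) →₀ ℕ :=
  Finsupp.equivFunOnFinite.symm (fun i => (ν.1 i : ℕ))

theorem toFs_inj {D : ℕ} : Function.Injective (toFs (n := n) (D := D)) := by
  intro μ ν h
  have h1 := Finsupp.equivFunOnFinite.symm.injective h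
  apply Subtype.ext
  funext i
  exact Fin.ext (congrFun h1 i)

/-- the value of a form, by its coefficients -/
theorem eval_hom {D : ℕ} {R : Type*} [CommRing R] (P : MvPolynomial (Fin (n + 1)) R)
    (hP : P.IsHomogeneous D) (x : Fin (n + 1) → R) :
    MvPolynomial.eval x P = ∑ ν : Mon n D, P.coeff (toFs ν) * mev x ν := by
  classical
  rw [MvPolynomial.eval_eq']
  have h1 : ∀ ν : Mon n D, P.coeff (toFs ν) * mev x ν =
      (fun m : Fin (n + 1) →₀ ℕ => P.coeff m * ∏ i, x i ^ m i) (toFs ν) := by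
    intro ν
    simp [mev, toFs]
  rw [Finset.sum_congr rfl fun ν _ => h1 ν, ← Finset.sum_image (s := Finset.univ)
    (f := fun m : Fin (n + 1) →₀ ℕ => P.coeff m * ∏ i, x i ^ m i)
    (g := toFs (n := n) (D := D)) (fun a _ b _ h => toFs_inj h)]
  apply Finset.sum_subset
  · intro m hm
    rw [Finset.mem_image]
    have h2 : ∑ i, m i = D := by
      have h3 := hP (MvPolynomial.mem_support_iff.mp hm)
      rw [Finsupp.weight_apply, Finsupp.sum_fintype _ _ (fun i => by simp)] at h3
      simpa using h3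
    refine ⟨mkMon (fun i => m i) h2, Finset.mem_univ _, ?_⟩
    ext i
    simp [toFs]
  · intro m _ hm
    rw [MvPolynomial.notMem_support_iff.mp hm]
    simp

variable {k : Type} [Field k]

/-- normalised coordinate vectors -/
def Nv (n : ℕ) (k : Type) [Field k] : Set (Fin (n + 1) → k) := {v | ∃ i, v i = 1 ∧ ∀ j < i, v j = 0}

theorem Nv.ne {v w : Fin (n + 1) → k} (hv : v ∈ Nv n k) (hw : w ∈ Nv n k) (h : v ≠ w) :
    ∃ i j, v i * w j ≠ v j * w i := by
  by_contra hcon
  push Not at hcon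
  obtain ⟨a, ha1, ha2⟩ := hv
  obtain ⟨b, hb1, hb2⟩ := hw
  apply h
  have hab : a = b := by
    rcases lt_trichotomy a b with hlt | heq | hgt
    · have h1 := hcon a b
      rw [ha1, hb1, hb2 a hlt] at h1
      simp at h1
    · exact heq
    · have h1 := hcon a b
      rw [ha1, hb1, ha2 b hgt] at h1
      simp at h1
  subst hab
  funext i
  have h1 := hcon i a
  rw [ha1, hb1, mul_one, one_mul] at h1
  exact h1

theorem interp_one {D : ℕ} (a : Fin (n + 1) → k) (ha : a ∈ Nv n k) (T : Finset (Fin (n + 1) → k))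
    (hN : ∀ v ∈ T, v ∈ Nv n k) (hT : T.card ≤ D) (haT : a ∉ T) :
    ∃ c : Mon n D → k, ∑ ν, c ν * mev a ν = 1 ∧ ∀ t ∈ T, ∑ ν, c ν * mev t ν = 0 := by
  classical
  have hne : ∀ t : T, ∃ i j, a i * t.1 j ≠ a j * t.1 i := fun t =>
    Nv.ne ha (hN t t.2) fun h => haT (h ▸ t.2)
  choose i j hij using hne
  obtain ⟨k₀, hk₀, -⟩ := ha
  obtain ⟨P, hP⟩ : ∃ P : MvPolynomial (Fin (n + 1)) k, P = (∏ t : T, (MvPolynomial.C (t.1 (j t)) * MvPolynomial.X (i t) -
    MvPolynomial.C (t.1 (i t)) * MvPolynomial.X (j t))) * MvPolynomial.X k₀ ^ (D - T.card) := ⟨_, rfl⟩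
  have hhom : P.IsHomogeneous D := by
    have h1 : (∏ t : T, (MvPolynomial.C (t.1 (j t)) * MvPolynomial.X (i t) -
        MvPolynomial.C (t.1 (i t)) * MvPolynomial.X (j t)) : MvPolynomial (Fin (n + 1)) k).IsHomogeneous (∑ _t : T, 1) := by
      refine MvPolynomial.IsHomogeneous.prod _ _ _ fun t _ => ?_
      refine MvPolynomial.IsHomogeneous.sub ?_ ?_
      · exact MvPolynomial.isHomogeneous_C_mul_X _ _
      · exact MvPolynomial.isHomogeneous_C_mul_X _ _
    have h2 := h1.mul (MvPolynomial.isHomogeneous_X_pow (R := k) k₀ (D - T.card))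
    rw [hP]
    have h3 : (∑ _t : T, 1) + (D - T.card) = D := by
      rw [sum_const, card_univ, Fintype.card_coe, smul_eq_mul, mul_one]
      omega
    rwa [h3] at h2
  obtain ⟨z, hz⟩ : ∃ z, z = MvPolynomial.eval a P := ⟨_, rfl⟩
  have hz0 : z ≠ 0 := by
    rw [hz, hP, map_mul, map_prod, map_pow, MvPolynomial.eval_X, hk₀, one_pow, mul_one]
    refine prod_ne_zero_iff.2 fun t _ => ?_
    rw [map_sub, map_mul, map_mul, MvPolynomial.eval_C, MvPolynomial.eval_C, MvPolynomial.eval_X, MvPolynomial.eval_X, sub_ne_zero]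
    intro h
    apply hij t
    rw [mul_comm, h, mul_comm]
  refine ⟨fun ν => z⁻¹ * P.coeff (toFs ν), ?_, fun t ht => ?_⟩
  · have h1 := eval_hom P hhom a
    rw [← hz] at h1
    simp only [mul_assoc]
    rw [← mul_sum, ← h1, inv_mul_cancel₀ hz0]
  · simp only [mul_assoc]
    rw [← mul_sum, ← eval_hom P hhom, hP, map_mul, map_prod]
    rw [prod_eq_zero (mem_univ (⟨t, ht⟩ : T)), zero_mul, mul_zero]
    rw [map_sub, map_mul, map_mul, MvPolynomial.eval_C, MvPolynomial.eval_C, MvPolynomial.eval_X, MvPolynomial.eval_X]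
    ring

theorem interp {D : ℕ} (T : Finset (Fin (n + 1) → k)) (hN : ∀ v ∈ T, v ∈ Nv n k) (hT : T.card ≤ D + 1)
    (b : (Fin (n + 1) → k) → k) : ∃ c : Mon n D → k, ∀ t ∈ T, ∑ ν, c ν * mev t ν = b t := by
  classical
  have h1 : ∀ a : T, ∃ c : Mon n D → k, ∑ ν, c ν * mev (a : Fin (n + 1) → k) ν = 1 ∧
      ∀ t ∈ T.erase a, ∑ ν, c ν * mev t ν = 0 := fun a =>
    interp_one a (hN a a.2) (T.erase a) (fun v hv => hN v (mem_of_mem_erase hv))
      (by rw [card_erase_of_mem a.2]; omega) (notMem_erase _ _)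
  choose c hc1 hc2 using h1
  refine ⟨fun ν => ∑ a : T, b a * c a ν, fun t ht => ?_⟩
  have h2 : ∑ ν, (∑ a : T, b a * c a ν) * mev t ν = ∑ a : T, b a * ∑ ν, c a ν * mev t ν := by
    simp only [sum_mul, mul_sum]
    rw [sum_comm]
    exact sum_congr rfl fun a _ => sum_congr rfl fun ν _ => by ring
  rw [h2, sum_eq_single (⟨t, ht⟩ : T)]
  · rw [hc1, mul_one]
  · intro a _ ha
    rw [hc2 a t (mem_erase.2 ⟨fun h => ha (Subtype.ext h.symm), ht⟩), mul_zero]
  · intro h
    exact absurd (mem_univ _) h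

end interp

end Run7.h3.ST
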