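import Pool.Agent.Run7.h3.ST.Trc

set_option autoImplicit false
set_option linter.unusedSectionVars false
set_option linter.unusedVariables false

/-! The moments of the normalised sums over orbits of one degree. -/

namespace Run7.h3.ST

open Finset
open Pool.Agent.Y722.HS (Mon mev)
open Q282.CL
open Q282MM (gm)

section

variable {p : ℕ} [hp : Fact p.Prime] {n : ℕ} {W : (Fin (n + 1) → KB p) → Prop} {d B : ℕ} {C₀ : ℝ}

/-- the normalised centred sum over the orbits of degree `e` -/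
noncomputable def GG (W : (Fin (n + 1) → KB p) → Prop) (d : ℕ) {D : ℕ} (e : ℕ) (c : Mon n D → ZMod p) : ℝ :=
  Real.sqrt e * cs (fun (v : Fin (n + 1) → KB p) (c : Mon n D → ZMod p) => Xi v c) (AA W e) (1 / (p : ℝ) ^ e) c / sp p d ^ e

/-- the normalised trace of the `j`-th power of Frobenius -/
noncomputable def tau (W : (Fin (n + 1) → KB p) → Prop) (d : ℕ) (b : ℕ → ℝ) {D : ℕ} (j : ℕ) (c : Mon n D → ZMod p) : ℝ :=
  (∑ v ∈ VW W j, Xi v c - b j) / sp p d ^ j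

theorem tau_eq (hW : Stab W) {b : ℕ → ℝ} {D : ℕ} {j : ℕ} (hj : 1 ≤ j) (c : Mon n D → ZMod p) :
    tau W d b j c = ∑ e ∈ j.divisors, (Real.sqrt e * sp p d ^ e / sp p d ^ j) * GG W d e c + Mj W d b j := by
  have hs0 := sp_pos (p := p) (n := d)
  unfold tau Mj
  rw [← sub_add_cancel (∑ v ∈ VW W j, Xi v c) (∑ e ∈ j.divisors, ((QQ W e).card : ℝ) / (p : ℝ) ^ e), add_sub_assoc, add_div]
  congr 1
  rw [sum_VW hj, ← sum_sub_distrib, sum_div]
  refine sum_congr rfl fun e he => ?_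
  have he1 : 1 ≤ e := Nat.pos_of_mem_divisors he
  rw [sum_QQ hW he1 _ (fun v s => Xi_Fr c v s), card_QQ hW he1]
  have hse : 0 < sp p d ^ e := pow_pos hs0 _
  have hsq : Real.sqrt e * Real.sqrt e = e := Real.mul_self_sqrt (Nat.cast_nonneg _)
  have h1 : cs (fun (v : Fin (n + 1) → KB p) (c : Mon n D → ZMod p) => Xi v c) (AA W e) (1 / (p : ℝ) ^ e) c =
      ∑ a ∈ AA W e, Xi a c - (AA W e).card * (1 / (p : ℝ) ^ e) := by
    unfold cs
    rw [sum_sub_distrib, sum_const, nsmul_eq_mul]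
  unfold GG
  have h2 : Real.sqrt e * sp p d ^ e / sp p d ^ j * (Real.sqrt e *
      cs (fun (v : Fin (n + 1) → KB p) (c : Mon n D → ZMod p) => Xi v c) (AA W e) (1 / (p : ℝ) ^ e) c / sp p d ^ e) =
      (Real.sqrt e * Real.sqrt e) * cs (fun (v : Fin (n + 1) → KB p) (c : Mon n D → ZMod p) => Xi v c) (AA W e) (1 / (p : ℝ) ^ e) c / sp p d ^ j := by
    field_simp
  rw [h2, hsq, h1]
  congr 1
  ring

theorem pow_near (h : ℕ) {x K : ℝ} (hx : 0 ≤ x) (hxK : x ≤ K) (hK : 1 ≤ K) : |x ^ h - 1| ≤ h * K ^ h * |x - 1| := by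
  induction h with
  | zero => simp
  | succ h ih =>
    have h1 : x ^ (h + 1) - 1 = x * (x ^ h - 1) + (x - 1) := by ring
    rw [h1]
    refine (abs_add_le _ _).trans ?_
    rw [abs_mul, abs_of_nonneg hx]
    have h2 : x * |x ^ h - 1| ≤ K * (h * K ^ h * |x - 1|) := mul_le_mul hxK ih (abs_nonneg _) (by linarith)
    have h3 : (1 : ℝ) ≤ K ^ (h + 1) := one_le_pow₀ hK
    have h4 : |x - 1| ≤ K ^ (h + 1) * |x - 1| := le_mul_of_one_le_left (abs_nonneg _) h3
    push_cast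
    calc x * |x ^ h - 1| + |x - 1| ≤ K * (h * K ^ h * |x - 1|) + K ^ (h + 1) * |x - 1| := add_le_add h2 h4
      _ = (h + 1) * K ^ (h + 1) * |x - 1| := by ring

end

theorem gg_mom (n d D B e b : ℕ) (C₀ : ℝ) (hC₀ : 0 ≤ C₀) (hd : 2 ≤ d) (he : e ∈ Icc 1 B) (hb : e * b ≤ D + 1) :
    ∃ C : ℝ, 0 ≤ C ∧ ∀ (p : ℕ) [Fact p.Prime] (W : (Fin (n + 1) → KB p) → Prop), Sz W d B C₀ →
      |av (fun c : Mon n D → ZMod p => GG W d e c ^ b) - (gm b : ℝ)| ≤ C * ep p := by
  classical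
  obtain ⟨C, hC1, hC⟩ := mom_near b
  have he1 := (mem_Icc.1 he).1
  obtain ⟨A, hA⟩ : ∃ A, A = 1 + C₀ := ⟨_, rfl⟩
  have hn1 : (1 : ℝ) ≤ A := by linarith
  have he0 : (0 : ℝ) ≤ e := Nat.cast_nonneg _
  refine ⟨Real.sqrt e ^ b * (C * A ^ (b - 1)) + (gm b) * ((b / 2 : ℕ) * A ^ (b / 2) * ((C₀ + e * A) + 1)), by positivity,
    fun p hp W hW => ?_⟩
  have hep := ep_pos (p := p)
  rcases Nat.eq_zero_or_pos b with rfl | hb1
  · simp only [pow_zero]
    rw [av_const, gm_zero, Nat.cast_one, sub_self, abs_zero]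
    positivity
  have hp1 := one_le_p (p := p)
  have hs1 := one_le_sp (p := p) (n := d)
  have hs0 := sp_pos (p := p) (n := d)
  have hse : 0 < sp p d ^ e := pow_pos hs0 _
  have hpe1 : (1 : ℝ) ≤ (p : ℝ) ^ e := one_le_pow₀ hp1
  have hpe0 : (0 : ℝ) < (p : ℝ) ^ e := by positivity
  obtain ⟨s, hs⟩ : ∃ s, s = sp p d ^ e := ⟨_, rfl⟩
  have hs1' : 1 ≤ s := by rw [hs]; exact one_le_pow₀ hs1
  have hs0' : 0 < s := by linarith
  obtain ⟨q, hq⟩ : ∃ q, q = (p : ℝ) ^ e := ⟨_, rfl⟩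
  obtain ⟨N, hN⟩ : ∃ N : ℝ, N = (AA W e).card := ⟨_, rfl⟩
  have hN0 : 0 ≤ N := by rw [hN]; positivity
  have hen : ((p : ℝ) ^ e) ^ d = q * s ^ 2 := by
    rw [hs, sp_pow_sq, hq, ← pow_succ', Nat.sub_add_cancel (by omega)]
  have hQ := card_QQ hW.stab he1
  have hQN : ((QQ W e).card : ℝ) = e * N := by rw [hQ, hN]
  have hNle : (e : ℝ) * N ≤ A * (q * s ^ 2) := by
    rw [← hQN, ← hen, hA]
    exact qq_le hW hC₀ he
  have he1' : (1 : ℝ) ≤ e := by exact_mod_cast he1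
  have hNle' : N ≤ A * (q * s ^ 2) := le_trans (le_mul_of_one_le_left hN0 he1') hNle
  have hq1 : 1 ≤ q := by rw [hq]; exact hpe1
  have hq0 : 0 < q := by linarith
  have hqi : 1 / q ≤ 1 := by rw [div_le_one hq0]; exact hq1
  have hqi0 : 0 < 1 / q := by positivity
  obtain ⟨σ, hσ⟩ : ∃ σ, σ = 1 / q * (1 - 1 / q) := ⟨_, rfl⟩
  have hσ0 : 0 ≤ σ := by rw [hσ]; exact mul_nonneg hqi0.le (by linarith)
  have hσq : σ ≤ 1 / q := by rw [hσ]; nlinarith
  have hr1 : 1 ≤ A * s := by nlinarith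
  have hI := ind_Om (W := W) (D := D) e
  have hsub : AA W e ⊆ Om W e := fun v hv => mem_Om.2 ⟨e, mem_Icc.2 ⟨he1, le_rfl⟩, hv⟩
  have h1 : ((AA W e).card : ℝ) * σ ≤ (A * s) ^ 2 := by
    rw [← hN]
    calc N * σ ≤ (A * (q * s ^ 2)) * (1 / q) := mul_le_mul hNle' hσq hσ0 (by positivity)
      _ = A * s ^ 2 := by field_simp
      _ ≤ (A * s) ^ 2 := by
          rw [mul_pow]
          have : A ≤ A ^ 2 := by nlinarith
          exact mul_le_mul_of_nonneg_right this (sq_nonneg _)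
  have h2 : ((AA W e).card : ℝ) ≤ q * (A * s) ^ 2 := by
    rw [← hN]
    refine hNle'.trans ?_
    rw [mul_pow]
    have h3 : A ≤ A ^ 2 := by nlinarith
    calc A * (q * s ^ 2) ≤ A ^ 2 * (q * s ^ 2) := mul_le_mul_of_nonneg_right h3 (by positivity)
      _ = q * (A ^ 2 * s ^ 2) := by ring
  have h3 := hC (Fin (n + 1) → KB p) (Mon n D → ZMod p) (fun v c => Xi v c) (fun v => 1 / (p : ℝ) ^ dg v) dg (Om W e) (D + 1) e q (A * s) σ
    hI hq1 hr1 hσ (AA W e) hsub (fun v hv => ⟨by rw [AA_dg he1 hv, hq], AA_dg he1 hv⟩) h1 h2 b le_rfl hb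
  -- the normalisation
  have h4 : (fun c : Mon n D → ZMod p => GG W d e c ^ b) = fun c => (Real.sqrt e ^ b / s ^ b) *
      cs (fun (v : Fin (n + 1) → KB p) (c : Mon n D → ZMod p) => Xi v c) (AA W e) (1 / q) c ^ b := by
    funext c
    unfold GG
    rw [← hs, ← hq, div_pow, mul_pow]
    ring
  rw [h4, Q282.CL.av_mul]
  obtain ⟨Z, hZ⟩ : ∃ Z, Z = av (fun c : Mon n D → ZMod p => cs (fun (v : Fin (n + 1) → KB p) (c : Mon n D → ZMod p) => Xi v c) (AA W e) (1 / q) c ^ b) := ⟨_, rfl⟩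
  rw [← hZ] at h3 ⊢
  rw [← hN] at h3
  have hse0 : 0 ≤ Real.sqrt e := Real.sqrt_nonneg _
  have hsi : 1 / s ≤ ep p := by
    refine le_trans (div_le_div_of_nonneg_left zero_le_one hs0 ?_) (inv_sp_le (p := p) hd)
    rw [hs]
    exact le_self_pow₀ hs1 (by omega)
  have h5 : |Real.sqrt e ^ b / s ^ b * Z - Real.sqrt e ^ b / s ^ b * ((gm b : ℝ) * (N * σ) ^ (b / 2))| ≤ Real.sqrt e ^ b * (C * A ^ (b - 1)) * ep p := by
    rw [← mul_sub, abs_mul, abs_of_nonneg (by positivity)]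
    calc Real.sqrt e ^ b / s ^ b * |Z - (gm b : ℝ) * (N * σ) ^ (b / 2)| ≤ Real.sqrt e ^ b / s ^ b * (C * (A * s) ^ (b - 1)) :=
          mul_le_mul_of_nonneg_left h3 (by positivity)
      _ = Real.sqrt e ^ b * (C * A ^ (b - 1)) * (1 / s) := by
          obtain ⟨b', rfl⟩ : ∃ b', b = b' + 1 := ⟨b - 1, by omega⟩
          rw [Nat.add_sub_cancel, mul_pow, pow_succ s]
          field_simp
      _ ≤ Real.sqrt e ^ b * (C * A ^ (b - 1)) * ep p := mul_le_mul_of_nonneg_left hsi (by positivity)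
  have h6 : |Real.sqrt e ^ b / s ^ b * ((gm b : ℝ) * (N * σ) ^ (b / 2)) - gm b| ≤
      (gm b) * ((b / 2 : ℕ) * A ^ (b / 2) * ((C₀ + e * A) + 1)) * ep p := by
    by_cases hev : Even b
    · obtain ⟨h, hh⟩ := hev
      have hb2 : b = 2 * h := by omega
      have hbh : b / 2 = h := by omega
      rw [hbh]
      obtain ⟨x, hx⟩ : ∃ x, x = e * N * σ / s ^ 2 := ⟨_, rfl⟩
      have h7 : Real.sqrt e ^ b / s ^ b * ((gm b : ℝ) * (N * σ) ^ h) = gm b * x ^ h := by
        rw [hb2, pow_mul, pow_mul, Real.sq_sqrt he0, hx, div_pow, mul_pow (e * N), mul_pow (e : ℝ), mul_pow N]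
        ring
      have hx' : x = e * N / (q * s ^ 2) * (1 - 1 / q) := by
        rw [hx, hσ]
        field_simp
      have hx0 : 0 ≤ x := by rw [hx]; positivity
      have hxn : x ≤ A := by
        rw [hx']
        have h8 : e * N / (q * s ^ 2) ≤ A := by
          rw [div_le_iff₀ (by positivity)]
          exact hNle
        calc e * N / (q * s ^ 2) * (1 - 1 / q) ≤ A * 1 := mul_le_mul h8 (by linarith) (by linarith) (by linarith)
          _ = A := mul_one _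
      have h9 : |x - 1| ≤ ((C₀ + e * A) + 1) * ep p := by
        have h10 := qq_near hW hC₀ (by omega) he
        rw [hQN, hen, ← hA] at h10
        obtain ⟨y, hy⟩ : ∃ y, y = e * N / (q * s ^ 2) := ⟨_, rfl⟩
        rw [hx', ← hy]
        rw [← hy] at h10
        have h11 : y * (1 - 1 / q) - 1 = (y - 1) * (1 - 1 / q) - 1 / q := by ring
        rw [h11]
        have h12 := abs_sub ((y - 1) * (1 - 1 / q)) (1 / q)
        rw [abs_mul, abs_of_nonneg (by linarith : 0 ≤ 1 - 1 / q), abs_of_pos hqi0] at h12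
        have h13 : |y - 1| * (1 - 1 / q) ≤ |y - 1| * 1 := mul_le_mul_of_nonneg_left (by linarith) (abs_nonneg _)
        have h14 : 1 / q ≤ ep p := by
          refine le_trans (div_le_div_of_nonneg_left zero_le_one p_pos ?_) (inv_p_le (p := p))
          rw [hq]
          exact le_self_pow₀ hp1 (by omega)
        linarith
      rw [h7]
      have h15 : (gm b : ℝ) * x ^ h - gm b = gm b * (x ^ h - 1) := by ring
      rw [h15, abs_mul, abs_of_nonneg (Nat.cast_nonneg _), mul_assoc]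
      refine mul_le_mul_of_nonneg_left ?_ (Nat.cast_nonneg _)
      refine (pow_near h hx0 hxn hn1).trans ?_
      rw [mul_assoc _ _ (ep p)]
      exact mul_le_mul_of_nonneg_left h9 (by positivity)
    · rw [gm_odd hev]
      simp
  have h7 := abs_sub_le (Real.sqrt e ^ b / s ^ b * Z) (Real.sqrt e ^ b / s ^ b * ((gm b : ℝ) * (N * σ) ^ (b / 2))) (gm b)
  rw [add_mul]
  linarith

end Run7.h3.ST
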