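import Pool.Agent.Run7.h3.ST.Rm

set_option autoImplicit false
set_option linter.unusedSectionVars false
set_option linter.unusedVariables false

/-! A law of large numbers for functions of the reductions of a random integer vector: the theorem. -/

namespace Run7.h3.ST

open Finset
open Q282.CL

theorem geo {r : ℝ} (hr0 : 0 < r) (hr1 : r < 1) : Summable fun k : ℕ => ((k : ℝ) + 1) ^ 2 * r ^ k := by
  have h1 : Summable fun n : ℕ => (n : ℝ) ^ 2 * r ^ n :=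
    summable_pow_mul_geometric_of_norm_lt_one 2 (by rw [Real.norm_eq_abs, abs_of_pos hr0]; exact hr1)
  have h2 := ((summable_nat_add_iff 1).2 h1).mul_left (1 / r)
  refine h2.congr fun k => ?_
  push_cast
  field_simp
  ring

section

variable {κ : Type} [Fintype κ] [DecidableEq κ]

theorem law {X : (p : ℕ) → (κ → ZMod p) → ℝ} {C₀ : ℝ} (hC₀ : 0 ≤ C₀)
    (hX1 : ∀ (p : ℕ) [Fact p.Prime], |av (X p)| ≤ C₀ * ep p) (hX2 : ∀ (p : ℕ) [Fact p.Prime], av (fun c => X p c ^ 2) ≤ C₀ ^ 2)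
    {ε : ℝ} (hε : 0 < ε) (hε1 : ε ≤ 1) : ∃ C : ℝ, 0 ≤ C ∧ ∀ (w : ℕ → ℝ), (∀ p, |w p| ≤ 1) → ∀ (N : κ → ℤ) (L : κ → ℕ) (T : ℝ), (∀ i, T ≤ L i) →
      ∀ X₀ : ℕ, 1 ≤ X₀ → ∃ E ⊆ bx N L, (E.card : ℝ) ≤ C * (X₀ : ℝ) ^ (-(ε / 2)) * ∏ i, (L i : ℝ) ∧
        ∀ t ∈ bx N L, t ∉ E → ∀ Y Y' : ℕ, Y ≤ Y' → X₀ ≤ Y' → 8 * (Y' : ℝ) ^ 3 ≤ T →
          |∑ i ∈ Ico Y Y', ff X w t i| ≤ 4 * (Y' : ℝ) ^ (1 / 2 + ε / 2) := by
  classical
  obtain ⟨r, hr⟩ : ∃ r : ℝ, r = (2 : ℝ) ^ (-(ε / 2)) := ⟨_, rfl⟩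
  have hr0 : 0 < r := by rw [hr]; positivity
  have hr1 : r < 1 := by rw [hr]; exact Real.rpow_lt_one_of_one_lt_of_neg (by norm_num) (by linarith)
  have hsum := geo hr0 hr1
  obtain ⟨S, hS⟩ : ∃ S : ℝ, S = ∑' k : ℕ, ((k : ℝ) + 1) ^ 2 * r ^ k := ⟨_, rfl⟩
  have hS0 : 0 ≤ S := by rw [hS]; exact tsum_nonneg fun k => by positivity
  obtain ⟨C₁, hC₁⟩ : ∃ C₁ : ℝ, C₁ = C₀ ^ 2 * (5 + 2 * 3 ^ Fintype.card κ) := ⟨_, rfl⟩
  have hC₁0 : 0 ≤ C₁ := by rw [hC₁]; positivity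
  refine ⟨C₁ * S, mul_nonneg hC₁0 hS0, fun w hw N L T hT X₀ hX₀ => ?_⟩
  have hP : 0 ≤ ∏ l, (L l : ℝ) := prod_nonneg fun l _ => Nat.cast_nonneg _
  obtain ⟨lam, hlam⟩ : ∃ lam : ℕ → ℝ, lam = fun k => ((2 : ℝ) ^ k) ^ (1 / 2 + ε / 2) := ⟨_, rfl⟩
  have hlam0 : ∀ k, 0 < lam k := fun k => by rw [hlam]; positivity
  obtain ⟨B, hB⟩ : ∃ B : ℕ → Finset (κ → ℤ), B = fun k => (bx N L).filter fun t => ∃ Y ≤ 2 ^ k, lam k < |∑ i ∈ range Y, ff X w t i| := ⟨_, rfl⟩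
  have hX₀r : (1 : ℝ) ≤ X₀ := by exact_mod_cast hX₀
  -- each scale
  have hBk : ∀ k : ℕ, X₀ ≤ 2 ^ k → ((2 : ℝ) ^ k) ^ 3 ≤ T → ((B k).card : ℝ) ≤
      C₁ * (X₀ : ℝ) ^ (-(ε / 2)) * (∏ i, (L i : ℝ)) * (((k : ℝ) + 1) ^ 2 * r ^ k) := by
    intro k hk1 hk2
    have h1 : ∑ t ∈ bx N L, EE (ff X w t) k 0 ≤ ((∏ l, (L l : ℝ)) * C₁) * ((k + 1) * 2 ^ k) := by
      refine sum_EE (bx N L) (ff X w) k 0 fun b Y hb => ?_
      rw [zero_add] at hb
      rw [hC₁]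
      exact second hC₀ hX1 hX2 hw N L hT (R := 2 ^ k) Nat.one_le_two_pow (by push_cast; exact hk2) b Y hb
    have h2 : ((B k).card : ℝ) * lam k ^ 2 ≤ ((k : ℝ) + 1) * (((∏ l, (L l : ℝ)) * C₁) * ((k + 1) * 2 ^ k)) := by
      calc ((B k).card : ℝ) * lam k ^ 2 = ∑ t ∈ B k, lam k ^ 2 := by rw [sum_const, nsmul_eq_mul]
        _ ≤ ∑ t ∈ B k, ((k : ℝ) + 1) * EE (ff X w t) k 0 := by
            refine sum_le_sum fun t ht => ?_
            rw [hB] at ht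
            obtain ⟨_, Y, hY, hlt⟩ := mem_filter.1 ht
            have h3 := rm (ff X w t) k 0 Y hY
            simp only [zero_add] at h3
            refine le_trans ?_ h3
            rw [← sq_abs (∑ i ∈ range Y, ff X w t i)]
            exact pow_le_pow_left₀ (hlam0 k).le hlt.le 2
        _ ≤ ∑ t ∈ bx N L, ((k : ℝ) + 1) * EE (ff X w t) k 0 := by
            refine sum_le_sum_of_subset_of_nonneg ?_ fun t _ _ => ?_
            · rw [hB]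
              exact filter_subset _ _
            · have := EE_nonneg (ff X w t) k 0
              positivity
        _ = ((k : ℝ) + 1) * ∑ t ∈ bx N L, EE (ff X w t) k 0 := by rw [mul_sum]
        _ ≤ _ := mul_le_mul_of_nonneg_left h1 (by positivity)
    have h3 : lam k ^ 2 = 2 ^ k * (((2 : ℝ) ^ k) ^ (ε / 2) * ((2 : ℝ) ^ k) ^ (ε / 2)) := by
      rw [hlam]
      simp only
      rw [sq, ← Real.rpow_add (by positivity), ← Real.rpow_add (by positivity)]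
      nth_rewrite 2 [← Real.rpow_one ((2 : ℝ) ^ k)]
      rw [← Real.rpow_add (by positivity)]
      congr 1
      ring
    have h4 : ((2 : ℝ) ^ k) ^ (-(ε / 2)) = r ^ k := by
      rw [hr, ← Real.rpow_natCast, ← Real.rpow_natCast, ← Real.rpow_mul (by norm_num), ← Real.rpow_mul (by norm_num), mul_comm]
    have h5 : ((2 : ℝ) ^ k) ^ (-(ε / 2)) ≤ (X₀ : ℝ) ^ (-(ε / 2)) := by
      refine Real.rpow_le_rpow_of_nonpos (by linarith) ?_ (by linarith)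
      exact_mod_cast hk1
    have h6 : ((2 : ℝ) ^ k) ^ (ε / 2) * ((2 : ℝ) ^ k) ^ (-(ε / 2)) = 1 := by
      rw [← Real.rpow_add (by positivity), add_neg_cancel, Real.rpow_zero]
    obtain ⟨u, hu⟩ : ∃ u, u = ((2 : ℝ) ^ k) ^ (ε / 2) := ⟨_, rfl⟩
    obtain ⟨v, hv⟩ : ∃ v, v = ((2 : ℝ) ^ k) ^ (-(ε / 2)) := ⟨_, rfl⟩
    have hu0 : 0 < u := by rw [hu]; positivity
    have hv0 : 0 < v := by rw [hv]; positivity
    rw [← hu] at h3 h6
    rw [← hv] at h4 h5 h6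
    rw [h3] at h2
    have h7 : ((B k).card : ℝ) * (u * u) ≤ ((k : ℝ) + 1) ^ 2 * ((∏ l, (L l : ℝ)) * C₁) := by
      have h8 : (0 : ℝ) < 2 ^ k := by positivity
      have h9 : 2 ^ k * (((B k).card : ℝ) * (u * u)) ≤ 2 ^ k * (((k : ℝ) + 1) ^ 2 * ((∏ l, (L l : ℝ)) * C₁)) := by
        calc 2 ^ k * (((B k).card : ℝ) * (u * u)) = ((B k).card : ℝ) * (2 ^ k * (u * u)) := by ring
          _ ≤ _ := h2
          _ = _ := by ring
      exact le_of_mul_le_mul_left h9 h8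
    have h8 : ((B k).card : ℝ) ≤ ((k : ℝ) + 1) ^ 2 * ((∏ l, (L l : ℝ)) * C₁) * (v * v) := by
      calc ((B k).card : ℝ) = ((B k).card : ℝ) * (u * u) * (v * v) := by
            have : u * v * (u * v) = 1 := by rw [h6, one_mul]
            calc ((B k).card : ℝ) = ((B k).card : ℝ) * (u * v * (u * v)) := by rw [this, mul_one]
              _ = _ := by ring
        _ ≤ _ := mul_le_mul_of_nonneg_right h7 (by positivity)
    refine h8.trans ?_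
    have h9 : v * v ≤ (X₀ : ℝ) ^ (-(ε / 2)) * r ^ k := by
      rw [← h4]
      exact mul_le_mul_of_nonneg_right h5 hv0.le
    calc ((k : ℝ) + 1) ^ 2 * ((∏ l, (L l : ℝ)) * C₁) * (v * v) ≤ ((k : ℝ) + 1) ^ 2 * ((∏ l, (L l : ℝ)) * C₁) * ((X₀ : ℝ) ^ (-(ε / 2)) * r ^ k) :=
          mul_le_mul_of_nonneg_left h9 (by positivity)
      _ = _ := by ring
  obtain ⟨Ks, hKs⟩ : ∃ Ks : Finset ℕ, Ks = (range (⌈T⌉₊ + 1)).filter fun k => X₀ ≤ 2 ^ k ∧ ((2 : ℝ) ^ k) ^ 3 ≤ T := ⟨_, rfl⟩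
  refine ⟨Ks.biUnion B, ?_, ?_, ?_⟩
  · refine biUnion_subset.2 fun k _ => ?_
    rw [hB]
    exact filter_subset _ _
  · have h1 : ((Ks.biUnion B).card : ℝ) ≤ ∑ k ∈ Ks, ((B k).card : ℝ) := by exact_mod_cast card_biUnion_le
    refine h1.trans ?_
    have h2 : ∀ k ∈ Ks, ((B k).card : ℝ) ≤ C₁ * (X₀ : ℝ) ^ (-(ε / 2)) * (∏ i, (L i : ℝ)) * (((k : ℝ) + 1) ^ 2 * r ^ k) := by
      intro k hk
      rw [hKs] at hk
      have h3 := (mem_filter.1 hk).2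
      exact hBk k h3.1 h3.2
    refine (sum_le_sum h2).trans ?_
    rw [← mul_sum]
    have h3 : ∑ k ∈ Ks, ((k : ℝ) + 1) ^ 2 * r ^ k ≤ S := by
      rw [hS]
      exact hsum.sum_le_tsum _ fun k _ => by positivity
    calc _ ≤ C₁ * (X₀ : ℝ) ^ (-(ε / 2)) * (∏ i, (L i : ℝ)) * S := mul_le_mul_of_nonneg_left h3 (by positivity)
      _ = _ := by ring
  · intro t ht htE Y Y' hYY hXY hYT
    have hY'1 : 1 ≤ Y' := hX₀.trans hXY
    have hY'r : (1 : ℝ) ≤ Y' := by exact_mod_cast hY'1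
    obtain ⟨k, hk⟩ : ∃ k, k = Nat.clog 2 Y' := ⟨_, rfl⟩
    have hk1 : Y' ≤ 2 ^ k := by rw [hk]; exact Nat.le_pow_clog (by norm_num) _
    have hk2 : (2 : ℝ) ^ k ≤ 2 * Y' := by
      rcases Nat.lt_or_ge 1 Y' with h | h
      · have h1 : 2 ^ (Nat.clog 2 Y').pred < Y' := Nat.pow_pred_clog_lt_self (by norm_num) h
        have h2 : 0 < k := by rw [hk]; exact Nat.clog_pos (by norm_num) h
        rw [← hk] at h1
        obtain ⟨k', rfl⟩ : ∃ k', k = k' + 1 := ⟨k - 1, by omega⟩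
        have h3 : (k' + 1).pred = k' := rfl
        rw [h3] at h1
        have h4 : 2 ^ (k' + 1) ≤ 2 * Y' := by rw [pow_succ]; omega
        exact_mod_cast h4
      · have : Y' = 1 := by omega
        subst this
        rw [hk]
        norm_num
    have hk3 : ((2 : ℝ) ^ k) ^ 3 ≤ T := by
      refine le_trans (pow_le_pow_left₀ (by positivity) hk2 3) (le_trans (le_of_eq ?_) hYT)
      ring
    have hkK : k ∈ Ks := by
      rw [hKs, mem_filter, mem_range]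
      refine ⟨?_, hXY.trans hk1, hk3⟩
      have h1 : (k : ℝ) < 2 ^ k := by exact_mod_cast Nat.lt_two_pow_self
      have h2 : (2 : ℝ) ^ k ≤ ((2 : ℝ) ^ k) ^ 3 := le_self_pow₀ (one_le_pow₀ (by norm_num)) (by norm_num)
      have h3 : (k : ℝ) ≤ ⌈T⌉₊ := (h1.le.trans (h2.trans hk3)).trans (Nat.le_ceil T)
      have h4 : k ≤ ⌈T⌉₊ := by exact_mod_cast h3
      omega
    have hgood : ∀ Z ≤ 2 ^ k, |∑ i ∈ range Z, ff X w t i| ≤ lam k := by
      intro Z hZ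
      by_contra hcon
      push Not at hcon
      apply htE
      rw [mem_biUnion]
      refine ⟨k, hkK, ?_⟩
      rw [hB]
      exact mem_filter.2 ⟨ht, Z, hZ, hcon⟩
    have h1 := hgood Y (hYY.trans hk1)
    have h2 := hgood Y' hk1
    have h3 : lam k ≤ 2 * (Y' : ℝ) ^ (1 / 2 + ε / 2) := by
      rw [hlam]
      simp only
      calc ((2 : ℝ) ^ k) ^ (1 / 2 + ε / 2) ≤ (2 * Y' : ℝ) ^ (1 / 2 + ε / 2) := Real.rpow_le_rpow (by positivity) hk2 (by linarith)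
        _ = 2 ^ (1 / 2 + ε / 2) * (Y' : ℝ) ^ (1 / 2 + ε / 2) := Real.mul_rpow (by norm_num) (by linarith)
        _ ≤ 2 * (Y' : ℝ) ^ (1 / 2 + ε / 2) := by
            refine mul_le_mul_of_nonneg_right ?_ (by positivity)
            calc (2 : ℝ) ^ (1 / 2 + ε / 2) ≤ 2 ^ (1 : ℝ) := Real.rpow_le_rpow_of_exponent_le (by norm_num) (by linarith)
              _ = 2 := Real.rpow_one _
    have h4 : ∑ i ∈ Ico Y Y', ff X w t i = ∑ i ∈ range Y', ff X w t i - ∑ i ∈ range Y, ff X w t i := by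
      rw [sum_Ico_eq_sub _ hYY]
    rw [h4]
    have h5 := abs_sub (∑ i ∈ range Y', ff X w t i) (∑ i ∈ range Y, ff X w t i)
    linarith

end

end Run7.h3.ST
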