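import Pool.Agent.Run7.h3.ST.One

set_option autoImplicit false
set_option linter.unusedSectionVars false
set_option linter.unusedVariables false

/-! A law of large numbers for functions of the reductions of a random integer vector. -/

namespace Run7.h3.ST

open Finset
open Q282.CL

section

variable {κ : Type} [Fintype κ] [DecidableEq κ]

/-- the box -/
noncomputable def bx (N : κ → ℤ) (L : κ → ℕ) : Finset (κ → ℤ) := Fintype.piFinset fun i => Ico (N i) (N i + L i)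

/-- the reduction -/
def rd (m : ℕ) (t : κ → ℤ) : κ → ZMod m := fun i => (t i : ZMod m)

theorem cnt_one (m : ℕ) [NeZero m] (N : ℤ) (L : ℕ) (r : ZMod m) :
    |(((Ico N (N + L)).filter fun x : ℤ => (x : ZMod m) = r).card : ℝ) - L / m| ≤ 1 := by
  have hm : (0 : ℤ) < m := by exact_mod_cast Nat.pos_of_ne_zero (NeZero.ne m)
  obtain ⟨v, hv⟩ : ∃ v : ℤ, (v : ZMod m) = r := ⟨r.val, by simp⟩
  have h1 : ((Ico N (N + L)).filter fun x : ℤ => (x : ZMod m) = r) = (Ico N (N + L)).filter fun x : ℤ => x ≡ v [ZMOD m] := by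
    refine filter_congr fun x _ => ?_
    rw [← hv, ZMod.intCast_eq_intCast_iff]
  have h2 := Int.Ico_filter_modEq_card N (N + L) hm v
  rw [← h1] at h2
  obtain ⟨c, hc⟩ : ∃ c : ℕ, c = ((Ico N (N + L)).filter fun x : ℤ => (x : ZMod m) = r).card := ⟨_, rfl⟩
  rw [← hc] at h2 ⊢
  have hmr : (0 : ℝ) < m := by exact_mod_cast hm
  have e1 : ((⌈((N + L : ℤ) - v : ℚ) / ((m : ℤ) : ℚ)⌉ : ℤ) : ℝ) = (⌈((N : ℝ) + L - v) / m⌉ : ℤ) := by
    congr 1
    have : ((((N + L : ℤ) - v : ℚ) / ((m : ℤ) : ℚ) : ℚ) : ℝ) = ((N : ℝ) + L - v) / m := by push_cast; ring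
    rw [← this, Rat.ceil_cast]
  have e2 : ((⌈((N : ℤ) - v : ℚ) / ((m : ℤ) : ℚ)⌉ : ℤ) : ℝ) = (⌈((N : ℝ) - v) / m⌉ : ℤ) := by
    congr 1
    have : ((((N : ℤ) - v : ℚ) / ((m : ℤ) : ℚ) : ℚ) : ℝ) = ((N : ℝ) - v) / m := by push_cast; ring
    rw [← this, Rat.ceil_cast]
  have h3 : (c : ℝ) = max ((⌈((N : ℝ) + L - v) / m⌉ : ℤ) - (⌈((N : ℝ) - v) / m⌉ : ℤ) : ℝ) 0 := by
    have h4 : ((c : ℤ) : ℝ) = ((max (⌈((N + L : ℤ) - v : ℚ) / ((m : ℤ) : ℚ)⌉ - ⌈((N : ℤ) - v : ℚ) / ((m : ℤ) : ℚ)⌉) 0 : ℤ) : ℝ) := by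
      exact_mod_cast h2
    rw [Int.cast_natCast] at h4
    rw [h4, Int.cast_max, Int.cast_sub, e1, e2, Int.cast_zero]
  have a1 := Int.ceil_lt_add_one (((N : ℝ) + L - v) / m)
  have a2 := Int.le_ceil (((N : ℝ) + L - v) / m)
  have a3 := Int.ceil_lt_add_one (((N : ℝ) - v) / m)
  have a4 := Int.le_ceil (((N : ℝ) - v) / m)
  have a5 : ((N : ℝ) + L - v) / m = ((N : ℝ) - v) / m + L / m := by ring
  have a6 : (0 : ℝ) ≤ L / m := by positivity
  rw [h3, abs_le]
  constructor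
  · have := le_max_left ((⌈((N : ℝ) + L - v) / m⌉ : ℤ) - (⌈((N : ℝ) - v) / m⌉ : ℤ) : ℝ) 0
    linarith
  · have h5 : max ((⌈((N : ℝ) + L - v) / m⌉ : ℤ) - (⌈((N : ℝ) - v) / m⌉ : ℤ) : ℝ) 0 ≤ L / m + 1 :=
      max_le (by linarith) (by linarith)
    linarith

theorem cnt_box (m : ℕ) [NeZero m] (N : κ → ℤ) (L : κ → ℕ) {T : ℝ} (hT : ∀ i, T ≤ L i) (hmT : (m : ℝ) ≤ T) (r : κ → ZMod m) :
    |(((bx N L).filter fun t => rd m t = r).card : ℝ) - (∏ i, (L i : ℝ)) / Fintype.card (κ → ZMod m)| ≤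
      3 ^ Fintype.card κ * (m / T) * ((∏ i, (L i : ℝ)) / Fintype.card (κ → ZMod m)) := by
  have hm : (0 : ℝ) < m := by exact_mod_cast Nat.pos_of_ne_zero (NeZero.ne m)
  have hT0 : 0 < T := lt_of_lt_of_le hm hmT
  have hL : ∀ i, (0 : ℝ) < L i := fun i => lt_of_lt_of_le hT0 (hT i)
  have h1 : (bx N L).filter (fun t => rd m t = r) = Fintype.piFinset fun i => (Ico (N i) (N i + L i)).filter fun x : ℤ => (x : ZMod m) = r i := by
    ext t
    unfold bx rd
    simp only [mem_filter, Fintype.mem_piFinset, funext_iff]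
    exact ⟨fun h i => ⟨h.1 i, h.2 i⟩, fun h => ⟨fun i => (h i).1, fun i => (h i).2⟩⟩
  rw [h1, Fintype.card_piFinset, Fintype.card_fun, ZMod.card]
  push_cast
  have h2 : (∏ i, (L i : ℝ)) / (m : ℝ) ^ Fintype.card κ = ∏ i, ((L i : ℝ) / m) := by
    rw [prod_div_distrib, prod_const, card_univ]
  rw [h2]
  obtain ⟨x, hx⟩ : ∃ x : κ → ℝ, x = fun i => (((Ico (N i) (N i + L i)).filter fun x : ℤ => (x : ZMod m) = r i).card : ℝ) / ((L i : ℝ) / m) := ⟨_, rfl⟩
  have h3 : ∏ i, (((Ico (N i) (N i + L i)).filter fun x : ℤ => (x : ZMod m) = r i).card : ℝ) = (∏ i, x i) * ∏ i, ((L i : ℝ) / m) := by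
    rw [← prod_mul_distrib]
    refine prod_congr rfl fun i _ => ?_
    rw [hx]
    simp only
    rw [div_mul_cancel₀ _ (div_pos (hL i) hm).ne']
  rw [h3]
  have h4 := prod_near univ x (fun _ => 1) (fun _ => 1) (fun _ => 1) (ε := m / T) (by positivity) (by rw [div_le_one hT0]; exact hmT)
    (fun _ _ => zero_le_one) (fun i _ => ?_) (fun _ _ => by simp)
  · have hP : 0 ≤ ∏ i, ((L i : ℝ) / m) := prod_nonneg fun i _ => by positivity
    have h5 : (∏ i, x i) * ∏ i, ((L i : ℝ) / m) - ∏ i, ((L i : ℝ) / m) = (∏ i, x i - ∏ i : κ, (1 : ℝ)) * ∏ i, ((L i : ℝ) / m) := by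
      rw [prod_const_one]
      ring
    rw [h5, abs_mul, abs_of_nonneg hP]
    refine mul_le_mul_of_nonneg_right (h4.trans (le_of_eq ?_)) hP
    rw [prod_const, card_univ]
    norm_num
  · rw [hx]
    simp only
    have h6 := cnt_one m (N i) (L i) (r i)
    have hLm : 0 < (L i : ℝ) / m := div_pos (hL i) hm
    rw [div_sub_one hLm.ne', abs_div, abs_of_pos hLm, div_le_iff₀ hLm, one_mul]
    refine h6.trans ?_
    have h7 : (m : ℝ) / T * (L i / m) = L i / T := by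
      field_simp
    rw [h7, le_div_iff₀ hT0, one_mul]
    exact hT i

theorem sum_box (m : ℕ) [NeZero m] (N : κ → ℤ) (L : κ → ℕ) {T : ℝ} (hT : ∀ i, T ≤ L i) (hmT : (m : ℝ) ≤ T) (f : (κ → ZMod m) → ℝ) :
    |∑ t ∈ bx N L, f (rd m t) - (∏ i, (L i : ℝ)) * av f| ≤ 3 ^ Fintype.card κ * (m / T) * (∏ i, (L i : ℝ)) * av (fun c => |f c|) := by
  classical
  have h1 : ∑ t ∈ bx N L, f (rd m t) = ∑ r : κ → ZMod m, (((bx N L).filter fun t => rd m t = r).card : ℝ) * f r := by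
    rw [← sum_fiberwise_of_maps_to (s := bx N L) (t := univ) (g := rd m) (fun t _ => mem_univ _)]
    refine sum_congr rfl fun r _ => ?_
    rw [sum_congr rfl fun t ht => by rw [(mem_filter.1 ht).2], sum_const, nsmul_eq_mul]
  have h2 : (∏ i, (L i : ℝ)) * av f = ∑ r : κ → ZMod m, (∏ i, (L i : ℝ)) / Fintype.card (κ → ZMod m) * f r := by
    unfold av
    rw [← mul_sum]
    ring
  rw [h1, h2, ← sum_sub_distrib]
  refine (abs_sum_le_sum_abs _ _).trans ?_
  have h3 : ∀ r ∈ (univ : Finset (κ → ZMod m)), |(((bx N L).filter fun t => rd m t = r).card : ℝ) * f r -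
      (∏ i, (L i : ℝ)) / Fintype.card (κ → ZMod m) * f r| ≤
      3 ^ Fintype.card κ * (m / T) * ((∏ i, (L i : ℝ)) / Fintype.card (κ → ZMod m)) * |f r| := by
    intro r _
    rw [← sub_mul, abs_mul]
    exact mul_le_mul_of_nonneg_right (cnt_box m N L hT hmT r) (abs_nonneg _)
  refine (sum_le_sum h3).trans (le_of_eq ?_)
  unfold av
  rw [← mul_sum]
  ring

theorem av_equiv {A B : Type} [Fintype A] [Fintype B] (e : A ≃ B) (f : B → ℝ) : av (fun a => f (e a)) = av f := by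
  unfold av
  rw [Fintype.card_congr e, e.sum_comp f]

theorem av_prod_type {A B : Type} [Fintype A] [Fintype B] (f : A → ℝ) (g : B → ℝ) :
    av (fun q : A × B => f q.1 * g q.2) = av f * av g := by
  unfold av
  rw [Fintype.card_prod, Fintype.sum_prod_type]
  push_cast
  rw [div_mul_div_comm, ← Fintype.sum_mul_sum]

/-- the chinese remainder theorem -/
theorem av_crt {p q : ℕ} [NeZero p] [NeZero q] [NeZero (p * q)] (hpq : p.Coprime q) (f : (κ → ZMod p) → ℝ) (g : (κ → ZMod q) → ℝ) :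
    ∃ h : (κ → ZMod (p * q)) → ℝ, (∀ t : κ → ℤ, h (rd (p * q) t) = f (rd p t) * g (rd q t)) ∧ av h = av f * av g ∧
      av (fun c => |h c|) = av (fun c => |f c|) * av (fun c => |g c|) := by
  classical
  obtain ⟨E, hE⟩ : ∃ E : (κ → ZMod (p * q)) ≃ (κ → ZMod p) × (κ → ZMod q), ∀ t : κ → ℤ, E (rd (p * q) t) = (rd p t, rd q t) := by
    refine ⟨(Equiv.piCongrRight fun _ => (ZMod.chineseRemainder hpq).toEquiv).trans (Equiv.arrowProdEquivProdArrow κ (fun _ => ZMod p) (fun _ => ZMod q)), fun t => ?_⟩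
    have h1 : ∀ i, ZMod.chineseRemainder hpq ((t i : ℤ) : ZMod (p * q)) = ((t i : ZMod p), (t i : ZMod q)) := by
      intro i
      rw [map_intCast]
      rfl
    refine Prod.ext ?_ ?_
    · funext i
      exact congrArg Prod.fst (h1 i)
    · funext i
      exact congrArg Prod.snd (h1 i)
  refine ⟨fun c => f (E c).1 * g (E c).2, fun t => by simp only [hE], ?_, ?_⟩
  · rw [av_equiv E (fun q => f q.1 * g q.2), av_prod_type]
  · simp only [abs_mul]
    rw [av_equiv E (fun q => |f q.1| * |g q.2|), av_prod_type (fun c => |f c|) (fun c => |g c|)]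

end

end Run7.h3.ST
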