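import Pool.Agent.Q282.CL.Abs

set_option autoImplicit false
set_option linter.unusedSectionVars false
set_option linter.unusedVariables false

/-! Indicator variables which are independent up to a given total weight. -/

namespace Run7.h3.ST

open Finset
open Q282.CL

section

variable {K ι : Type} [Fintype K] [Nonempty K] [DecidableEq ι]

/-- the products of the variables `X x`, `x ∈ S`, have the mean of independent variables if the
total weight of `S` is at most `m` -/
structure Ind (X : ι → K → ℝ) (π : ι → ℝ) (w : ι → ℕ) (Ω : Finset ι) (m : ℕ) : Prop where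
  idem : ∀ x c, X x c * X x c = X x c
  ind : ∀ S ⊆ Ω, ∑ x ∈ S, w x ≤ m → av (fun c => ∏ x ∈ S, X x c) = ∏ x ∈ S, π x

variable {X : ι → K → ℝ} {π : ι → ℝ} {w : ι → ℕ} {Ω : Finset ι} {m : ℕ}

/-- polynomials of weight at most `μ` in the variables in `A` -/
def PV (X : ι → K → ℝ) (w : ι → ℕ) (A : Finset ι) (μ : ℕ) : Submodule ℝ (K → ℝ) :=
  Submodule.span ℝ {f | ∃ S ⊆ A, ∑ x ∈ S, w x ≤ μ ∧ f = fun c => ∏ x ∈ S, X x c}

theorem PV.const (A : Finset ι) (μ : ℕ) (a : ℝ) : (fun _ => a) ∈ PV X w A μ := by
  have h1 : (fun _ : K => a) = a • fun c => ∏ x ∈ (∅ : Finset ι), X x c := by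
    funext c
    simp
  rw [h1]
  exact Submodule.smul_mem _ _ (Submodule.subset_span ⟨∅, empty_subset _, by simp, rfl⟩)

theorem PV.var {A : Finset ι} {μ : ℕ} {x : ι} (hx : x ∈ A) (hw : w x ≤ μ) : X x ∈ PV X w A μ :=
  Submodule.subset_span ⟨{x}, singleton_subset_iff.2 hx, by simpa using hw, by funext c; simp⟩

theorem PV.mono {A A' : Finset ι} {μ μ' : ℕ} (hA : A ⊆ A') (hμ : μ ≤ μ') : PV X w A μ ≤ PV X w A' μ' := by
  refine Submodule.span_mono ?_
  rintro f ⟨S, hS, hw, rfl⟩
  exact ⟨S, hS.trans hA, hw.trans hμ, rfl⟩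

theorem prod_idem (h : ∀ x c, X x c * X x c = X x c) (S T : Finset ι) (c : K) :
    (∏ x ∈ S, X x c) * ∏ x ∈ T, X x c = ∏ x ∈ S ∪ T, X x c := by
  induction S using Finset.induction_on with
  | empty => simp
  | insert a S ha ih =>
    rw [prod_insert ha, mul_assoc, ih, insert_union]
    by_cases hU : a ∈ S ∪ T
    · rw [insert_eq_of_mem hU, ← mul_prod_erase (S ∪ T) (fun x => X x c) hU, ← mul_assoc, h]
    · rw [prod_insert hU]

theorem PV.mul (h : ∀ x c, X x c * X x c = X x c) {A A' : Finset ι} {μ μ' : ℕ} {f g : K → ℝ}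
    (hf : f ∈ PV X w A μ) (hg : g ∈ PV X w A' μ') : (fun c => f c * g c) ∈ PV X w (A ∪ A') (μ + μ') := by
  induction hf using Submodule.span_induction with
  | mem f hf =>
    obtain ⟨S, hS, hw, rfl⟩ := hf
    induction hg using Submodule.span_induction with
    | mem g hg =>
      obtain ⟨T, hT, hw', rfl⟩ := hg
      refine Submodule.subset_span ⟨S ∪ T, union_subset_union hS hT, ?_, ?_⟩
      · refine le_trans ?_ (Nat.add_le_add hw hw')
        rw [← sum_union_inter]
        exact Nat.le_add_right _ _
      · funext c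
        exact prod_idem h S T c
    | zero =>
      convert Submodule.zero_mem _ using 1
      funext c
      simp
    | add g g' _ _ h1 h2 =>
      convert Submodule.add_mem _ h1 h2 using 1
      funext c
      simp [mul_add]
    | smul a g _ h1 =>
      convert Submodule.smul_mem _ a h1 using 1
      funext c
      simp only [Pi.smul_apply, smul_eq_mul]
      ring
  | zero =>
    convert Submodule.zero_mem _ using 1
    funext c
    simp
  | add f f' _ _ h1 h2 =>
    convert Submodule.add_mem _ h1 h2 using 1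
    funext c
    simp [add_mul]
  | smul a f _ h1 =>
    convert Submodule.smul_mem _ a h1 using 1
    funext c
    simp only [Pi.smul_apply, smul_eq_mul]
    ring

theorem PV.pow (h : ∀ x c, X x c * X x c = X x c) {A : Finset ι} {μ : ℕ} {f : K → ℝ}
    (hf : f ∈ PV X w A μ) (k : ℕ) : (fun c => f c ^ k) ∈ PV X w A (μ * k) := by
  induction k with
  | zero =>
    simp only [pow_zero, mul_zero]
    exact PV.const A 0 1
  | succ k ih =>
    have h1 := PV.mul h ih hf
    rw [union_self] at h1
    simp only [pow_succ]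
    rw [mul_add, mul_one]
    exact h1

theorem PV.prod (h : ∀ x c, X x c * X x c = X x c) {α : Type} [DecidableEq α] (R : Finset α) (A : α → Finset ι)
    (μ : α → ℕ) (f : α → K → ℝ) (hf : ∀ e ∈ R, f e ∈ PV X w (A e) (μ e)) :
    (fun c => ∏ e ∈ R, f e c) ∈ PV X w (R.biUnion A) (∑ e ∈ R, μ e) := by
  induction R using Finset.induction_on with
  | empty =>
    simp only [prod_empty, sum_empty]
    exact PV.const _ _ 1
  | insert a R ha ih =>
    have h1 := PV.mul h (hf a (mem_insert_self _ _)) (ih fun e he => hf e (mem_insert_of_mem he))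
    rw [biUnion_insert, sum_insert ha]
    simp only [prod_insert ha]
    exact h1

/-- independence -/
theorem Ind.av_mul (h : Ind X π w Ω m) {A A' : Finset ι} {μ μ' : ℕ} {f g : K → ℝ} (hA : A ⊆ Ω)
    (hA' : A' ⊆ Ω) (hd : Disjoint A A') (hμ : μ + μ' ≤ m) (hf : f ∈ PV X w A μ)
    (hg : g ∈ PV X w A' μ') : av (fun c => f c * g c) = av f * av g := by
  induction hf using Submodule.span_induction with
  | mem f hf =>
    obtain ⟨S, hS, hw, rfl⟩ := hf
    induction hg using Submodule.span_induction with
    | mem g hg =>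
      obtain ⟨T, hT, hw', rfl⟩ := hg
      have hST : Disjoint S T := Finset.disjoint_of_subset_left hS (Finset.disjoint_of_subset_right hT hd)
      have h1 : (fun c => (∏ x ∈ S, X x c) * ∏ x ∈ T, X x c) = fun c => ∏ x ∈ S ∪ T, X x c := by
        funext c
        rw [prod_union hST]
      rw [h1, h.ind (S ∪ T) (union_subset (hS.trans hA) (hT.trans hA')) (by rw [sum_union hST]; omega),
        h.ind S (hS.trans hA) (by omega), h.ind T (hT.trans hA') (by omega), prod_union hST]
    | zero =>
      simp only [Pi.zero_apply, mul_zero]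
      rw [show (0 : K → ℝ) = fun _ => 0 from rfl, av_const, mul_zero]
    | add g g' _ _ h1 h2 =>
      simp only [Pi.add_apply, mul_add]
      rw [show g + g' = fun c => g c + g' c from rfl, av_add, av_add, h1, h2, mul_add]
    | smul a g _ h1 =>
      have h2 : (fun c => (∏ x ∈ S, X x c) * (a • g) c) = fun c => a * ((∏ x ∈ S, X x c) * g c) := by
        funext c
        simp only [Pi.smul_apply, smul_eq_mul]
        ring
      rw [h2, Q282.CL.av_mul, h1, show a • g = fun c => a * g c from rfl, Q282.CL.av_mul]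
      ring
  | zero =>
    simp only [Pi.zero_apply, zero_mul]
    rw [show (0 : K → ℝ) = fun _ => 0 from rfl, av_const, zero_mul]
  | add f f' _ _ h1 h2 =>
    simp only [Pi.add_apply, add_mul]
    rw [show f + f' = fun c => f c + f' c from rfl, av_add, av_add, h1, h2, add_mul]
  | smul a f _ h1 =>
    have h2 : (fun c => (a • f) c * g c) = fun c => a * (f c * g c) := by
      funext c
      simp only [Pi.smul_apply, smul_eq_mul]
      ring
    rw [h2, Q282.CL.av_mul, h1, show a • f = fun c => a * f c from rfl, Q282.CL.av_mul]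
    ring

/-- independence of several blocks -/
theorem Ind.av_prod (h : Ind X π w Ω m) {α : Type} [DecidableEq α] (R : Finset α) (A : α → Finset ι)
    (μ : α → ℕ) (f : α → K → ℝ) (hA : ∀ e ∈ R, A e ⊆ Ω)
    (hd : (R : Set α).PairwiseDisjoint A) (hμ : ∑ e ∈ R, μ e ≤ m)
    (hf : ∀ e ∈ R, f e ∈ PV X w (A e) (μ e)) :
    av (fun c => ∏ e ∈ R, f e c) = ∏ e ∈ R, av (f e) := by
  induction R using Finset.induction_on with
  | empty =>
    simp only [prod_empty]
    exact av_const 1
  | insert a R ha ih =>
    simp only [prod_insert ha]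
    rw [sum_insert ha] at hμ
    have h1 := PV.prod (w := w) h.idem R A μ f fun e he => hf e (mem_insert_of_mem he)
    have h2 : Disjoint (A a) (R.biUnion A) := by
      rw [disjoint_biUnion_right]
      intro e he
      refine hd (by simp) (by simp [he]) ?_
      rintro rfl
      exact ha he
    have h3 : R.biUnion A ⊆ Ω := biUnion_subset.2 fun e he => hA e (mem_insert_of_mem he)
    rw [h.av_mul (hA a (mem_insert_self _ _)) h3 h2 hμ (hf a (mem_insert_self _ _)) h1,
      ih (fun e he => hA e (mem_insert_of_mem he))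
        (hd.subset (by rw [coe_insert]; exact Set.subset_insert _ _)) (by omega)
        fun e he => hf e (mem_insert_of_mem he)]

/-- the centred sum -/
noncomputable def cs (X : ι → K → ℝ) (A : Finset ι) (a : ℝ) (c : K) : ℝ := ∑ x ∈ A, (X x c - a)

theorem PV.cs {A : Finset ι} {e : ℕ} (hw : ∀ x ∈ A, w x ≤ e) (a : ℝ) : cs X A a ∈ PV X w A e := by
  have h1 : Run7.h3.ST.cs X A a = ∑ x ∈ A, (fun c => X x c - a) := by
    funext c
    rw [Finset.sum_apply]
    rfl
  rw [h1]
  refine Submodule.sum_mem _ fun x hx => ?_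
  exact Submodule.sub_mem _ (PV.var hx (hw x hx)) (PV.const A e a)

end

end Run7.h3.ST
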