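import Pool.Agent.Run7.h3.ST.Mod
import Pool.Agent.Q282.MM.Stm

set_option autoImplicit false
set_option linter.unusedSectionVars false
set_option linter.unusedVariables false

/-! The moments of a sum of indicator variables (adapted from `Q285/HS/Mom.lean` of the starting
files to variables which are independent up to a total weight). -/

namespace Run7.h3.ST

open Finset
open Q282.CL
open Q282MM (gm)

lemma gm_zero : gm 0 = 1 := by
  unfold gm
  rw [if_pos (by decide)]
  rfl

lemma gm_odd {k : ℕ} (h : ¬ Even k) : gm k = 0 := if_neg h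

lemma gm_even (l : ℕ) : gm (2 * (l + 1)) * (l + 1) = (2 * (l + 1)).choose 2 * gm (2 * l) := by
  unfold gm
  rw [if_pos (even_two_mul _), if_pos (even_two_mul _), Nat.choose_two_right]
  have h1 : 2 * (l + 1) * (2 * (l + 1) - 1) / 2 = (l + 1) * (2 * l + 1) := by
    have : 2 * (l + 1) * (2 * (l + 1) - 1) = 2 * ((l + 1) * (2 * l + 1)) := by
      rw [show 2 * (l + 1) - 1 = 2 * l + 1 by omega]
      ring
    rw [this, Nat.mul_div_cancel_left _ two_pos]
  rw [h1]
  rcases l with _ | l
  · rfl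
  · have h2 : 2 * (l + 1 + 1) - 1 = (2 * (l + 1) - 1) + 2 := by omega
    rw [h2, Nat.doubleFactorial_add_two]
    have h3 : 2 * (l + 1) - 1 + 2 = 2 * (l + 1) + 1 := by omega
    rw [h3]
    ring

/-- the remainder of the binomial formula -/
lemma bin_rem (a b : ℝ) (ha : 0 ≤ a) (hb : 0 ≤ b) (l : ℕ) :
    |(a + b) ^ (l + 2) - a ^ (l + 2) - (l + 2) * a ^ (l + 1) * b| ≤ (l + 2) ^ 2 * b ^ 2 * (a + b) ^ l := by
  have hab : 0 ≤ a + b := add_nonneg ha hb
  have key : 0 ≤ (a + b) ^ (l + 2) - a ^ (l + 2) - (l + 2) * a ^ (l + 1) * b ∧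
      (a + b) ^ (l + 2) - a ^ (l + 2) - (l + 2) * a ^ (l + 1) * b ≤ (l + 2) ^ 2 * b ^ 2 * (a + b) ^ l := by
    induction l with
    | zero =>
      norm_num
      constructor
      · nlinarith [sq_nonneg b]
      · nlinarith [sq_nonneg b]
    | succ l ih =>
      have h1 : (a + b) ^ (l + 1 + 2) - a ^ (l + 1 + 2) - (((l + 1 : ℕ) : ℝ) + 2) * a ^ (l + 1 + 1) * b =
          (a + b) * ((a + b) ^ (l + 2) - a ^ (l + 2) - (l + 2) * a ^ (l + 1) * b) + (l + 2) * a ^ (l + 1) * b ^ 2 := by
        push_cast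
        ring
      have h2 : a ^ (l + 1) ≤ (a + b) ^ (l + 1) := pow_le_pow_left₀ ha (by linarith) _
      have h3 : 0 ≤ a ^ (l + 1) := pow_nonneg ha _
      rw [h1]
      constructor
      · have := mul_nonneg hab ih.1
        positivity
      · have h4 := mul_le_mul_of_nonneg_left ih.2 hab
        have h5 : ((l : ℝ) + 2) * a ^ (l + 1) * b ^ 2 ≤ (l + 2) * (a + b) ^ (l + 1) * b ^ 2 := by gcongr
        have h6 : (a + b) * ((l + 2) ^ 2 * b ^ 2 * (a + b) ^ l) = (l + 2) ^ 2 * b ^ 2 * (a + b) ^ (l + 1) := by ring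
        rw [h6] at h4
        push_cast
        have h7 : 0 ≤ b ^ 2 * (a + b) ^ (l + 1) := by positivity
        have h8 : ((l : ℝ) + 1 + 2) ^ 2 * b ^ 2 * (a + b) ^ (l + 1) =
            (l + 2) ^ 2 * b ^ 2 * (a + b) ^ (l + 1) + (2 * l + 5) * (b ^ 2 * (a + b) ^ (l + 1)) := by ring
        rw [h8]
        have h9 : ((l : ℝ) + 2) * (b ^ 2 * (a + b) ^ (l + 1)) ≤ (2 * l + 5) * (b ^ 2 * (a + b) ^ (l + 1)) :=
          mul_le_mul_of_nonneg_right (by linarith [(Nat.cast_nonneg l : (0 : ℝ) ≤ l)]) h7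
        have h10 : ((l : ℝ) + 2) * (a + b) ^ (l + 1) * b ^ 2 = (l + 2) * (b ^ 2 * (a + b) ^ (l + 1)) := by ring
        linarith
  rw [abs_le]
  constructor
  · have : 0 ≤ ((l : ℝ) + 2) ^ 2 * b ^ 2 * (a + b) ^ l := by positivity
    linarith [key.1]
  · exact key.2

/-- the increment of the moments of the normal law -/
lemma gm_inc (a b q r : ℝ) (ha : 0 ≤ a) (hb : 0 ≤ b) (hq : 1 ≤ q) (hr : 1 ≤ r) (hbq : b ≤ 1 / q) (hab : a + b ≤ r ^ 2) (k : ℕ) (hk : 3 ≤ k) :
    |(gm k : ℝ) * (a + b) ^ (k / 2) - (gm k : ℝ) * a ^ (k / 2) - k.choose 2 * b * ((gm (k - 2) : ℝ) * a ^ ((k - 2) / 2))| ≤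
      (gm k : ℝ) * k ^ 2 / q * r ^ (k - 3) := by
  have hq0 : 0 < q := by linarith
  by_cases he : Even k
  · obtain ⟨l, rfl⟩ : ∃ l, k = 2 * (l + 2) := by
      obtain ⟨l, hl⟩ := he
      exact ⟨l - 2, by omega⟩
    have h1 : 2 * (l + 2) / 2 = l + 2 := by omega
    have h2 : 2 * (l + 2) - 2 = 2 * (l + 1) := by omega
    have h3 : 2 * (l + 1) / 2 = l + 1 := by omega
    have h4 := gm_even (l + 1)
    have h5 : ((2 * (l + 2)).choose 2 : ℝ) * (gm (2 * (l + 1)) : ℝ) = (gm (2 * (l + 2)) : ℝ) * (l + 2) := by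
      have h6 : 2 * (l + 1 + 1) = 2 * (l + 2) := by ring
      rw [h6] at h4
      have h7 : ((gm (2 * (l + 2)) * (l + 1 + 1) : ℕ) : ℝ) = (((2 * (l + 2)).choose 2 * gm (2 * (l + 1)) : ℕ) : ℝ) := by rw [h4]
      push_cast at h7
      linarith
    rw [h1, h2, h3]
    have h6 : (gm (2 * (l + 2)) : ℝ) * (a + b) ^ (l + 2) - (gm (2 * (l + 2)) : ℝ) * a ^ (l + 2) -
        ((2 * (l + 2)).choose 2 : ℝ) * b * ((gm (2 * (l + 1)) : ℝ) * a ^ (l + 1)) =
        (gm (2 * (l + 2)) : ℝ) * ((a + b) ^ (l + 2) - a ^ (l + 2) - (l + 2) * a ^ (l + 1) * b) := by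
      have h7 : ((2 * (l + 2)).choose 2 : ℝ) * b * ((gm (2 * (l + 1)) : ℝ) * a ^ (l + 1)) =
          (((2 * (l + 2)).choose 2 : ℝ) * (gm (2 * (l + 1)) : ℝ)) * (b * a ^ (l + 1)) := by ring
      rw [h7, h5]
      ring
    rw [h6, abs_mul, Nat.abs_cast]
    have h7 := bin_rem a b ha hb l
    have h8 : b ^ 2 ≤ 1 / q := by
      have : b ≤ 1 := hbq.trans (by rw [div_le_one hq0]; exact hq)
      nlinarith
    have h9 : (a + b) ^ l ≤ r ^ (2 * (l + 2) - 3) := by
      refine (pow_le_pow_left₀ (add_nonneg ha hb) hab l).trans ?_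
      rw [← pow_mul]
      exact pow_le_pow_right₀ hr (by omega)
    have h10 : ((l : ℝ) + 2) ^ 2 * b ^ 2 * (a + b) ^ l ≤ ((2 * (l + 2) : ℕ) : ℝ) ^ 2 * (1 / q) * r ^ (2 * (l + 2) - 3) := by
      have h11 : ((l : ℝ) + 2) ^ 2 ≤ ((2 * (l + 2) : ℕ) : ℝ) ^ 2 := by
        push_cast
        refine pow_le_pow_left₀ (by positivity) ?_ 2
        have : (0 : ℝ) ≤ l := Nat.cast_nonneg l
        linarith
      have h12 : 0 ≤ (a + b) ^ l := pow_nonneg (add_nonneg ha hb) l
      gcongr
    calc (gm (2 * (l + 2)) : ℝ) * |(a + b) ^ (l + 2) - a ^ (l + 2) - (l + 2) * a ^ (l + 1) * b| ≤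
        (gm (2 * (l + 2)) : ℝ) * (((2 * (l + 2) : ℕ) : ℝ) ^ 2 * (1 / q) * r ^ (2 * (l + 2) - 3)) :=
          mul_le_mul_of_nonneg_left (h7.trans h10) (Nat.cast_nonneg _)
      _ = _ := by ring
  · have h1 : ¬ Even (k - 2) := by
      intro h
      apply he
      have : k = (k - 2) + 2 := by omega
      rw [this]
      exact h.add even_two
    rw [gm_odd he, gm_odd h1]
    simp


section

variable {K ι : Type} [Fintype K] [Nonempty K] [DecidableEq ι]

/-- the moments of one centred variable -/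
noncomputable def E1 (q : ℝ) (j : ℕ) : ℝ := (1 - 1 / q) * (-(1 / q)) ^ j + 1 / q * (1 - 1 / q) ^ j

theorem E1_zero (q : ℝ) : E1 q 0 = 1 := by
  unfold E1
  ring

theorem E1_one (q : ℝ) : E1 q 1 = 0 := by
  unfold E1
  ring

theorem E1_two {q : ℝ} (hq : 1 ≤ q) : E1 q 2 = 1 / q * (1 - 1 / q) := by
  unfold E1
  ring

theorem E1_high {q : ℝ} (hq : 1 ≤ q) (j : ℕ) (hj : 2 ≤ j) : |E1 q j| ≤ 1 / q := by
  have hq0 : 0 < q := by linarith
  obtain ⟨a, ha⟩ : ∃ a : ℝ, a = 1 / q := ⟨_, rfl⟩
  have ha0 : 0 ≤ a := by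
    rw [ha]
    positivity
  have ha1 : a ≤ 1 := by
    rw [ha, div_le_one hq0]
    exact hq
  unfold E1
  rw [← ha]
  refine (abs_add_le _ _).trans ?_
  rw [abs_mul, abs_mul, abs_pow, abs_pow, abs_neg, abs_of_nonneg ha0, abs_of_nonneg (sub_nonneg.2 ha1)]
  have h1 : a ^ j ≤ a * a := by
    rw [← pow_two]
    exact pow_le_pow_of_le_one ha0 ha1 hj
  have h2 : (1 - a) ^ j ≤ (1 - a) * (1 - a) := by
    rw [← pow_two]
    exact pow_le_pow_of_le_one (by linarith) (by linarith) hj
  have h3 : 0 ≤ 1 - a := by linarith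
  nlinarith [mul_le_mul_of_nonneg_left h1 h3, mul_le_mul_of_nonneg_left h2 ha0, mul_nonneg ha0 h3]

theorem sig_nonneg {q σ : ℝ} (hq : 1 ≤ q) (h : σ = 1 / q * (1 - 1 / q)) : 0 ≤ σ := by
  have hq0 : 0 < q := by linarith
  have h1 : 1 / q ≤ 1 := by
    rw [div_le_one hq0]
    exact hq
  have h2 : 0 ≤ 1 / q := by positivity
  rw [h]
  exact mul_nonneg h2 (by linarith)

theorem sig_le {q σ : ℝ} (hq : 1 ≤ q) (h : σ = 1 / q * (1 - 1 / q)) : σ ≤ 1 / q := by
  have hq0 : 0 < q := by linarith
  have h2 : 0 ≤ 1 / q := by positivity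
  rw [h]
  nlinarith

variable {X : ι → K → ℝ} {π : ι → ℝ} {w : ι → ℕ} {Ω : Finset ι} {m e : ℕ} {q : ℝ}

theorem one_pow (hX : ∀ x c, X x c * X x c = X x c) (a : ι) (b : ℝ) (j : ℕ) (c : K) :
    (X a c - b) ^ j = (-b) ^ j + ((1 - b) ^ j - (-b) ^ j) * X a c := by
  have h1 : X a c = 0 ∨ X a c = 1 := by
    have h2 : X a c * (X a c - 1) = 0 := by
      have := hX a c
      linarith
    rcases mul_eq_zero.1 h2 with h | h
    · exact Or.inl h
    · exact Or.inr (by linarith)
  rcases h1 with h | h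
  · rw [h]
    ring
  · rw [h]
    ring

theorem av_single (h : Ind X π w Ω m) {a : ι} (ha : a ∈ Ω) (hw : w a ≤ m) : av (X a) = π a := by
  have h1 := h.ind {a} (singleton_subset_iff.2 ha) (by simpa using hw)
  simpa using h1

theorem av_one_pow (h : Ind X π w Ω m) {a : ι} (ha : a ∈ Ω) (hw : w a ≤ m) (hπ : π a = 1 / q) (j : ℕ) :
    av (fun c => (X a c - 1 / q) ^ j) = E1 q j := by
  have h1 : (fun c => (X a c - 1 / q) ^ j) = fun c => (-(1 / q)) ^ j + ((1 - 1 / q) ^ j - (-(1 / q)) ^ j) * X a c := by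
    funext c
    exact one_pow h.idem a _ j c
  rw [h1, av_add, av_const, Q282.CL.av_mul, av_single h ha hw, hπ]
  unfold E1
  ring

theorem cs_insert (X : ι → K → ℝ) {a : ι} {A : Finset ι} (ha : a ∉ A) (b : ℝ) (c : K) :
    cs X (insert a A) b c = (X a c - b) + cs X A b c := by
  unfold cs
  rw [sum_insert ha]

/-- the moments of one more summand -/
theorem cs_rec (h : Ind X π w Ω m) (hq : 1 ≤ q) (a : ι) {A : Finset ι} (ha : a ∉ A) (hA : insert a A ⊆ Ω)
    (hl : ∀ t ∈ insert a A, π t = 1 / q ∧ w t = e) (k : ℕ) (hk : e * k ≤ m) :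
    av (fun c : K => cs X (insert a A) (1 / q) c ^ k) =
      ∑ j ∈ range (k + 1), (k.choose j : ℝ) * (E1 q j * av (fun c : K => cs X A (1 / q) c ^ (k - j))) := by
  have h1 : (fun c : K => cs X (insert a A) (1 / q) c ^ k) =
      fun c => ∑ j ∈ range (k + 1), (k.choose j : ℝ) * ((X a c - 1 / q) ^ j * cs X A (1 / q) c ^ (k - j)) := by
    funext c
    rw [cs_insert X ha, add_pow]
    refine sum_congr rfl fun j _ => ?_
    ring
  rw [h1, av_sum]
  refine sum_congr rfl fun j hj => ?_
  rw [mem_range] at hj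
  rw [Q282.CL.av_mul]
  congr 1
  rcases Nat.eq_zero_or_pos j with rfl | hj0
  · simp only [pow_zero, one_mul]
    rw [E1_zero, one_mul]
  · have haΩ : a ∈ Ω := hA (mem_insert_self _ _)
    have hwa := (hl a (mem_insert_self _ _)).2
    have he1 : e ≤ m := le_trans (Nat.le_mul_of_pos_right e (by omega)) hk
    have hf : (fun c => (X a c - 1 / q) ^ j) ∈ PV X w {a} e := by
      have h2 : (fun c => (X a c - 1 / q) ^ j) = fun c => (-(1 / q)) ^ j + ((1 - 1 / q) ^ j - (-(1 / q)) ^ j) * X a c := by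
        funext c
        exact one_pow h.idem a _ j c
      rw [h2]
      refine Submodule.add_mem _ (PV.const _ _ _) ?_
      exact Submodule.smul_mem _ _ (PV.var (mem_singleton_self a) hwa.le)
    have hg : (fun c => cs X A (1 / q) c ^ (k - j)) ∈ PV X w A (e * (k - j)) :=
      PV.pow h.idem (PV.cs (fun x hx => (hl x (mem_insert_of_mem hx)).2.le) _) _
    have hμ : e + e * (k - j) ≤ m := by
      refine le_trans ?_ hk
      have h3 : e + e * (k - j) = e * (1 + (k - j)) := by ring
      rw [h3]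
      exact Nat.mul_le_mul_left e (by omega)
    rw [h.av_mul (singleton_subset_iff.2 haΩ) ((subset_insert a A).trans hA)
      (disjoint_singleton_left.2 ha) hμ hf hg,
      av_one_pow h haΩ (hwa.le.trans he1) (hl a (mem_insert_self _ _)).1]

theorem cs_one (h : Ind X π w Ω m) (hq : 1 ≤ q) {A : Finset ι} (hA : A ⊆ Ω)
    (hl : ∀ t ∈ A, π t = 1 / q ∧ w t = e) (he : e ≤ m) : av (fun c : K => cs X A (1 / q) c) = 0 := by
  unfold cs
  rw [av_sum]
  refine sum_eq_zero fun x hx => ?_
  have h1 := av_one_pow (q := q) h (hA hx) ((hl x hx).2.le.trans he) (hl x hx).1 1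
  simp only [pow_one] at h1
  rw [h1, E1_one]

theorem cs_two (h : Ind X π w Ω m) (hq : 1 ≤ q) {A : Finset ι} (hA : A ⊆ Ω)
    (hl : ∀ t ∈ A, π t = 1 / q ∧ w t = e) (he : e * 2 ≤ m) :
    av (fun c : K => cs X A (1 / q) c ^ 2) = A.card * (1 / q * (1 - 1 / q)) := by
  induction A using Finset.induction_on with
  | empty =>
    unfold cs
    simp only [sum_empty, card_empty, Nat.cast_zero, zero_mul]
    rw [zero_pow two_ne_zero]
    exact av_const 0
  | insert a A ha ih =>
    have h1 := cs_rec h hq a ha hA hl 2 he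
    rw [h1, sum_range_succ, sum_range_succ, sum_range_succ, sum_range_zero]
    simp only [Nat.choose_zero_right, Nat.cast_one, one_mul, Nat.sub_zero, zero_add, Nat.sub_self, pow_zero, Nat.choose_self]
    rw [E1_zero, E1_one, E1_two hq, ih ((subset_insert a A).trans hA) (fun t ht => hl t (mem_insert_of_mem ht)),
      av_const, card_insert_of_notMem ha]
    push_cast
    ring

end

/-- **the moments of the sum are close to those of the normal law** -/
theorem mom_near (k : ℕ) : ∃ C : ℝ, 1 ≤ C ∧ ∀ (ι K : Type) [Fintype K] [Nonempty K] [DecidableEq ι] (X : ι → K → ℝ) (π : ι → ℝ) (w : ι → ℕ)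
    (Ω : Finset ι) (m e : ℕ) (q r σ : ℝ), Ind X π w Ω m → 1 ≤ q → 1 ≤ r → σ = 1 / q * (1 - 1 / q) →
    ∀ A : Finset ι, A ⊆ Ω → (∀ t ∈ A, π t = 1 / q ∧ w t = e) → (A.card : ℝ) * σ ≤ r ^ 2 → (A.card : ℝ) ≤ q * r ^ 2 → ∀ j ≤ k, e * j ≤ m →
      |av (fun c : K => cs X A (1 / q) c ^ j) - (gm j : ℝ) * (A.card * σ) ^ (j / 2)| ≤ C * r ^ (j - 1) := by
  induction k with
  | zero =>
    refine ⟨1, le_rfl, fun ι K _ _ _ X π w Ω m e q r σ hI hq hr hσe A hs hl hA1 hA2 j hj hjm => ?_⟩
    have hj0 : j = 0 := by omega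
    subst hj0
    simp only [pow_zero]
    rw [av_const, gm_zero, Nat.cast_one]
    norm_num
  | succ k ih =>
    obtain ⟨C, hC, ih⟩ := ih
    obtain ⟨G, hG⟩ : ∃ G : ℝ, G = ∑ j ∈ range (k + 2), (gm j : ℝ) := ⟨_, rfl⟩
    have hGj : ∀ j ≤ k + 1, (gm j : ℝ) ≤ G := fun j hj => by
      rw [hG]
      exact single_le_sum (f := fun j => (gm j : ℝ)) (fun i _ => Nat.cast_nonneg _) (mem_range.2 (by omega))
    have hG0 : 0 ≤ G := (Nat.cast_nonneg _).trans (hGj 0 (by omega))
    obtain ⟨E, hE⟩ : ∃ E : ℝ, E = G * (k + 1) ^ 2 + 2 ^ (k + 1) * (G + 2 * C) := ⟨_, rfl⟩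
    have hE0 : 0 ≤ E := by
      rw [hE]
      positivity
    refine ⟨C + E, by linarith, ?_⟩
    intro ι K _ _ _ X π w Ω m e q r σ hI hq hr hσe A hs hl hA1 hA2 j hj hjm
    have hσ : 0 ≤ σ := sig_nonneg hq hσe
    have hσq : σ ≤ 1 / q := sig_le hq hσe
    rcases Nat.lt_or_ge j (k + 1) with hjk | hjk
    · refine (ih ι K X π w Ω m e q r σ hI hq hr hσe A hs hl hA1 hA2 j (by omega) hjm).trans ?_
      exact mul_le_mul_of_nonneg_right (by linarith) (by positivity)
    · have hjk : j = k + 1 := by omega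
      subst hjk
      classical
      have hq0 : 0 < q := by linarith
      have hr0 : 0 < r := by linarith
      rcases Nat.lt_or_ge k 2 with hk2 | hk2
      · -- the moments of order one and two
        have hz : |av (fun c : K => cs X A (1 / q) c ^ (k + 1)) - (gm (k + 1) : ℝ) * (A.card * σ) ^ ((k + 1) / 2)| = 0 := by
          rcases (by omega : k = 0 ∨ k = 1) with rfl | rfl
          · have h1 := cs_one hI hq hs hl (by simpa using hjm)
            simp only [zero_add, pow_one]
            rw [h1, gm_odd (by decide)]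
            simp
          · have h1 := cs_two hI hq hs hl (by simpa using hjm)
            simp only [Nat.reduceAdd]
            rw [h1, ← hσe]
            have : gm 2 = 1 := by
              unfold gm
              rw [if_pos (by decide)]
              rfl
            rw [this]
            simp
        rw [hz]
        positivity
      · -- the higher moments
        have key : ∀ A : Finset ι, A ⊆ Ω → (∀ t ∈ A, π t = 1 / q ∧ w t = e) → (A.card : ℝ) * σ ≤ r ^ 2 → (A.card : ℝ) ≤ q * r ^ 2 →
            |av (fun c : K => cs X A (1 / q) c ^ (k + 1)) - (gm (k + 1) : ℝ) * (A.card * σ) ^ ((k + 1) / 2)| ≤ A.card * (E / q * r ^ (k - 2)) := by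
          intro A
          induction A using Finset.induction_on with
          | empty =>
            intro _ _ _ _
            have h1 : (fun c : K => cs X ∅ (1 / q) c ^ (k + 1)) = fun _ => (0 : ℝ) := by
              funext c
              unfold cs
              rw [sum_empty, zero_pow (by omega)]
            rw [h1, av_const]
            simp only [card_empty, Nat.cast_zero, zero_mul]
            rw [zero_pow (by omega)]
            simp
          | insert a A ha ihA =>
            intro hs hl hA1 hA2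
            have hcard : ((insert a A).card : ℝ) = A.card + 1 := by
              rw [card_insert_of_notMem ha]
              push_cast
              rfl
            rw [hcard] at hA1 hA2 ⊢
            have hs' : A ⊆ Ω := (subset_insert a A).trans hs
            have hl' : ∀ t ∈ A, π t = 1 / q ∧ w t = e := fun t ht => hl t (mem_insert_of_mem ht)
            have hA1' : (A.card : ℝ) * σ ≤ r ^ 2 := by nlinarith
            have hA2' : (A.card : ℝ) ≤ q * r ^ 2 := by linarith
            have h1 := ihA hs' hl' hA1' hA2'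
            have hM : ∀ j ≤ k, |av (fun c : K => cs X A (1 / q) c ^ j) - (gm j : ℝ) * (A.card * σ) ^ (j / 2)| ≤ C * r ^ (j - 1) := fun j hj =>
              ih ι K X π w Ω m e q r σ hI hq hr hσe A hs' hl' hA1' hA2' j hj ((Nat.mul_le_mul_left e (by omega)).trans hjm)
            have hMa : ∀ j ≤ k, |av (fun c : K => cs X A (1 / q) c ^ j)| ≤ (G + C) * r ^ j := by
              intro j hj
              have h2 := hM j hj
              have h3 : (gm j : ℝ) * (A.card * σ) ^ (j / 2) ≤ G * r ^ j := by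
                have h4 : ((A.card : ℝ) * σ) ^ (j / 2) ≤ r ^ j := by
                  refine (pow_le_pow_left₀ (by positivity) hA1' (j / 2)).trans ?_
                  rw [← pow_mul]
                  exact pow_le_pow_right₀ hr (by omega)
                exact mul_le_mul (hGj j (by omega)) h4 (by positivity) hG0
              have h4 : C * r ^ (j - 1) ≤ C * r ^ j := mul_le_mul_of_nonneg_left (pow_le_pow_right₀ hr (by omega)) (by linarith)
              have h5 : 0 ≤ (gm j : ℝ) * (A.card * σ) ^ (j / 2) := by positivity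
              have h6 := abs_sub_abs_le_abs_sub (av fun c : K => cs X A (1 / q) c ^ j) ((gm j : ℝ) * (A.card * σ) ^ (j / 2))
              rw [abs_of_nonneg h5] at h6
              linarith
            have hμ : ∀ j, 2 ≤ j → |E1 q j| ≤ 1 / q := fun j hj => E1_high hq j hj
            -- the recursion
            have hrec := cs_rec hI hq a ha hs hl (k + 1) hjm
            obtain ⟨k', rfl⟩ : ∃ k', k = k' + 2 := ⟨k - 2, by omega⟩
            rw [sum_range_succ', sum_range_succ', sum_range_succ'] at hrec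
            simp only [pow_zero, Nat.choose_zero_right, Nat.cast_one, one_mul, Nat.sub_zero, zero_add, pow_one, Nat.reduceAdd] at hrec
            rw [E1_zero, E1_one, E1_two hq, ← hσe, zero_mul, mul_zero, add_zero, one_mul] at hrec
            have h2 : k' + 2 + 1 - 2 = k' + 1 := by omega
            rw [h2] at hrec
            have hinc := gm_inc (A.card * σ) σ q r (by positivity) hσ hq hr hσq (by linarith) (k' + 2 + 1) (by omega)
            rw [h2] at hinc
            have h3 : (((A.card : ℝ) + 1) * σ) = A.card * σ + σ := by ring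
            rw [hrec, h3]
            -- the sum of the high terms
            obtain ⟨S, hS⟩ : ∃ S : ℝ, S = ∑ x ∈ range (k' + 1), (((k' + 2 + 1).choose (x + 1 + 1 + 1) : ℕ) : ℝ) *
              (E1 q (x + 1 + 1 + 1) * av (fun c : K => cs X A (1 / q) c ^ (k' + 2 + 1 - (x + 1 + 1 + 1)))) := ⟨_, rfl⟩
            have hS1 : |S| ≤ 2 ^ (k' + 3) * (1 / q * ((G + C) * r ^ k')) := by
              rw [hS]
              refine (abs_sum_le_sum_abs _ _).trans ?_
              have h4 : ∀ x ∈ range (k' + 1), |(((k' + 2 + 1).choose (x + 1 + 1 + 1) : ℕ) : ℝ) *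
                  (E1 q (x + 1 + 1 + 1) * av (fun c : K => cs X A (1 / q) c ^ (k' + 2 + 1 - (x + 1 + 1 + 1))))| ≤
                  (((k' + 2 + 1).choose (x + 3) : ℕ) : ℝ) * (1 / q * ((G + C) * r ^ k')) := by
                intro x hx
                rw [mem_range] at hx
                rw [abs_mul, Nat.abs_cast, abs_mul]
                refine mul_le_mul_of_nonneg_left ?_ (Nat.cast_nonneg _)
                refine mul_le_mul (hμ _ (by omega)) ?_ (abs_nonneg _) (by positivity)
                refine (hMa _ (by omega)).trans ?_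
                exact mul_le_mul_of_nonneg_left (pow_le_pow_right₀ hr (by omega)) (by linarith)
              refine (sum_le_sum h4).trans ?_
              rw [← sum_mul]
              refine mul_le_mul_of_nonneg_right ?_ (by positivity)
              have h5 : ∑ x ∈ range (k' + 1), (((k' + 2 + 1).choose (x + 3) : ℕ) : ℝ) ≤ ∑ x ∈ range (k' + 4), (((k' + 3).choose x : ℕ) : ℝ) := by
                rw [← Nat.cast_sum, ← Nat.cast_sum]
                refine Nat.cast_le.2 ?_
                rw [sum_range_succ' _ (k' + 3), sum_range_succ' _ (k' + 2), sum_range_succ' _ (k' + 1)]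
                refine le_trans (le_of_eq (sum_congr rfl fun x _ => ?_)) (le_trans (Nat.le_add_right _ _) (le_trans (Nat.le_add_right _ _) (Nat.le_add_right _ _)))
                rfl
              refine h5.trans ?_
              have h6 := Nat.sum_range_choose (k' + 3)
              have h7 : ∑ x ∈ range (k' + 4), (((k' + 3).choose x : ℕ) : ℝ) = 2 ^ (k' + 3) := by exact_mod_cast h6
              rw [h7]
            have hM1 : |((k' + 2 + 1).choose 2 : ℝ) * (σ * av (fun c : K => cs X A (1 / q) c ^ (k' + 1))) -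
                ((k' + 2 + 1).choose 2 : ℝ) * σ * ((gm (k' + 1) : ℝ) * (A.card * σ) ^ ((k' + 1) / 2))| ≤ 2 ^ (k' + 3) * (1 / q * (C * r ^ k')) := by
              have h4 : ((k' + 2 + 1).choose 2 : ℝ) * (σ * av (fun c : K => cs X A (1 / q) c ^ (k' + 1))) -
                  ((k' + 2 + 1).choose 2 : ℝ) * σ * ((gm (k' + 1) : ℝ) * (A.card * σ) ^ ((k' + 1) / 2)) =
                  ((k' + 2 + 1).choose 2 : ℝ) * (σ * (av (fun c : K => cs X A (1 / q) c ^ (k' + 1)) - (gm (k' + 1) : ℝ) * (A.card * σ) ^ ((k' + 1) / 2))) := by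
                ring
              rw [h4, abs_mul, Nat.abs_cast, abs_mul, abs_of_nonneg hσ]
              have h5 : ((k' + 2 + 1).choose 2 : ℝ) ≤ 2 ^ (k' + 3) := by
                exact_mod_cast Nat.choose_le_two_pow (k' + 3) 2
              have h6 := hM (k' + 1) (by omega)
              rw [Nat.add_sub_cancel] at h6
              refine mul_le_mul h5 (mul_le_mul hσq h6 (abs_nonneg _) (by positivity)) (by positivity) (by positivity)
            have h4 : k' + 2 - 2 = k' := by omega
            have h5 : k' + 2 + 1 - 3 = k' := by omega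
            rw [h4] at h1 ⊢
            rw [h5] at hinc
            have h6 : (gm (k' + 2 + 1) : ℝ) * ((k' + 2 + 1 : ℕ) : ℝ) ^ 2 / q * r ^ k' ≤ G * ((k' + 2 : ℕ) + 1) ^ 2 * (1 / q * r ^ k') := by
              have h7 : (gm (k' + 2 + 1) : ℝ) * ((k' + 2 + 1 : ℕ) : ℝ) ^ 2 / q * r ^ k' =
                  (gm (k' + 2 + 1) : ℝ) * (((k' + 2 : ℕ) : ℝ) + 1) ^ 2 * (1 / q * r ^ k') := by
                push_cast
                ring
              rw [h7]
              refine mul_le_mul_of_nonneg_right ?_ (by positivity)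
              exact mul_le_mul_of_nonneg_right (hGj _ le_rfl) (by positivity)
            have h7 : ((A.card : ℝ) + 1) * (E / q * r ^ k') = A.card * (E / q * r ^ k') +
                (G * ((k' + 2 : ℕ) + 1) ^ 2 * (1 / q * r ^ k') + 2 ^ (k' + 3) * (1 / q * ((G + C) * r ^ k')) + 2 ^ (k' + 3) * (1 / q * (C * r ^ k'))) := by
              rw [hE]
              push_cast
              ring
            rw [h7, ← hS]
            rw [abs_le] at h1 hinc hS1 hM1 ⊢
            constructor <;> linarith [h1.1, h1.2, hinc.1, hinc.2, hS1.1, hS1.2, hM1.1, hM1.2]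
        have h1 := key A hs hl hA1 hA2
        refine h1.trans ?_
        have h2 : (A.card : ℝ) * (E / q * r ^ (k - 2)) ≤ (q * r ^ 2) * (E / q * r ^ (k - 2)) :=
          mul_le_mul_of_nonneg_right hA2 (by positivity)
        refine h2.trans ?_
        have h3 : (q * r ^ 2) * (E / q * r ^ (k - 2)) = E * r ^ (k + 1 - 1) := by
          have h4 : r ^ (k + 1 - 1) = r ^ 2 * r ^ (k - 2) := by
            rw [← pow_add]
            congr 1
            omega
          rw [h4]
          field_simp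
        rw [h3]
        exact mul_le_mul_of_nonneg_right (by linarith) (by positivity)


end Run7.h3.ST
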