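import Pool.Agent.Run7.h3.ST.Fro
import Pool.Agent.Run7.h3.ST.Mod

set_option autoImplicit false
set_option linter.unusedSectionVars false
set_option linter.unusedVariables false

/-! Orbits of Frobenius on vectors; the values of forms over a prime field at the points of different orbits
are independent. -/

namespace Run7.h3.ST

open Finset Polynomial
open Pool.Agent.Y722.HS (Mon mev)
open Q282.CL

/-- averages and surjective homomorphisms (as in `Q285NG.av_hom`) -/
lemma av_hom {A B : Type} [AddGroup A] [AddGroup B] [Fintype A] [Fintype B] [DecidableEq B] (φ : A →+ B) (hφ : Function.Surjective φ)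
    (G : B → ℝ) : av (fun a => G (φ a)) = av G := by
  classical
  obtain ⟨m, hm⟩ : ∃ m : ℕ, ∀ b : B, (univ.filter fun a => φ a = b).card = m :=
    ⟨(univ.filter fun a => φ a = 0).card, fun b => AddMonoidHom.card_fiber_eq_of_mem_range φ (hφ b) (hφ 0)⟩
  have hA : (Fintype.card A : ℝ) = m * Fintype.card B := by
    have h1 : Fintype.card A = ∑ b : B, (univ.filter fun a => φ a = b).card := by
      rw [← card_univ]
      exact card_eq_sum_card_fiberwise fun a _ => mem_univ (φ a)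
    rw [h1, sum_congr rfl fun b _ => hm b, sum_const, card_univ, smul_eq_mul]
    push_cast
    ring
  have hm0 : (m : ℝ) ≠ 0 := by
    intro h0
    rw [h0, zero_mul] at hA
    have : 0 < Fintype.card A := Fintype.card_pos
    have : (0 : ℝ) < Fintype.card A := by exact_mod_cast this
    linarith
  have hs : ∑ a : A, G (φ a) = m * ∑ b : B, G b := by
    rw [← sum_fiberwise_of_maps_to (fun a _ => mem_univ (φ a)) (fun a => G (φ a)), mul_sum]
    refine sum_congr rfl fun b _ => ?_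
    have h1 : ∀ a ∈ univ.filter (fun a => φ a = b), G (φ a) = G b := fun a ha => by rw [(mem_filter.1 ha).2]
    rw [sum_congr rfl h1, sum_const, hm b, nsmul_eq_mul]
  unfold av
  rw [hs, hA, mul_div_mul_left _ _ hm0]

section

variable {p : ℕ} [hp : Fact p.Prime] {n : ℕ}

/-- the action of Frobenius -/
noncomputable def Fr (p : ℕ) [Fact p.Prime] {n : ℕ} (v : Fin (n + 1) → KB p) : Fin (n + 1) → KB p := fun i => v i ^ p

theorem Fr_iter (s : ℕ) (v : Fin (n + 1) → KB p) : (Fr p)^[s] v = fun i => v i ^ (p ^ s) := by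
  induction s with
  | zero => funext i; simp
  | succ s ih =>
    rw [Function.iterate_succ_apply', ih]
    funext i
    show (v i ^ p ^ s) ^ p = _
    rw [← pow_mul, pow_succ]

/-- the degree of a vector -/
noncomputable def dg (v : Fin (n + 1) → KB p) : ℕ := Function.minimalPeriod (Fr p) v

theorem dg_dvd {e : ℕ} {v : Fin (n + 1) → KB p} : dg v ∣ e ↔ ∀ i, v i ^ (p ^ e) = v i := by
  unfold dg
  rw [← Function.isPeriodicPt_iff_minimalPeriod_dvd]
  unfold Function.IsPeriodicPt Function.IsFixedPt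
  rw [Fr_iter]
  exact funext_iff

theorem dg_pos (v : Fin (n + 1) → KB p) : 0 < dg v := by
  choose l hl1 hl2 using fun i => exists_fix (v i)
  have h1 : dg v ∣ ∏ i, l i := by
    rw [dg_dvd]
    intro i
    exact fix_dvd (hl2 i) (dvd_prod_of_mem l (mem_univ i))
  exact Nat.pos_of_dvd_of_pos h1 (prod_pos fun i _ => hl1 i)

theorem Fr_mod (v : Fin (n + 1) → KB p) (s : ℕ) : (Fr p)^[s % dg v] v = (Fr p)^[s] v :=
  Function.iterate_mod_minimalPeriod_eq

theorem pow_mod {y : KB p} {d : ℕ} (hy : y ^ (p ^ d) = y) (s : ℕ) : y ^ (p ^ s) = y ^ (p ^ (s % d)) := by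
  conv_lhs => rw [← Nat.div_add_mod s d]
  rw [pow_add, pow_mul, fix_mul hy]

/-- two vectors are in one orbit -/
def Orb (v w : Fin (n + 1) → KB p) : Prop := ∃ s, (Fr p)^[s] v = w

theorem Fr_cancel {v : Fin (n + 1) → KB p} {s : ℕ} : ∃ k, ∀ r, (Fr p)^[k + r] ((Fr p)^[s] v) = (Fr p)^[r] v := by
  refine ⟨dg v * s - s, fun r => ?_⟩
  rw [← Function.iterate_add_apply]
  have h1 : dg v * s - s + r + s = r + dg v * s := by
    have : s ≤ dg v * s := Nat.le_mul_of_pos_left s (dg_pos v)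
    omega
  rw [h1, Function.iterate_add_apply]
  congr 1
  rw [← Fr_mod v (dg v * s), Nat.mul_mod_right]
  rfl

theorem Orb.symm {v w : Fin (n + 1) → KB p} (h : Orb v w) : Orb w v := by
  obtain ⟨s, rfl⟩ := h
  obtain ⟨k, hk⟩ := Fr_cancel (v := v) (s := s)
  exact ⟨k + 0, by rw [hk 0]; rfl⟩

theorem Orb.trans {u v w : Fin (n + 1) → KB p} (h : Orb u v) (h' : Orb v w) : Orb u w := by
  obtain ⟨s, rfl⟩ := h
  obtain ⟨r, rfl⟩ := h'
  exact ⟨r + s, by rw [Function.iterate_add_apply]⟩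

theorem Orb.refl (v : Fin (n + 1) → KB p) : Orb v v := ⟨0, rfl⟩

theorem dg_Fr (v : Fin (n + 1) → KB p) (s : ℕ) : dg ((Fr p)^[s] v) = dg v := by
  apply Nat.dvd_antisymm
  · rw [dg_dvd]
    intro i
    rw [Fr_iter]
    show (v i ^ p ^ s) ^ p ^ dg v = v i ^ p ^ s
    rw [← pow_mul, mul_comm, pow_mul, dg_dvd.1 (dvd_refl (dg v)) i]
  · rw [dg_dvd]
    intro i
    obtain ⟨k, hk⟩ := Fr_cancel (v := v) (s := s)
    have h1 := dg_dvd.1 (dvd_refl (dg ((Fr p)^[s] v))) 
    have h2 : ∀ j, v j = ((Fr p)^[s] v j) ^ p ^ k := by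
      intro j
      have h3 := congrFun (hk 0) j
      rw [add_zero, Fr_iter k] at h3
      exact h3.symm
    rw [h2 i, ← pow_mul, mul_comm, pow_mul, h1 i]

theorem dg_orb {v w : Fin (n + 1) → KB p} (h : Orb v w) : dg w = dg v := by
  obtain ⟨s, rfl⟩ := h
  exact dg_Fr v s

theorem Nv_Fr {v : Fin (n + 1) → KB p} (h : v ∈ Nv n (KB p)) (s : ℕ) : (Fr p)^[s] v ∈ Nv n (KB p) := by
  obtain ⟨i, hi, hj⟩ := h
  rw [Fr_iter]
  refine ⟨i, by simp [hi], fun j hji => ?_⟩
  simp only [hj j hji]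
  rw [zero_pow (pow_ne_zero _ hp.out.ne_zero)]

theorem mev_Fr {D : ℕ} (v : Fin (n + 1) → KB p) (s : ℕ) (ν : Mon n D) : mev ((Fr p)^[s] v) ν = mev v ν ^ (p ^ s) := by
  rw [Fr_iter]
  unfold mev
  rw [← prod_pow]
  refine prod_congr rfl fun i _ => ?_
  rw [← pow_mul, ← pow_mul, mul_comm]

/-- the value of the form with the coefficients `c` -/
noncomputable def val {D : ℕ} (v : Fin (n + 1) → KB p) (c : Mon n D → ZMod p) : KB p :=
  ∑ ν, algebraMap (ZMod p) (KB p) (c ν) * mev v ν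

theorem val_Fr {D : ℕ} (v : Fin (n + 1) → KB p) (s : ℕ) (c : Mon n D → ZMod p) :
    val ((Fr p)^[s] v) c = val v c ^ (p ^ s) := by
  unfold val
  rw [sum_pow_char_pow]
  refine sum_congr rfl fun ν _ => ?_
  rw [mev_Fr, mul_pow, ← map_pow, ZMod.pow_card_pow]

theorem val_fix {D : ℕ} (v : Fin (n + 1) → KB p) (c : Mon n D → ZMod p) : val v c ^ (p ^ dg v) = val v c := by
  rw [← val_Fr]
  congr 1
  rw [← Fr_mod v (dg v), Nat.mod_self]
  rfl

/-- the vectors in `S` are in different orbits -/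
def Sep (S : Finset (Fin (n + 1) → KB p)) : Prop := ∀ v ∈ S, ∀ w ∈ S, Orb v w → v = w

theorem surj {D : ℕ} (S : Finset (Fin (n + 1) → KB p)) (hS : Sep S) (hN : ∀ v ∈ S, v ∈ Nv n (KB p))
    (hD : ∑ v ∈ S, dg v ≤ D + 1) (y : (Fin (n + 1) → KB p) → KB p) (hy : ∀ v ∈ S, y v ^ (p ^ dg v) = y v) :
    ∃ c : Mon n D → ZMod p, ∀ v ∈ S, val v c = y v := by
  classical
  -- the equivariant extension
  have key : ∀ v ∈ S, ∀ w ∈ S, ∀ s r : ℕ, (Fr p)^[s] v = (Fr p)^[r] w → y v ^ (p ^ s) = y w ^ (p ^ r) := by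
    intro v hv w hw s r h
    have h1 : v = w := by
      refine hS v hv w hw ?_
      exact Orb.trans ⟨s, h⟩ (Orb.symm ⟨r, rfl⟩)
    subst h1
    rw [pow_mod (hy v hv) s, pow_mod (hy v hv) r]
    have h2 : s % dg v = r % dg v := by
      rw [← Fr_mod v s, ← Fr_mod v r] at h
      exact (Function.iterate_eq_iterate_iff_of_lt_minimalPeriod (Nat.mod_lt _ (dg_pos v)) (Nat.mod_lt _ (dg_pos v))).1 h
    rw [h2]
  obtain ⟨b, hb⟩ : ∃ b : (Fin (n + 1) → KB p) → KB p, ∀ v ∈ S, ∀ s, b ((Fr p)^[s] v) = y v ^ (p ^ s) := by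
    refine ⟨fun t => if h : ∃ q : (Fin (n + 1) → KB p) × ℕ, q.1 ∈ S ∧ (Fr p)^[q.2] q.1 = t then
      y h.choose.1 ^ (p ^ h.choose.2) else 0, fun v hv s => ?_⟩
    have h : ∃ q : (Fin (n + 1) → KB p) × ℕ, q.1 ∈ S ∧ (Fr p)^[q.2] q.1 = (Fr p)^[s] v := ⟨(v, s), hv, rfl⟩
    simp only [dif_pos h]
    exact key _ h.choose_spec.1 v hv _ _ h.choose_spec.2
  obtain ⟨T, hT⟩ : ∃ T, T = S.biUnion fun v => (range (dg v)).image fun s => (Fr p)^[s] v := ⟨_, rfl⟩
  have hTc : T.card ≤ D + 1 := by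
    rw [hT]
    refine card_biUnion_le.trans (le_trans (sum_le_sum fun v _ => ?_) hD)
    exact card_image_le.trans (by rw [card_range])
  have hTN : ∀ v ∈ T, v ∈ Nv n (KB p) := by
    intro v hv
    rw [hT, mem_biUnion] at hv
    obtain ⟨w, hw, hv⟩ := hv
    obtain ⟨s, _, rfl⟩ := mem_image.1 hv
    exact Nv_Fr (hN w hw) s
  have hTm : ∀ v ∈ S, ∀ s, (Fr p)^[s] v ∈ T := by
    intro v hv s
    rw [hT, mem_biUnion]
    refine ⟨v, hv, mem_image.2 ⟨s % dg v, mem_range.2 (Nat.mod_lt _ (dg_pos v)), Fr_mod v s⟩⟩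
  obtain ⟨c, hc⟩ := interp (D := D) T hTN hTc b
  choose l hl1 hl2 using fun ν => exists_fix (c ν)
  obtain ⟨L, hL⟩ : ∃ L, L = (∏ v ∈ S, dg v) * ∏ ν, l ν := ⟨_, rfl⟩
  have hL1 : 1 ≤ L := by
    rw [hL]
    exact Nat.mul_pos (prod_pos fun v _ => dg_pos v) (prod_pos fun ν _ => hl1 ν)
  obtain ⟨c₀, hc₀1, hc₀2⟩ := exists_trace_one (p := p) hL1
  have hcL : ∀ ν, (c₀ * c ν) ^ (p ^ L) = c₀ * c ν := by
    intro ν
    rw [mul_pow, hc₀1, fix_dvd (hl2 ν) (by rw [hL]; exact dvd_mul_of_dvd_right (dvd_prod_of_mem l (mem_univ ν)) _)]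
  choose a ha using fun ν => mem_prime (frob_shift (hcL ν))
  refine ⟨a, fun v hv => ?_⟩
  have hdv : dg v ∣ L := by
    rw [hL]
    exact dvd_mul_of_dvd_left (dvd_prod_of_mem _ hv) _
  have hback : ∀ s ∈ range L, (Fr p)^[s] ((Fr p)^[L - s] v) = v := by
    intro s hs
    have h1 := mem_range.1 hs
    rw [← Function.iterate_add_apply, show s + (L - s) = L by omega, ← Fr_mod v L, Nat.mod_eq_zero_of_dvd hdv]
    rfl
  calc val v a = ∑ ν, (∑ s ∈ range L, (c₀ * c ν) ^ (p ^ s)) * mev v ν := by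
        unfold val
        exact sum_congr rfl fun ν _ => by rw [ha]
    _ = ∑ s ∈ range L, ∑ ν, (c₀ * c ν) ^ (p ^ s) * mev v ν := by
        simp only [sum_mul]
        exact sum_comm
    _ = ∑ s ∈ range L, (c₀ * y v ^ (p ^ (L - s))) ^ (p ^ s) := by
        refine sum_congr rfl fun s hs => ?_
        rw [← hb v hv (L - s), ← hc _ (hTm v hv (L - s)), mul_sum, sum_pow_char_pow]
        refine sum_congr rfl fun ν _ => ?_
        conv_lhs => rw [← hback s hs, mev_Fr]
        rw [← mul_pow, mul_assoc]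
    _ = ∑ s ∈ range L, c₀ ^ (p ^ s) * y v := by
        refine sum_congr rfl fun s hs => ?_
        rw [mul_pow, ← pow_mul, ← pow_add, Nat.sub_add_cancel (mem_range.1 hs).le, fix_dvd (hy v hv) hdv]
    _ = y v := by rw [← sum_mul, hc₀2, one_mul]

/-- the subgroup of the elements of the field with `p ^ e` elements -/
noncomputable def FG (p : ℕ) [hp : Fact p.Prime] (e : ℕ) : AddSubgroup (KB p) where
  carrier := {y | y ^ (p ^ e) = y}
  add_mem' := by
    intro a b ha hb
    show (a + b) ^ (p ^ e) = a + b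
    rw [add_pow_char_pow, show a ^ (p ^ e) = a from ha, show b ^ (p ^ e) = b from hb]
  zero_mem' := by
    show (0 : KB p) ^ (p ^ e) = 0
    rw [zero_pow (pow_ne_zero _ hp.out.ne_zero)]
  neg_mem' := by
    intro a ha
    show (-a) ^ (p ^ e) = -a
    have h1 : (-a + a) ^ (p ^ e) = (-a) ^ (p ^ e) + a ^ (p ^ e) := add_pow_char_pow _ _ _ _
    rw [neg_add_cancel, zero_pow (pow_ne_zero _ hp.out.ne_zero), show a ^ (p ^ e) = a from ha] at h1
    exact (eq_neg_of_add_eq_zero_left h1.symm)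

theorem FG_coe {e : ℕ} (he : 1 ≤ e) : (FG p e : Set (KB p)) = ↑(Fx p e) := by
  ext x
  rw [mem_coe, mem_Fx he]
  rfl

/-- the indicator of a zero -/
noncomputable def Xi {D : ℕ} (v : Fin (n + 1) → KB p) (c : Mon n D → ZMod p) : ℝ :=
  open scoped Classical in if val v c = 0 then 1 else 0

theorem ind_Xi {D : ℕ} (Ω : Finset (Fin (n + 1) → KB p)) (hS : Sep Ω) (hN : ∀ v ∈ Ω, v ∈ Nv n (KB p)) :
    Ind (fun (v : Fin (n + 1) → KB p) (c : Mon n D → ZMod p) => Xi v c) (fun v => 1 / (p : ℝ) ^ dg v) dg Ω (D + 1) := by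
  classical
  refine ⟨fun v c => ?_, fun S hSΩ hw => ?_⟩
  · unfold Xi
    split_ifs <;> simp
  · have hft : ∀ v : S, Finite (FG p (dg v.1)) := fun v => by
      have h1 : (FG p (dg v.1) : Set (KB p)).Finite := by
        rw [FG_coe (dg_pos _)]
        exact finite_toSet _
      exact h1
    have hfi : ∀ v : S, Fintype (FG p (dg v.1)) := fun v => Fintype.ofFinite _
    have hcard : ∀ v : S, Fintype.card (FG p (dg v.1)) = p ^ dg v.1 := fun v => by
      rw [← Nat.card_eq_fintype_card]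
      have h2 := Set.ncard_coe_finset (Fx p (dg v.1))
      rw [← FG_coe (dg_pos v.1), card_Fx (dg_pos v.1)] at h2
      exact h2
    obtain ⟨φ, hφ⟩ : ∃ φ : (Mon n D → ZMod p) →+ (∀ v : S, FG p (dg v.1)), ∀ c v, (φ c v : KB p) = val v.1 c := by
      refine ⟨{ toFun := fun c v => ⟨val v.1 c, val_fix _ _⟩
                map_zero' := ?_
                map_add' := ?_ }, fun c v => rfl⟩
      · funext v
        apply Subtype.ext
        simp [val]
      · intro c c'
        funext v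
        apply Subtype.ext
        simp [val, add_mul, sum_add_distrib]
    have hsurj : Function.Surjective φ := by
      intro y
      obtain ⟨c, hc⟩ := surj (D := D) S (fun v hv w hw h => hS v (hSΩ hv) w (hSΩ hw) h) (fun v hv => hN v (hSΩ hv)) hw
        (fun v => if h : v ∈ S then (y ⟨v, h⟩ : KB p) else 0) (fun v hv => by
          simp only [dif_pos hv]
          exact (y ⟨v, hv⟩).2)
      refine ⟨c, funext fun v => Subtype.ext ?_⟩
      rw [hφ, hc v.1 v.2, dif_pos v.2]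
    have h1 := av_hom φ hsurj (fun y => ∏ v : S, if (y v : KB p) = 0 then (1 : ℝ) else 0)
    have h2 : (fun c : Mon n D → ZMod p => ∏ v ∈ S, Xi v c) = fun c => ∏ v : S, if (φ c v : KB p) = 0 then (1 : ℝ) else 0 := by
      funext c
      rw [← prod_coe_sort]
      refine prod_congr rfl fun v _ => ?_
      rw [hφ]
      rfl
    rw [h2, h1, av_pi (fun (v : S) (x : FG p (dg v.1)) => if (x : KB p) = 0 then (1 : ℝ) else 0)]
    rw [← prod_coe_sort S]
    refine prod_congr rfl fun v _ => ?_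
    unfold av
    rw [hcard v]
    push_cast
    congr 1
    rw [sum_eq_single 0]
    · simp
    · intro b _ hb
      rw [if_neg]
      intro h
      exact hb (Subtype.ext h)
    · simp

/-! ### representatives -/

theorem exists_rep (Q : Finset (Fin (n + 1) → KB p)) : ∃ A ⊆ Q, Sep A ∧ ∀ v ∈ Q, ∃ a ∈ A, Orb a v := by
  classical
  obtain ⟨A, hA, hmax⟩ := exists_max_image (Q.powerset.filter fun A => Sep A) card
    ⟨∅, mem_filter.2 ⟨empty_mem_powerset _, fun v hv => absurd hv (notMem_empty v)⟩⟩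
  rw [mem_filter, mem_powerset] at hA
  refine ⟨A, hA.1, hA.2, fun v hv => ?_⟩
  by_contra hcon
  push Not at hcon
  have hvA : v ∉ A := fun h => hcon v h (Orb.refl v)
  have h1 : insert v A ∈ Q.powerset.filter fun A => Sep A := by
    rw [mem_filter, mem_powerset]
    refine ⟨insert_subset hv hA.1, fun x hx y hy h => ?_⟩
    rcases mem_insert.1 hx with h1 | h1
    · rcases mem_insert.1 hy with h2 | h2
      · rw [h1, h2]
      · rw [h1] at h
        exact absurd h.symm (hcon y h2)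
    · rcases mem_insert.1 hy with h2 | h2
      · rw [h2] at h
        exact absurd h (hcon x h1)
      · exact hA.2 x h1 y h2 h
  have h2 := hmax _ h1
  rw [card_insert_of_notMem hvA] at h2
  omega

theorem sum_rep {Q A : Finset (Fin (n + 1) → KB p)} {e : ℕ} (hA : A ⊆ Q) (hS : Sep A) (hAQ : ∀ v ∈ Q, ∃ a ∈ A, Orb a v)
    (hst : ∀ v ∈ Q, ∀ s, (Fr p)^[s] v ∈ Q) (he : ∀ v ∈ Q, dg v = e) (f : (Fin (n + 1) → KB p) → ℝ)
    (hf : ∀ v s, f ((Fr p)^[s] v) = f v) : ∑ v ∈ Q, f v = e * ∑ a ∈ A, f a := by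
  classical
  have h1 : ∑ v ∈ Q, f v = ∑ q ∈ A ×ˢ range e, f ((Fr p)^[q.2] q.1) := by
    symm
    refine sum_bij (fun q _ => (Fr p)^[q.2] q.1) (fun q hq => ?_) (fun q hq r hr h => ?_) (fun v hv => ?_) (fun q hq => rfl)
    · rw [mem_product] at hq
      exact hst _ (hA hq.1) _
    · rw [mem_product, mem_range] at hq hr
      have h2 : q.1 = r.1 := hS _ hq.1 _ hr.1 (Orb.trans ⟨q.2, h⟩ (Orb.symm ⟨r.2, rfl⟩))
      refine Prod.ext h2 ?_
      rw [h2] at h
      have h3 := he _ (hA hr.1)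
      unfold dg at h3
      exact (Function.iterate_eq_iterate_iff_of_lt_minimalPeriod (by rw [h3]; exact hq.2) (by rw [h3]; exact hr.2)).1 h
    · obtain ⟨a, ha, s, rfl⟩ := hAQ v hv
      have h3 := he _ (hA ha)
      refine ⟨(a, s % e), mem_product.2 ⟨ha, mem_range.2 (Nat.mod_lt _ ?_)⟩, ?_⟩
      · rw [← h3]
        exact dg_pos a
      · show (Fr p)^[s % e] a = (Fr p)^[s] a
        rw [← h3]
        exact Fr_mod a s
  rw [h1, sum_product]
  have h2 : ∀ a ∈ A, ∑ s ∈ range e, f ((Fr p)^[(a, s).2] (a, s).1) = e * f a := by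
    intro a _
    rw [sum_congr rfl fun s _ => hf a s, sum_const, card_range, nsmul_eq_mul]
  rw [sum_congr rfl h2, mul_sum]

end

end Run7.h3.ST
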