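import Pool.Agent.Run7.h3.ST.Orb

set_option autoImplicit false
set_option linter.unusedSectionVars false
set_option linter.unusedVariables false

/-! Points of hypersurfaces over finite fields and orbits of Frobenius. -/

namespace Run7.h3.ST

open Finset
open Pool.Agent.Y722.HS (Mon mev)
open scoped LinearAlgebra.Projectivization

section

variable {p : ℕ} [hp : Fact p.Prime] {n : ℕ}

/-- the normalised vectors over the field with `p ^ j` elements -/
noncomputable def VV (p : ℕ) [Fact p.Prime] (n j : ℕ) : Finset (Fin (n + 1) → KB p) := by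
  classical exact (Fintype.piFinset fun _ => Fx p j).filter fun v => v ∈ Nv n (KB p)

theorem mem_VV {j : ℕ} (hj : 1 ≤ j) {v : Fin (n + 1) → KB p} : v ∈ VV p n j ↔ v ∈ Nv n (KB p) ∧ dg v ∣ j := by
  classical
  unfold VV
  rw [mem_filter, Fintype.mem_piFinset, dg_dvd, and_comm]
  refine and_congr_right fun _ => forall_congr' fun i => mem_Fx hj

theorem nv_ne_zero {k : Type} [Field k] {v : Fin (n + 1) → k} (h : v ∈ Nv n k) : v ≠ 0 := by
  rintro rfl
  obtain ⟨i, hi, _⟩ := h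
  simp at hi

theorem mev_smul {D : ℕ} {k : Type} [Field k] (a : k) (v : Fin (n + 1) → k) (ν : Mon n D) : mev (a • v) ν = a ^ D * mev v ν := by
  unfold mev
  simp only [Pi.smul_apply, smul_eq_mul, mul_pow, prod_mul_distrib]
  rw [prod_pow_eq_pow_sum, ν.2]

theorem exists_nv {k : Type} [Field k] {v : Fin (n + 1) → k} (h : v ≠ 0) : ∃ a : k, a ≠ 0 ∧ a • v ∈ Nv n k := by
  classical
  obtain ⟨i, hi, hmin⟩ : ∃ i, v i ≠ 0 ∧ ∀ j < i, v j = 0 := by
    have hne : (univ.filter fun i => v i ≠ 0).Nonempty := by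
      by_contra hcon
      rw [not_nonempty_iff_eq_empty, filter_eq_empty_iff] at hcon
      apply h
      funext i
      have := hcon (mem_univ i)
      push Not at this
      exact this
    obtain ⟨i, hi, hmin⟩ := exists_min_image _ id hne
    refine ⟨i, (mem_filter.1 hi).2, fun j hj => ?_⟩
    by_contra hcon
    exact absurd (hmin j (mem_filter.2 ⟨mem_univ _, hcon⟩)) (not_le.2 hj)
  refine ⟨(v i)⁻¹, inv_ne_zero hi, i, ?_, fun j hj => ?_⟩
  · rw [Pi.smul_apply, smul_eq_mul, inv_mul_cancel₀ hi]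
  · rw [Pi.smul_apply, hmin j hj, smul_zero]

/-- the points of a projective set over a finite field are its normalised vectors -/
theorem card_proj {k : Type} [Field k] [Finite k] (Z : (Fin (n + 1) → k) → Prop) (hZ : ∀ (a : k) v, a ≠ 0 → (Z (a • v) ↔ Z v)) :
    Nat.card {P : ℙ k (Fin (n + 1) → k) // Z P.rep} = Nat.card {v : Fin (n + 1) → k // v ∈ Nv n k ∧ Z v} := by
  symm
  refine Nat.card_congr (Equiv.ofBijective
    (fun v : {v : Fin (n + 1) → k // v ∈ Nv n k ∧ Z v} => (⟨Projectivization.mk k v.1 (nv_ne_zero v.2.1), ?_⟩ : {P : ℙ k (Fin (n + 1) → k) // Z P.rep})) ⟨?_, ?_⟩)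
  · obtain ⟨a, ha⟩ := Projectivization.exists_smul_eq_mk_rep k v.1 (nv_ne_zero v.2.1)
    rw [← ha]
    exact (hZ a v.1 a.ne_zero).2 v.2.2
  · intro v w h
    have h1 := congrArg Subtype.val h
    simp only at h1
    rw [Projectivization.mk_eq_mk_iff'] at h1
    obtain ⟨a, ha⟩ := h1
    apply Subtype.ext
    by_contra hne
    obtain ⟨i, j, hij⟩ := Nv.ne v.2.1 w.2.1 hne
    apply hij
    rw [← ha]
    simp only [Pi.smul_apply, smul_eq_mul]
    ring
  · rintro ⟨P, hP⟩
    obtain ⟨a, ha, hv⟩ := exists_nv P.rep_nonzero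
    refine ⟨⟨a • P.rep, hv, (hZ a _ ha).2 hP⟩, Subtype.ext ?_⟩
    show Projectivization.mk k (a • P.rep) _ = P
    conv_rhs => rw [← P.mk_rep]
    rw [Projectivization.mk_eq_mk_iff']
    exact ⟨a, rfl⟩

theorem card_nv {k : Type} [Field k] [Finite k] : Nat.card {v : Fin (n + 1) → k // v ∈ Nv n k} = ∑ i ∈ range (n + 1), Nat.card k ^ i := by
  have h1 := card_proj (n := n) (k := k) (fun _ => True) (fun _ _ _ => Iff.rfl)
  have h2 : Nat.card {P : ℙ k (Fin (n + 1) → k) // True} = Nat.card (ℙ k (Fin (n + 1) → k)) :=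
    Nat.card_congr (Equiv.subtypeUnivEquiv fun _ => trivial)
  have h3 : Nat.card {v : Fin (n + 1) → k // v ∈ Nv n k ∧ True} = Nat.card {v : Fin (n + 1) → k // v ∈ Nv n k} :=
    Nat.card_congr (Equiv.subtypeEquivRight fun v => by simp)
  rw [← h3, ← h1, h2]
  exact Projectivization.card_of_finrank k _ (by simp)

theorem range_emb {k : Type} [Field k] [Finite k] {j : ℕ} (hj : 1 ≤ j) (hk : Nat.card k = p ^ j) (σ : k →+* KB p) (x : KB p) :
    x ^ (p ^ j) = x ↔ ∃ y, σ y = x := by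
  classical
  have hfk : Fintype k := Fintype.ofFinite k
  have hkc : Fintype.card k = p ^ j := by rw [← Nat.card_eq_fintype_card, hk]
  have h1 : univ.image σ ⊆ Fx p j := by
    intro y hy
    obtain ⟨a, _, rfl⟩ := mem_image.1 hy
    rw [mem_Fx hj, ← map_pow, ← hkc, FiniteField.pow_card]
  have h2 : (univ.image σ).card = p ^ j := by
    rw [card_image_of_injective _ σ.injective, card_univ, hkc]
  have h3 : univ.image σ = Fx p j := eq_of_subset_of_card_le h1 (by rw [h2, card_Fx hj])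
  rw [← mem_Fx hj, ← h3, mem_image]
  simp

theorem card_emb {k : Type} [Field k] [Finite k] {j : ℕ} (hj : 1 ≤ j) (hk : Nat.card k = p ^ j) (σ : k →+* KB p)
    (Z : (Fin (n + 1) → KB p) → Prop) [DecidablePred Z] :
    Nat.card {v : Fin (n + 1) → k // v ∈ Nv n k ∧ Z (fun i => σ (v i))} = ((VV p n j).filter Z).card := by
  classical
  have h0 : ((VV p n j).filter Z).card = Nat.card ((VV p n j).filter Z) := by
    rw [Nat.card_eq_fintype_card, Fintype.card_coe]
  rw [h0]
  have hNv : ∀ v : Fin (n + 1) → k, (fun i => σ (v i)) ∈ Nv n (KB p) ↔ v ∈ Nv n k := by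
    intro v
    constructor
    · rintro ⟨i, hi, hj⟩
      refine ⟨i, σ.injective (by rw [map_one]; exact hi), fun j h => σ.injective (by rw [map_zero]; exact hj j h)⟩
    · rintro ⟨i, hi, hj⟩
      refine ⟨i, ?_, fun j h => ?_⟩
      · show σ (v i) = 1
        rw [hi, map_one]
      · show σ (v j) = 0
        rw [hj j h, map_zero]
  refine Nat.card_congr (Equiv.ofBijective
    (fun v : {v : Fin (n + 1) → k // v ∈ Nv n k ∧ Z (fun i => σ (v i))} => (⟨fun i => σ (v.1 i), ?_⟩ : (VV p n j).filter Z)) ⟨?_, ?_⟩)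
  · rw [mem_filter, mem_VV hj]
    refine ⟨⟨(hNv v.1).2 v.2.1, ?_⟩, v.2.2⟩
    rw [dg_dvd]
    intro i
    exact (range_emb hj hk σ _).2 ⟨_, rfl⟩
  · intro v w h
    apply Subtype.ext
    funext i
    have h1 := congrArg Subtype.val h
    exact σ.injective (congrFun h1 i)
  · rintro ⟨w, hw⟩
    have hw' := hw
    rw [mem_filter, mem_VV hj, dg_dvd] at hw'
    choose v hv using fun i => (range_emb hj hk σ (w i)).1 (hw'.1.2 i)
    have h1 : (fun i => σ (v i)) = w := funext hv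
    refine ⟨⟨v, ?_, ?_⟩, Subtype.ext h1⟩
    · rw [← hNv, h1]
      exact hw'.1.1
    · rw [h1]
      exact hw'.2

/-- the number of the points over the field with `p ^ j` elements of a projective set over the prime field -/
theorem card_pts (k : Type) [Field k] [Algebra (ZMod p) k] [Finite k] {j : ℕ} (hj : 1 ≤ j) (hk : Nat.card k = p ^ j)
    (Z : (Fin (n + 1) → k) → Prop) (Z' : (Fin (n + 1) → KB p) → Prop) [DecidablePred Z']
    (hZ : ∀ (a : k) v, a ≠ 0 → (Z (a • v) ↔ Z v))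
    (hZZ : ∀ (σ : k →ₐ[ZMod p] KB p) (v : Fin (n + 1) → k), Z v ↔ Z' fun i => σ (v i)) :
    Nat.card {P : ℙ k (Fin (n + 1) → k) // Z P.rep} = ((VV p n j).filter Z').card := by
  have halg : Algebra.IsAlgebraic (ZMod p) k := by
    have : Module.Finite (ZMod p) k := Module.Finite.of_finite
    infer_instance
  rw [card_proj Z hZ, ← card_emb hj hk (IsAlgClosed.lift : k →ₐ[ZMod p] KB p).toRingHom Z']
  exact Nat.card_congr (Equiv.subtypeEquivRight fun v => and_congr_right fun _ => hZZ _ v)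

theorem card_VV {j : ℕ} (hj : 1 ≤ j) : (VV p n j).card = ∑ i ∈ range (n + 1), (p ^ j) ^ i := by
  classical
  have hk : Nat.card (GaloisField p j) = p ^ j := GaloisField.card p j (by omega)
  have hfin : Finite (GaloisField p j) := inferInstance
  have halg : Algebra.IsAlgebraic (ZMod p) (GaloisField p j) := by
    have : Module.Finite (ZMod p) (GaloisField p j) := Module.Finite.of_finite
    infer_instance
  have h1 := card_emb (n := n) hj hk (IsAlgClosed.lift : GaloisField p j →ₐ[ZMod p] KB p).toRingHom (fun _ => True)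
  rw [filter_true_of_mem fun _ _ => trivial] at h1
  rw [← h1, ← hk, ← card_nv]
  exact Nat.card_congr (Equiv.subtypeEquivRight fun v => by simp)

/-- a set which is stable under Frobenius -/
def Stab (W : (Fin (n + 1) → KB p) → Prop) : Prop := ∀ v s, W ((Fr p)^[s] v) ↔ W v

/-- the points of `W` over the field with `p ^ j` elements -/
noncomputable def VW (W : (Fin (n + 1) → KB p) → Prop) (j : ℕ) : Finset (Fin (n + 1) → KB p) := by
  classical exact (VV p n j).filter W

/-- the points of `W` of degree `e` -/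
noncomputable def QQ (W : (Fin (n + 1) → KB p) → Prop) (e : ℕ) : Finset (Fin (n + 1) → KB p) := by
  classical exact (VW W e).filter fun v => dg v = e

variable {W : (Fin (n + 1) → KB p) → Prop}

theorem mem_VW {j : ℕ} (hj : 1 ≤ j) {v : Fin (n + 1) → KB p} : v ∈ VW W j ↔ v ∈ Nv n (KB p) ∧ dg v ∣ j ∧ W v := by
  classical
  unfold VW
  rw [mem_filter, mem_VV hj, and_assoc]

theorem mem_QQ {e : ℕ} (he : 1 ≤ e) {v : Fin (n + 1) → KB p} : v ∈ QQ W e ↔ v ∈ Nv n (KB p) ∧ dg v = e ∧ W v := by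
  classical
  unfold QQ
  rw [mem_filter, mem_VW he]
  constructor
  · rintro ⟨⟨h1, _, h3⟩, h2⟩
    exact ⟨h1, h2, h3⟩
  · rintro ⟨h1, h2, h3⟩
    exact ⟨⟨h1, h2 ▸ dvd_refl _, h3⟩, h2⟩

theorem QQ_sub (e : ℕ) : QQ W e ⊆ VW W e := by
  classical
  unfold QQ
  exact filter_subset _ _

theorem sum_VW {j : ℕ} (hj : 1 ≤ j) (f : (Fin (n + 1) → KB p) → ℝ) :
    ∑ v ∈ VW W j, f v = ∑ e ∈ j.divisors, ∑ v ∈ QQ W e, f v := by
  classical
  rw [← sum_fiberwise_of_maps_to (g := dg) (t := j.divisors) (fun v hv => by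
    rw [Nat.mem_divisors]
    exact ⟨((mem_VW hj).1 hv).2.1, by omega⟩)]
  refine sum_congr rfl fun e he => sum_congr ?_ fun _ _ => rfl
  have he1 : 1 ≤ e := Nat.pos_of_mem_divisors he
  ext v
  rw [mem_filter, mem_VW hj, mem_QQ he1]
  constructor
  · rintro ⟨⟨h1, _, h3⟩, h2⟩
    exact ⟨h1, h2, h3⟩
  · rintro ⟨h1, h2, h3⟩
    exact ⟨⟨h1, h2 ▸ (Nat.mem_divisors.1 he).1, h3⟩, h2⟩

/-- representatives of the orbits of degree `e` -/
noncomputable def AA (W : (Fin (n + 1) → KB p) → Prop) (e : ℕ) : Finset (Fin (n + 1) → KB p) := (exists_rep (QQ W e)).choose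

theorem AA_sub (e : ℕ) : AA W e ⊆ QQ W e := (exists_rep (QQ W e)).choose_spec.1

theorem AA_sep (e : ℕ) : Sep (AA W e) := (exists_rep (QQ W e)).choose_spec.2.1

theorem AA_rep (e : ℕ) : ∀ v ∈ QQ W e, ∃ a ∈ AA W e, Orb a v := (exists_rep (QQ W e)).choose_spec.2.2

theorem AA_dg {e : ℕ} (he : 1 ≤ e) {v : Fin (n + 1) → KB p} (hv : v ∈ AA W e) : dg v = e := ((mem_QQ he).1 (AA_sub e hv)).2.1

theorem sum_QQ (hW : Stab W) {e : ℕ} (he : 1 ≤ e) (f : (Fin (n + 1) → KB p) → ℝ) (hf : ∀ v s, f ((Fr p)^[s] v) = f v) :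
    ∑ v ∈ QQ W e, f v = e * ∑ a ∈ AA W e, f a := by
  refine sum_rep (AA_sub e) (AA_sep e) (AA_rep e) (fun v hv s => ?_) (fun v hv => ((mem_QQ he).1 hv).2.1) f hf
  rw [mem_QQ he] at hv ⊢
  exact ⟨Nv_Fr hv.1 s, by rw [dg_Fr]; exact hv.2.1, (hW v s).2 hv.2.2⟩

theorem card_QQ (hW : Stab W) {e : ℕ} (he : 1 ≤ e) : ((QQ W e).card : ℝ) = e * (AA W e).card := by
  have h1 := sum_QQ hW he (fun _ => 1) (fun _ _ => rfl)
  simpa using h1

theorem Xi_Fr {D : ℕ} (c : Mon n D → ZMod p) (v : Fin (n + 1) → KB p) (s : ℕ) : Xi ((Fr p)^[s] v) c = Xi v c := by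
  unfold Xi
  rw [val_Fr]
  have h1 : val v c ^ p ^ s = 0 ↔ val v c = 0 := pow_eq_zero_iff (pow_ne_zero _ hp.out.ne_zero)
  by_cases h : val v c = 0
  · rw [if_pos (h1.2 h), if_pos h]
  · rw [if_neg (fun h' => h (h1.1 h')), if_neg h]

/-- the union of the representatives of degree at most `B` -/
noncomputable def Om (W : (Fin (n + 1) → KB p) → Prop) (B : ℕ) : Finset (Fin (n + 1) → KB p) := by
  classical exact (Icc 1 B).biUnion fun e => AA W e

theorem mem_Om {B : ℕ} {v : Fin (n + 1) → KB p} : v ∈ Om W B ↔ ∃ e ∈ Icc 1 B, v ∈ AA W e := by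
  classical
  unfold Om
  rw [mem_biUnion]

theorem ind_Om {D : ℕ} (B : ℕ) :
    Ind (fun (v : Fin (n + 1) → KB p) (c : Mon n D → ZMod p) => Xi v c) (fun v => 1 / (p : ℝ) ^ dg v) dg (Om W B) (D + 1) := by
  refine ind_Xi _ (fun v hv w hw h => ?_) (fun v hv => ?_)
  · obtain ⟨e, he, hv⟩ := mem_Om.1 hv
    obtain ⟨e', he', hw⟩ := mem_Om.1 hw
    have h1 := dg_orb h
    rw [AA_dg (mem_Icc.1 he).1 hv, AA_dg (mem_Icc.1 he').1 hw] at h1
    subst h1
    exact AA_sep _ v hv w hw h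
  · obtain ⟨e, he, hv⟩ := mem_Om.1 hv
    exact ((mem_QQ (mem_Icc.1 he).1).1 (AA_sub e hv)).1

theorem AA_disj {B : ℕ} : ((Icc 1 B : Finset ℕ) : Set ℕ).PairwiseDisjoint fun e => AA W e := by
  intro e he e' he' hne
  rw [Function.onFun, Finset.disjoint_left]
  intro v hv hv'
  exact hne ((AA_dg (mem_Icc.1 he).1 hv).symm.trans (AA_dg (mem_Icc.1 he').1 hv'))

end

end Run7.h3.ST
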