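import Pool.Agent.Run7.h3.ST.Lln

set_option autoImplicit false
set_option linter.unusedSectionVars false
set_option linter.unusedVariables false

/-! A law of large numbers for functions of the reductions of a random integer vector: all intervals of primes. -/

namespace Run7.h3.ST

open Finset
open Q282.CL

/-! ### the inequality of Rademacher and Menshov -/

/-- the sum of the squares of the dyadic blocks -/
def EE (f : ℕ → ℝ) : ℕ → ℕ → ℝ
  | 0, a => f a ^ 2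
  | k + 1, a => (∑ i ∈ range (2 ^ (k + 1)), f (a + i)) ^ 2 + EE f k a + EE f k (a + 2 ^ k)

theorem EE_nonneg (f : ℕ → ℝ) (k a : ℕ) : 0 ≤ EE f k a := by
  induction k generalizing a with
  | zero => exact sq_nonneg _
  | succ k ih =>
    unfold EE
    have h1 := ih a
    have h2 := ih (a + 2 ^ k)
    positivity

theorem block_le (f : ℕ → ℝ) (k a : ℕ) : (∑ i ∈ range (2 ^ k), f (a + i)) ^ 2 ≤ EE f k a := by
  cases k with
  | zero => simp [EE]
  | succ k =>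
    unfold EE
    have h1 := EE_nonneg f k a
    have h2 := EE_nonneg f k (a + 2 ^ k)
    linarith

theorem rm (f : ℕ → ℝ) (k : ℕ) : ∀ a Y : ℕ, Y ≤ 2 ^ k → (∑ i ∈ range Y, f (a + i)) ^ 2 ≤ (k + 1) * EE f k a := by
  induction k with
  | zero =>
    intro a Y hY
    rw [pow_zero] at hY
    rcases Nat.eq_zero_or_pos Y with rfl | h
    · simp only [range_zero, sum_empty]
      have := EE_nonneg f 0 a
      norm_num
      exact this
    · have : Y = 1 := by omega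
      subst this
      simp [EE]
  | succ k ih =>
    intro a Y hY
    have h1 := EE_nonneg f k a
    have h2 := EE_nonneg f k (a + 2 ^ k)
    have h3 : EE f (k + 1) a = (∑ i ∈ range (2 ^ (k + 1)), f (a + i)) ^ 2 + EE f k a + EE f k (a + 2 ^ k) := rfl
    have h4 := sq_nonneg (∑ i ∈ range (2 ^ (k + 1)), f (a + i))
    have hk : (0 : ℝ) ≤ k := Nat.cast_nonneg k
    rcases Nat.lt_or_ge (2 ^ k) Y with hlt | hge
    · have h5 : ∑ i ∈ range Y, f (a + i) = ∑ i ∈ range (2 ^ k), f (a + i) + ∑ i ∈ range (Y - 2 ^ k), f (a + 2 ^ k + i) := by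
        have h6 : Y = 2 ^ k + (Y - 2 ^ k) := by omega
        conv_lhs => rw [h6]
        rw [sum_range_add]
        simp only [add_assoc]
      rw [h5]
      have h7 := block_le f k a
      have h8 := ih (a + 2 ^ k) (Y - 2 ^ k) (by rw [pow_succ] at hY; omega)
      obtain ⟨x, hx⟩ : ∃ x, x = ∑ i ∈ range (2 ^ k), f (a + i) := ⟨_, rfl⟩
      obtain ⟨y, hy⟩ : ∃ y, y = ∑ i ∈ range (Y - 2 ^ k), f (a + 2 ^ k + i) := ⟨_, rfl⟩
      rw [← hx] at h7 ⊢
      rw [← hy] at h8 ⊢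
      have h9 : (x + y) ^ 2 ≤ (k + 2) * x ^ 2 + (k + 2) * (EE f k (a + 2 ^ k)) := by
        have hk1 : (0 : ℝ) < k + 1 := by linarith
        have h10 : (k + 1) * (x + y) ^ 2 ≤ (k + 1) * (k + 2) * x ^ 2 + (k + 2) * y ^ 2 := by
          nlinarith [sq_nonneg ((k + 1) * x - y)]
        have h11 : (k + 2) * y ^ 2 ≤ (k + 2) * ((k + 1) * EE f k (a + 2 ^ k)) := mul_le_mul_of_nonneg_left h8 (by linarith)
        have h12 : (k + 1) * (x + y) ^ 2 ≤ (k + 1) * ((k + 2) * x ^ 2 + (k + 2) * (EE f k (a + 2 ^ k))) := by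
          refine h10.trans ((add_le_add_right h11 _).trans (le_of_eq ?_))
          ring
        exact le_of_mul_le_mul_left h12 hk1
      rw [h3]
      push_cast
      nlinarith
    · refine (ih a Y hge).trans ?_
      rw [h3]
      push_cast
      nlinarith

theorem sum_EE {α : Type} (S : Finset α) (f : α → ℕ → ℝ) {C : ℝ} (k : ℕ) : ∀ a : ℕ,
    (∀ b Y : ℕ, b + Y ≤ a + 2 ^ k → ∑ t ∈ S, (∑ i ∈ range Y, f t (b + i)) ^ 2 ≤ C * Y) →
      ∑ t ∈ S, EE (f t) k a ≤ C * ((k + 1) * 2 ^ k) := by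
  induction k with
  | zero =>
    intro a h
    have h1 := h a 1 (by simp)
    simpa [EE] using h1
  | succ k ih =>
    intro a h
    have h1 := ih a (fun b Y hb => h b Y (by rw [pow_succ]; omega))
    have h2 := ih (a + 2 ^ k) (fun b Y hb => h b Y (by rw [pow_succ]; omega))
    have h3 := h a (2 ^ (k + 1)) le_rfl
    simp only [EE, sum_add_distrib]
    push_cast at h3 ⊢
    calc _ ≤ C * 2 ^ (k + 1) + C * ((k + 1) * 2 ^ k) + C * ((k + 1) * 2 ^ k) := add_le_add (add_le_add h3 h1) h2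
      _ = _ := by ring

/-! ### second moments -/

theorem sum_inv_sqrt (Y : ℕ) : ∑ i ∈ range Y, 1 / Real.sqrt ((i : ℝ) + 1) ≤ 2 * Real.sqrt Y := by
  induction Y with
  | zero => simp
  | succ Y ih =>
    rw [sum_range_succ]
    push_cast
    have h0 : (0 : ℝ) ≤ Y := Nat.cast_nonneg Y
    obtain ⟨x, hx⟩ : ∃ x, x = Real.sqrt Y := ⟨_, rfl⟩
    obtain ⟨y, hy⟩ : ∃ y, y = Real.sqrt ((Y : ℝ) + 1) := ⟨_, rfl⟩
    have hx0 : 0 ≤ x := by rw [hx]; exact Real.sqrt_nonneg _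
    have hy0 : 0 < y := by rw [hy]; exact Real.sqrt_pos.2 (by linarith)
    have hx2 : x ^ 2 = Y := by rw [hx]; exact Real.sq_sqrt h0
    have hy2 : y ^ 2 = Y + 1 := by rw [hy]; exact Real.sq_sqrt (by linarith)
    rw [← hx] at ih
    rw [← hy]
    have h1 : 1 / y ≤ 2 * (y - x) := by
      rw [div_le_iff₀ hy0]
      nlinarith [sq_nonneg (y - x)]
    linarith

section

variable {κ : Type} [Fintype κ] [DecidableEq κ]

open scoped Classical in
/-- the terms -/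
noncomputable def ff (X : (p : ℕ) → (κ → ZMod p) → ℝ) (w : ℕ → ℝ) (t : κ → ℤ) (i : ℕ) : ℝ :=
  if (i + 1).Prime then w (i + 1) * X (i + 1) (rd (i + 1) t) else 0

theorem pair {X : (p : ℕ) → (κ → ZMod p) → ℝ} {C₀ : ℝ} (hC₀ : 0 ≤ C₀)
    (hX1 : ∀ (p : ℕ) [Fact p.Prime], |av (X p)| ≤ C₀ * ep p) (hX2 : ∀ (p : ℕ) [Fact p.Prime], av (fun c => X p c ^ 2) ≤ C₀ ^ 2)
    {w : ℕ → ℝ} (hw : ∀ p, |w p| ≤ 1) (N : κ → ℤ) (L : κ → ℕ) {T : ℝ} (hT : ∀ i, T ≤ L i) {R : ℕ} (hR1 : 1 ≤ R) (hR : (R : ℝ) ^ 3 ≤ T) (i j : ℕ)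
    (hi : i < R) (hj : j < R) :
    |∑ t ∈ bx N L, ff X w t i * ff X w t j| ≤ (∏ l, (L l : ℝ)) * (C₀ ^ 2 * (1 / Real.sqrt ((i : ℝ) + 1) * (1 / Real.sqrt ((j : ℝ) + 1)) +
      (if i = j then 1 + 3 ^ Fintype.card κ else 0) + 3 ^ Fintype.card κ * ((R : ℝ) ^ 2 / T))) := by
  classical
  have hR1' : (1 : ℝ) ≤ R := by exact_mod_cast hR1
  have hT0 : 0 < T := lt_of_lt_of_le (by positivity) hR
  have hP : 0 ≤ ∏ l, (L l : ℝ) := prod_nonneg fun l _ => Nat.cast_nonneg _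
  have hA : (0 : ℝ) ≤ 3 ^ Fintype.card κ := by positivity
  have hR2T : (R : ℝ) ^ 2 ≤ T := le_trans (pow_le_pow_right₀ hR1' (by norm_num)) hR
  have hRT : (R : ℝ) ≤ T := le_trans (le_self_pow₀ hR1' (by norm_num)) hR
  have hnn : 0 ≤ (∏ l, (L l : ℝ)) * (C₀ ^ 2 * (1 / Real.sqrt ((i : ℝ) + 1) * (1 / Real.sqrt ((j : ℝ) + 1)) +
      (if i = j then 1 + 3 ^ Fintype.card κ else 0) + 3 ^ Fintype.card κ * ((R : ℝ) ^ 2 / T))) := by
    have : (0 : ℝ) ≤ if i = j then 1 + 3 ^ Fintype.card κ else 0 := by split_ifs <;> positivity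
    positivity
  have hw2 : ∀ p q, |w p * w q| ≤ 1 := by
    intro p q
    rw [abs_mul]
    exact mul_le_one₀ (hw p) (abs_nonneg _) (hw q)
  by_cases hip : (i + 1).Prime
  swap
  · simp only [ff, if_neg hip, zero_mul, sum_const_zero, abs_zero]
    exact hnn
  by_cases hjp : (j + 1).Prime
  swap
  · simp only [ff, if_neg hjp, mul_zero, sum_const_zero, abs_zero]
    exact hnn
  have hfi : Fact (i + 1).Prime := ⟨hip⟩
  have hfj : Fact (j + 1).Prime := ⟨hjp⟩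
  have hpos1 : 0 ≤ 1 / Real.sqrt ((i : ℝ) + 1) := by positivity
  have hpos2 : 0 ≤ 1 / Real.sqrt ((j : ℝ) + 1) := by positivity
  by_cases hij : i = j
  · subst hij
    rw [if_pos rfl]
    have h1 : ∀ t : κ → ℤ, ff X w t i * ff X w t i = w (i + 1) * w (i + 1) * (X (i + 1) (rd (i + 1) t) ^ 2) := by
      intro t
      simp only [ff, if_pos hip]
      ring
    simp only [h1]
    rw [← mul_sum, abs_mul]
    have h2 := sum_box (i + 1) N L hT (by
      have : ((i + 1 : ℕ) : ℝ) ≤ R := by exact_mod_cast hi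
      exact this.trans hRT) (fun c => X (i + 1) c ^ 2)
    simp only [abs_sq] at h2
    have h3 := hX2 (i + 1)
    have h3' : 0 ≤ av (fun c => X (i + 1) c ^ 2) := av_nonneg fun c => sq_nonneg _
    have h4 : |∑ t ∈ bx N L, X (i + 1) (rd (i + 1) t) ^ 2| ≤ (∏ l, (L l : ℝ)) * ((1 + 3 ^ Fintype.card κ) * C₀ ^ 2) := by
      have h5 := abs_sub_le (∑ t ∈ bx N L, X (i + 1) (rd (i + 1) t) ^ 2) ((∏ l, (L l : ℝ)) * av (fun c => X (i + 1) c ^ 2)) 0
      rw [sub_zero, sub_zero, abs_of_nonneg (mul_nonneg hP h3')] at h5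
      have h6 : ((i + 1 : ℕ) : ℝ) / T ≤ 1 := by
        rw [div_le_one hT0]
        have : ((i + 1 : ℕ) : ℝ) ≤ R := by exact_mod_cast hi
        exact this.trans hRT
      have h7 : 3 ^ Fintype.card κ * (((i + 1 : ℕ) : ℝ) / T) * (∏ l, (L l : ℝ)) * av (fun c => X (i + 1) c ^ 2) ≤
          3 ^ Fintype.card κ * 1 * (∏ l, (L l : ℝ)) * C₀ ^ 2 := by
        refine mul_le_mul ?_ h3 h3' (by positivity)
        exact mul_le_mul_of_nonneg_right (mul_le_mul_of_nonneg_left h6 hA) hP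
      have h8 : (∏ l, (L l : ℝ)) * av (fun c => X (i + 1) c ^ 2) ≤ (∏ l, (L l : ℝ)) * C₀ ^ 2 := mul_le_mul_of_nonneg_left h3 hP
      linarith
    have h9 : |w (i + 1) * w (i + 1)| * |∑ t ∈ bx N L, X (i + 1) (rd (i + 1) t) ^ 2| ≤ 1 * ((∏ l, (L l : ℝ)) * ((1 + 3 ^ Fintype.card κ) * C₀ ^ 2)) :=
      mul_le_mul (hw2 _ _) h4 (abs_nonneg _) zero_le_one
    refine h9.trans ?_
    rw [one_mul]
    refine mul_le_mul_of_nonneg_left ?_ hP
    rw [mul_comm]
    refine mul_le_mul_of_nonneg_left ?_ (by positivity)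
    have : 0 ≤ 1 / Real.sqrt ((i : ℝ) + 1) * (1 / Real.sqrt ((i : ℝ) + 1)) := by positivity
    have : 0 ≤ 3 ^ Fintype.card κ * ((R : ℝ) ^ 2 / T) := by positivity
    linarith
  · rw [if_neg hij]
    have hco : (i + 1).Coprime (j + 1) := (Nat.coprime_primes hip hjp).2 (by omega)
    have hNZ : NeZero ((i + 1) * (j + 1)) := ⟨Nat.mul_ne_zero (by omega) (by omega)⟩
    obtain ⟨h, hh1, hh2, hh3⟩ := av_crt hco (X (i + 1)) (X (j + 1))
    have h1 : ∀ t : κ → ℤ, ff X w t i * ff X w t j = w (i + 1) * w (j + 1) * h (rd ((i + 1) * (j + 1)) t) := by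
      intro t
      simp only [ff, if_pos hip, if_pos hjp]
      rw [hh1]
      ring
    simp only [h1]
    rw [← mul_sum, abs_mul]
    have hmR : (((i + 1) * (j + 1) : ℕ) : ℝ) ≤ (R : ℝ) ^ 2 := by
      rw [sq]
      exact_mod_cast Nat.mul_le_mul hi hj
    have h2 := sum_box ((i + 1) * (j + 1)) N L hT (hmR.trans hR2T) h
    rw [hh2, hh3] at h2
    have habs : ∀ (p : ℕ) [Fact p.Prime], av (fun c => |X p c|) ≤ C₀ := by
      intro p hp
      have h3 := hX2 p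
      -- Cauchy-Schwarz
      have h4 : av (fun c => |X p c|) ^ 2 ≤ av (fun c => X p c ^ 2) := by
        have h5 : 0 ≤ av (fun c => (|X p c| - av (fun c => |X p c|)) ^ 2) := av_nonneg fun c => sq_nonneg _
        have h6 : (fun c => (|X p c| - av (fun c => |X p c|)) ^ 2) = fun c =>
            (X p c ^ 2 - (2 * av (fun c => |X p c|)) * |X p c|) + av (fun c => |X p c|) ^ 2 := by
          funext c
          rw [sub_sq, sq_abs]
          ring
        rw [h6, av_add, av_sub, Q282.CL.av_mul, av_const] at h5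
        nlinarith
      exact abs_le_of_sq_le_sq' (h4.trans h3) hC₀ |>.2
    have h3 : |∑ t ∈ bx N L, h (rd ((i + 1) * (j + 1)) t)| ≤ (∏ l, (L l : ℝ)) * (C₀ ^ 2 * (1 / Real.sqrt ((i : ℝ) + 1) * (1 / Real.sqrt ((j : ℝ) + 1)) +
        3 ^ Fintype.card κ * ((R : ℝ) ^ 2 / T))) := by
      have h5 := abs_sub_le (∑ t ∈ bx N L, h (rd ((i + 1) * (j + 1)) t)) ((∏ l, (L l : ℝ)) * (av (X (i + 1)) * av (X (j + 1)))) 0
      rw [sub_zero, sub_zero, abs_mul, abs_of_nonneg hP, abs_mul] at h5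
      have h6 : |av (X (i + 1))| * |av (X (j + 1))| ≤ (C₀ * (1 / Real.sqrt ((i : ℝ) + 1))) * (C₀ * (1 / Real.sqrt ((j : ℝ) + 1))) := by
        have e1 := hX1 (i + 1)
        have e2 := hX1 (j + 1)
        unfold ep at e1 e2
        push_cast at e1 e2
        exact mul_le_mul e1 e2 (abs_nonneg _) (by positivity)
      have h7 : 3 ^ Fintype.card κ * ((((i + 1) * (j + 1) : ℕ) : ℝ) / T) * (∏ l, (L l : ℝ)) * (av (fun c => |X (i + 1) c|) * av (fun c => |X (j + 1) c|)) ≤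
          3 ^ Fintype.card κ * ((R : ℝ) ^ 2 / T) * (∏ l, (L l : ℝ)) * (C₀ * C₀) := by
        have a1 : 0 ≤ av (fun c => |X (i + 1) c|) := av_nonneg fun c => abs_nonneg _
        have a2 : 0 ≤ av (fun c => |X (j + 1) c|) := av_nonneg fun c => abs_nonneg _
        refine mul_le_mul ?_ (mul_le_mul (habs _) (habs _) a2 hC₀) (mul_nonneg a1 a2) (by positivity)
        refine mul_le_mul_of_nonneg_right (mul_le_mul_of_nonneg_left ?_ hA) hP
        exact div_le_div_of_nonneg_right hmR hT0.le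
      have h8 := mul_le_mul_of_nonneg_left h6 hP
      calc _ ≤ _ := h5
        _ ≤ 3 ^ Fintype.card κ * ((R : ℝ) ^ 2 / T) * (∏ l, (L l : ℝ)) * (C₀ * C₀) +
            (∏ l, (L l : ℝ)) * ((C₀ * (1 / Real.sqrt ((i : ℝ) + 1))) * (C₀ * (1 / Real.sqrt ((j : ℝ) + 1)))) := add_le_add (h2.trans h7) h8
        _ = _ := by ring
    rw [add_zero]
    have h9 := mul_le_mul (hw2 (i + 1) (j + 1)) h3 (abs_nonneg _) zero_le_one
    rw [one_mul] at h9
    exact h9

theorem second {X : (p : ℕ) → (κ → ZMod p) → ℝ} {C₀ : ℝ} (hC₀ : 0 ≤ C₀)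
    (hX1 : ∀ (p : ℕ) [Fact p.Prime], |av (X p)| ≤ C₀ * ep p) (hX2 : ∀ (p : ℕ) [Fact p.Prime], av (fun c => X p c ^ 2) ≤ C₀ ^ 2)
    {w : ℕ → ℝ} (hw : ∀ p, |w p| ≤ 1) (N : κ → ℤ) (L : κ → ℕ) {T : ℝ} (hT : ∀ i, T ≤ L i) {R : ℕ} (hR1 : 1 ≤ R) (hR : (R : ℝ) ^ 3 ≤ T) (a Y : ℕ)
    (hY : a + Y ≤ R) :
    ∑ t ∈ bx N L, (∑ i ∈ range Y, ff X w t (a + i)) ^ 2 ≤ (∏ l, (L l : ℝ)) * (C₀ ^ 2 * (5 + 2 * 3 ^ Fintype.card κ)) * Y := by
  classical
  have hR1' : (1 : ℝ) ≤ R := by exact_mod_cast hR1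
  have hT0 : 0 < T := lt_of_lt_of_le (by positivity) hR
  have hP : 0 ≤ ∏ l, (L l : ℝ) := prod_nonneg fun l _ => Nat.cast_nonneg _
  have hA : (0 : ℝ) ≤ 3 ^ Fintype.card κ := by positivity
  have h1 : ∑ t ∈ bx N L, (∑ i ∈ range Y, ff X w t (a + i)) ^ 2 = ∑ i ∈ range Y, ∑ j ∈ range Y, ∑ t ∈ bx N L, ff X w t (a + i) * ff X w t (a + j) := by
    simp only [sq, sum_mul_sum]
    rw [sum_comm]
    refine sum_congr rfl fun i _ => ?_
    rw [sum_comm]
  rw [h1]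
  have h2 : ∀ i ∈ range Y, ∀ j ∈ range Y, ∑ t ∈ bx N L, ff X w t (a + i) * ff X w t (a + j) ≤
      (∏ l, (L l : ℝ)) * (C₀ ^ 2 * (1 / Real.sqrt ((i : ℝ) + 1) * (1 / Real.sqrt ((j : ℝ) + 1)) +
      (if i = j then 1 + 3 ^ Fintype.card κ else 0) + 3 ^ Fintype.card κ * ((R : ℝ) ^ 2 / T))) := by
    intro i hi j hj
    have hi' := mem_range.1 hi
    have hj' := mem_range.1 hj
    refine (le_abs_self _).trans ((pair hC₀ hX1 hX2 hw N L hT hR1 hR (a + i) (a + j) (by omega) (by omega)).trans ?_)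
    refine mul_le_mul_of_nonneg_left (mul_le_mul_of_nonneg_left ?_ (by positivity)) hP
    have h3 : ∀ i : ℕ, 1 / Real.sqrt (((a + i : ℕ) : ℝ) + 1) ≤ 1 / Real.sqrt ((i : ℝ) + 1) := by
      intro i
      refine div_le_div_of_nonneg_left zero_le_one (Real.sqrt_pos.2 (by positivity)) (Real.sqrt_le_sqrt ?_)
      push_cast
      have : (0 : ℝ) ≤ a := Nat.cast_nonneg a
      linarith
    have h4 := mul_le_mul (h3 i) (h3 j) (by positivity) (by positivity)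
    have h5 : (if a + i = a + j then (1 + 3 ^ Fintype.card κ : ℝ) else 0) = if i = j then 1 + 3 ^ Fintype.card κ else 0 := by
      by_cases h : i = j
      · rw [if_pos (by omega), if_pos h]
      · rw [if_neg (by omega), if_neg h]
    rw [h5]
    linarith
  refine (sum_le_sum fun i hi => sum_le_sum fun j hj => h2 i hi j hj).trans ?_
  simp only [← mul_sum, sum_add_distrib]
  rw [mul_assoc (∏ l, (L l : ℝ)), mul_assoc (C₀ ^ 2)]
  refine mul_le_mul_of_nonneg_left (mul_le_mul_of_nonneg_left ?_ (by positivity)) hP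
  have h3 : ∑ i ∈ range Y, 1 / Real.sqrt ((i : ℝ) + 1) * ∑ j ∈ range Y, 1 / Real.sqrt ((j : ℝ) + 1) ≤ 4 * Y := by
    rw [← sum_mul]
    have h4 := sum_inv_sqrt Y
    have h5 : 0 ≤ ∑ i ∈ range Y, 1 / Real.sqrt ((i : ℝ) + 1) := sum_nonneg fun i _ => by positivity
    calc _ ≤ (2 * Real.sqrt Y) * (2 * Real.sqrt Y) := mul_le_mul h4 h4 h5 (by positivity)
      _ = 4 * (Real.sqrt Y * Real.sqrt Y) := by ring
      _ = 4 * Y := by rw [Real.mul_self_sqrt (Nat.cast_nonneg _)]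
  obtain ⟨A, hAe⟩ : ∃ A : ℝ, A = (3 : ℝ) ^ Fintype.card κ := ⟨_, rfl⟩
  rw [← hAe] at hA ⊢
  have h4 : ∑ i ∈ range Y, ∑ j ∈ range Y, (if i = j then (1 + A) else 0) = Y * (1 + A) := by
    have h5 : ∀ i ∈ range Y, ∑ j ∈ range Y, (if i = j then (1 + A) else 0) = 1 + A := by
      intro i hi
      rw [sum_ite_eq, if_pos hi]
    rw [sum_congr rfl h5, sum_const, card_range, nsmul_eq_mul]
  have h5 : A * ∑ _i ∈ range Y, ∑ _j ∈ range Y, ((R : ℝ) ^ 2 / T) ≤ A * (Y : ℝ) := by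
    refine mul_le_mul_of_nonneg_left ?_ hA
    simp only [sum_const, card_range, nsmul_eq_mul]
    have h6 : (Y : ℝ) ≤ R := by exact_mod_cast (by omega : Y ≤ R)
    have h7 : (Y : ℝ) * ((R : ℝ) ^ 2 / T) ≤ 1 := by
      rw [mul_div_assoc', div_le_one hT0]
      calc (Y : ℝ) * (R : ℝ) ^ 2 ≤ R * (R : ℝ) ^ 2 := mul_le_mul_of_nonneg_right h6 (by positivity)
        _ = (R : ℝ) ^ 3 := by ring
        _ ≤ T := hR
    have hY0 : (0 : ℝ) ≤ Y := Nat.cast_nonneg Y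
    exact mul_le_of_le_one_right hY0 h7
  rw [h4]
  have h8 : ∑ i ∈ range Y, A * ∑ i ∈ range Y, (R : ℝ) ^ 2 / T = A * ∑ _i ∈ range Y, ∑ _j ∈ range Y, ((R : ℝ) ^ 2 / T) := by
    simp only [mul_sum]
  linarith

end

end Run7.h3.ST
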