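import Pool.Agent.Run7.h3.ST.Pts
import Pool.Agent.Run7.h3.ST.Mom

set_option autoImplicit false
set_option linter.unusedSectionVars false
set_option linter.unusedVariables false

/-! The normalised traces in terms of the centred sums over orbits. -/

namespace Run7.h3.ST

open Finset
open Pool.Agent.Y722.HS (Mon mev)
open Q282.CL
open Q282MM (gm)

section

variable {p : ℕ} [hp : Fact p.Prime] {n : ℕ}

/-- the normalising factor -/
noncomputable def sp (p n : ℕ) : ℝ := Real.sqrt p ^ (n - 1)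

theorem sp_sq (p n : ℕ) : sp p n ^ 2 = (p : ℝ) ^ (n - 1) := by
  unfold sp
  rw [← pow_mul, mul_comm, pow_mul, Real.sq_sqrt (Nat.cast_nonneg _)]

theorem one_le_p : (1 : ℝ) ≤ p := by exact_mod_cast hp.out.one_lt.le

theorem p_pos : (0 : ℝ) < p := by exact_mod_cast hp.out.pos

theorem one_le_sqrt : 1 ≤ Real.sqrt p := Real.one_le_sqrt.2 (one_le_p (p := p))

theorem one_le_sp : 1 ≤ sp p n := one_le_pow₀ (one_le_sqrt (p := p))

theorem sp_pos : 0 < sp p n := lt_of_lt_of_le one_pos one_le_sp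

theorem sqrt_le_sp (hn : 2 ≤ n) : Real.sqrt p ≤ sp p n := by
  unfold sp
  exact le_self_pow₀ (one_le_sqrt (p := p)) (by omega)

theorem sp_pow_sq (e : ℕ) : (sp p n ^ e) ^ 2 = ((p : ℝ) ^ e) ^ (n - 1) := by
  rw [← pow_mul, mul_comm, pow_mul, sp_sq, ← pow_mul, ← pow_mul, mul_comm]

/-- the error unit -/
noncomputable def ep (p : ℕ) : ℝ := 1 / Real.sqrt p

theorem ep_pos : 0 < ep p := div_pos one_pos (lt_of_lt_of_le one_pos (one_le_sqrt (p := p)))

theorem ep_le_one : ep p ≤ 1 := by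
  unfold ep
  rw [div_le_one (lt_of_lt_of_le one_pos (one_le_sqrt (p := p)))]
  exact one_le_sqrt (p := p)

theorem inv_p_le : 1 / (p : ℝ) ≤ ep p := by
  unfold ep
  have h1 := one_le_sqrt (p := p)
  have h2 := Real.mul_self_sqrt (p_pos (p := p)).le
  rw [div_le_div_iff₀ p_pos (by linarith), one_mul, one_mul]
  nlinarith

theorem inv_sp_le (hn : 2 ≤ n) : 1 / sp p n ≤ ep p := by
  unfold ep
  exact div_le_div_of_nonneg_left zero_le_one (lt_of_lt_of_le one_pos (one_le_sqrt (p := p))) (sqrt_le_sp hn)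

variable {W : (Fin (n + 1) → KB p) → Prop} {d B : ℕ} {C₀ : ℝ}

/-- the set `W` has about `p ^ d` points -/
structure Sz (W : (Fin (n + 1) → KB p) → Prop) (d B : ℕ) (C₀ : ℝ) : Prop where
  stab : Stab W
  near : ∀ e ∈ Icc 1 B, |((VW W e).card : ℝ) - ((p : ℝ) ^ e) ^ d| ≤ C₀ * (((p : ℝ) ^ e) ^ d * ep p)

theorem Sz.nonneg (h : Sz W d B C₀) (hB : 1 ≤ B) : 0 ≤ C₀ := by
  have h1 := (abs_nonneg _).trans (h.near 1 (mem_Icc.2 ⟨le_rfl, hB⟩))
  have h2 : 0 < ((p : ℝ) ^ 1) ^ d * ep p := mul_pos (pow_pos (pow_pos p_pos _) _) (ep_pos (p := p))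
  exact nonneg_of_mul_nonneg_left h1 h2

theorem vw_le (h : Sz W d B C₀) (hC₀ : 0 ≤ C₀) {e : ℕ} (he : e ∈ Icc 1 B) : ((VW W e).card : ℝ) ≤ (1 + C₀) * ((p : ℝ) ^ e) ^ d := by
  have h1 := (abs_le.1 (h.near e he)).2
  have h2 : 0 ≤ ((p : ℝ) ^ e) ^ d := by positivity
  have h3 : C₀ * (((p : ℝ) ^ e) ^ d * ep p) ≤ C₀ * (((p : ℝ) ^ e) ^ d * 1) :=
    mul_le_mul_of_nonneg_left (mul_le_mul_of_nonneg_left (ep_le_one (p := p)) h2) hC₀
  linarith

theorem qq_le (h : Sz W d B C₀) (hC₀ : 0 ≤ C₀) {e : ℕ} (he : e ∈ Icc 1 B) : ((QQ W e).card : ℝ) ≤ (1 + C₀) * ((p : ℝ) ^ e) ^ d := by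
  have h1 : ((QQ W e).card : ℝ) ≤ (VW W e).card := by exact_mod_cast card_le_card (QQ_sub e)
  exact h1.trans (vw_le h hC₀ he)

theorem sum_qq {j : ℕ} (hj : 1 ≤ j) : ∑ e ∈ j.divisors, ((QQ W e).card : ℝ) = (VW W j).card := by
  have h1 := sum_VW (W := W) hj (fun _ => 1)
  simp only [sum_const, nsmul_eq_mul, mul_one] at h1
  rw [← h1]

theorem qq_eq {j : ℕ} (hj : 1 ≤ j) : ((QQ W j).card : ℝ) = (VW W j).card - ∑ e ∈ j.properDivisors, ((QQ W e).card : ℝ) := by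
  have h1 := sum_qq (W := W) hj
  rw [← Nat.cons_self_properDivisors (by omega), sum_cons] at h1
  linarith

/-- the number of the points of degree `e` -/
theorem qq_near (h : Sz W d B C₀) (hC₀ : 0 ≤ C₀) (hd : 1 ≤ d) {e : ℕ} (he : e ∈ Icc 1 B) :
    |((QQ W e).card : ℝ) / ((p : ℝ) ^ e) ^ d - 1| ≤ (C₀ + e * (1 + C₀)) * ep p := by
  have he1 := (mem_Icc.1 he).1
  have hp1 := one_le_p (p := p)
  have hpe : (1 : ℝ) ≤ (p : ℝ) ^ e := one_le_pow₀ hp1
  have hpen : (0 : ℝ) < ((p : ℝ) ^ e) ^ d := by positivity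
  have hie := inv_p_le (p := p)
  rw [div_sub_one hpen.ne', abs_div, abs_of_pos hpen, div_le_iff₀ hpen, qq_eq he1]
  have h2 : ∑ x ∈ e.properDivisors, ((QQ W x).card : ℝ) ≤ e * ((1 + C₀) * (ep p * ((p : ℝ) ^ e) ^ d)) := by
    have h3 : ∀ x ∈ e.properDivisors, ((QQ W x).card : ℝ) ≤ (1 + C₀) * (ep p * ((p : ℝ) ^ e) ^ d) := by
      intro x hx
      have hx' := Nat.mem_properDivisors.1 hx
      have hx1 : 1 ≤ x := Nat.pos_of_dvd_of_pos hx'.1 (by omega)
      have hxB : x ∈ Icc 1 B := mem_Icc.2 ⟨hx1, hx'.2.le.trans (mem_Icc.1 he).2⟩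
      refine (qq_le h hC₀ hxB).trans (mul_le_mul_of_nonneg_left ?_ (by positivity))
      have h4 : ((p : ℝ) ^ x) ^ d * p ≤ ((p : ℝ) ^ e) ^ d := by
        rw [← pow_mul, ← pow_mul, ← pow_succ]
        refine pow_le_pow_right₀ hp1 ?_
        have h5 : (x + 1) * d ≤ e * d := Nat.mul_le_mul_right d (by omega)
        have h6 : (x + 1) * d = x * d + d := by ring
        omega
      calc ((p : ℝ) ^ x) ^ d = (1 / p) * (((p : ℝ) ^ x) ^ d * p) := by
            have := (p_pos (p := p)).ne'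
            field_simp
        _ ≤ (1 / p) * ((p : ℝ) ^ e) ^ d := mul_le_mul_of_nonneg_left h4 (by positivity)
        _ ≤ ep p * ((p : ℝ) ^ e) ^ d := mul_le_mul_of_nonneg_right hie hpen.le
    refine (sum_le_sum h3).trans ?_
    rw [sum_const, nsmul_eq_mul]
    refine mul_le_mul_of_nonneg_right ?_ (by have := (ep_pos (p := p)).le; positivity)
    have h4 : e.properDivisors.card ≤ e := by
      have h5 : e.properDivisors ⊆ range e := fun d hd => mem_range.2 (Nat.mem_properDivisors.1 hd).2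
      simpa using card_le_card h5
    exact_mod_cast h4
  have h4 : (0 : ℝ) ≤ ∑ x ∈ e.properDivisors, ((QQ W x).card : ℝ) := sum_nonneg fun i _ => by positivity
  have h5 := h.near e he
  have h6 : ((VW W e).card : ℝ) - ∑ x ∈ e.properDivisors, ((QQ W x).card : ℝ) - ((p : ℝ) ^ e) ^ d =
      (((VW W e).card : ℝ) - ((p : ℝ) ^ e) ^ d) - ∑ x ∈ e.properDivisors, ((QQ W x).card : ℝ) := by ring
  rw [h6]
  refine (abs_sub _ _).trans ?_
  rw [abs_of_nonneg h4]
  calc _ ≤ C₀ * (((p : ℝ) ^ e) ^ d * ep p) + e * ((1 + C₀) * (ep p * ((p : ℝ) ^ e) ^ d)) := add_le_add h5 h2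
    _ = _ := by ring

/-- the parity -/
def eta (j : ℕ) : ℝ := if Even j then 1 else 0

/-- the mean of the normalised trace -/
noncomputable def Mj (W : (Fin (n + 1) → KB p) → Prop) (d : ℕ) (c : ℕ → ℝ) (j : ℕ) : ℝ :=
  (∑ e ∈ j.divisors, ((QQ W e).card : ℝ) / (p : ℝ) ^ e - c j) / sp p d ^ j

theorem Mj_eq {c : ℕ → ℝ} {j : ℕ} (hj : 1 ≤ j) : Mj W d c j =
    (((VW W j).card : ℝ) / (p : ℝ) ^ j - c j + ∑ e ∈ j.properDivisors, ((QQ W e).card : ℝ) * (1 / (p : ℝ) ^ e - 1 / (p : ℝ) ^ j)) / sp p d ^ j := by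
  unfold Mj
  have hpj : (0 : ℝ) < (p : ℝ) ^ j := pow_pos p_pos _
  rw [← Nat.cons_self_properDivisors (by omega), sum_cons, qq_eq hj]
  congr 1
  rw [sub_div, sum_div]
  simp only [mul_sub, sum_sub_distrib, mul_one_div]
  ring

theorem two_mul_le_of_proper {e j : ℕ} (h : e ∈ j.properDivisors) : 2 * e ≤ j := by
  obtain ⟨⟨k, rfl⟩, h2⟩ := Nat.mem_properDivisors.1 h
  rcases k with _ | _ | k
  · simp at h2
  · simp at h2
  · have : e * (k + 1 + 1) = 2 * e + e * k := by ring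
    rw [this]
    exact Nat.le_add_right _ _

theorem Mj_near (h : Sz W d B C₀) (hC₀ : 0 ≤ C₀) (hd : 2 ≤ d) {c : ℕ → ℝ} {j : ℕ} (hj : j ∈ Icc 1 B)
    (hc : |((VW W j).card : ℝ) / (p : ℝ) ^ j - c j| ≤ C₀ * (ep p * sp p d ^ j)) :
    |Mj W d c j - eta j| ≤ (C₀ + j * ((j + 3) * (1 + C₀))) * ep p := by
  have hj1 := (mem_Icc.1 hj).1
  have hp1 := one_le_p (p := p)
  have hs1 := one_le_sp (p := p) (n := d)
  have hs0 := sp_pos (p := p) (n := d)
  have hsj : 0 < sp p d ^ j := pow_pos hs0 _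
  have hep := ep_pos (p := p)
  have hpj : (1 : ℝ) ≤ (p : ℝ) ^ j := one_le_pow₀ hp1
  -- the terms
  have hterm : ∀ e ∈ j.properDivisors, |((QQ W e).card : ℝ) * (1 / (p : ℝ) ^ e - 1 / (p : ℝ) ^ j) / sp p d ^ j - (if 2 * e = j then 1 else 0)| ≤
      ((j + 3) * (1 + C₀)) * ep p := by
    intro e he
    have he' := Nat.mem_properDivisors.1 he
    have he1 : 1 ≤ e := Nat.pos_of_dvd_of_pos he'.1 (by omega)
    have heB : e ∈ Icc 1 B := mem_Icc.2 ⟨he1, he'.2.le.trans (mem_Icc.1 hj).2⟩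
    have h2e := two_mul_le_of_proper he
    have hpe : (1 : ℝ) ≤ (p : ℝ) ^ e := one_le_pow₀ hp1
    have hpe0 : (0 : ℝ) < (p : ℝ) ^ e := by positivity
    have hq0 : (0 : ℝ) ≤ (QQ W e).card := Nat.cast_nonneg _
    have hsub0 : 0 ≤ 1 / (p : ℝ) ^ e - 1 / (p : ℝ) ^ j :=
      sub_nonneg.2 (div_le_div_of_nonneg_left zero_le_one hpe0 (pow_le_pow_right₀ hp1 he'.2.le))
    have hen : ((p : ℝ) ^ e) ^ d = (p : ℝ) ^ e * (sp p d ^ e) ^ 2 := by
      rw [sp_pow_sq, ← pow_succ', Nat.sub_add_cancel (by omega)]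
    have hj0 : (0 : ℝ) ≤ j := Nat.cast_nonneg _
    rcases Nat.lt_or_ge (2 * e) j with hlt | hge
    · rw [if_neg (by omega), sub_zero, abs_of_nonneg (by positivity), div_le_iff₀ hsj]
      have h1 : ((QQ W e).card : ℝ) * (1 / (p : ℝ) ^ e - 1 / (p : ℝ) ^ j) ≤ (1 + C₀) * (sp p d ^ e) ^ 2 := by
        calc ((QQ W e).card : ℝ) * (1 / (p : ℝ) ^ e - 1 / (p : ℝ) ^ j) ≤ ((1 + C₀) * ((p : ℝ) ^ e) ^ d) * (1 / (p : ℝ) ^ e) := by
              refine mul_le_mul (qq_le h hC₀ heB) ?_ hsub0 (by positivity)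
              have : 0 ≤ 1 / (p : ℝ) ^ j := by positivity
              linarith
          _ = (1 + C₀) * (sp p d ^ e) ^ 2 := by
              rw [hen]
              field_simp
      have h2 : (sp p d ^ e) ^ 2 ≤ ep p * sp p d ^ j := by
        rw [← pow_mul]
        have h3 : sp p d ^ (e * 2) * sp p d ≤ sp p d ^ j := by
          rw [← pow_succ]
          exact pow_le_pow_right₀ hs1 (by omega)
        calc sp p d ^ (e * 2) = (1 / sp p d) * (sp p d ^ (e * 2) * sp p d) := by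
              field_simp
          _ ≤ ep p * sp p d ^ j := mul_le_mul (inv_sp_le hd) h3 (by positivity) hep.le
      have h4 : (1 + C₀ : ℝ) * (sp p d ^ e) ^ 2 ≤ (1 + C₀) * (ep p * sp p d ^ j) := mul_le_mul_of_nonneg_left h2 (by positivity)
      have h5 : (1 + C₀ : ℝ) * (ep p * sp p d ^ j) ≤ (j + 3) * (1 + C₀) * ep p * sp p d ^ j := by
        have h6 : 0 ≤ (1 + C₀ : ℝ) * (ep p * sp p d ^ j) := by positivity
        nlinarith [mul_nonneg hj0 h6]
      linarith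
    · have hj2 : j = 2 * e := by omega
      rw [if_pos hj2.symm]
      have h1 : ((QQ W e).card : ℝ) * (1 / (p : ℝ) ^ e - 1 / (p : ℝ) ^ j) / sp p d ^ j =
          ((QQ W e).card : ℝ) / ((p : ℝ) ^ e) ^ d * (1 - 1 / (p : ℝ) ^ e) := by
        rw [hen, hj2, mul_comm 2 e, pow_mul (p : ℝ), pow_mul (sp p d)]
        have := pow_pos hs0 e
        field_simp
      rw [h1]
      have h2 := qq_near h hC₀ (by omega) heB
      have h3 : 1 / (p : ℝ) ^ e ≤ ep p := by
        refine le_trans (div_le_div_of_nonneg_left zero_le_one p_pos ?_) (inv_p_le (p := p))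
        exact le_self_pow₀ hp1 (by omega)
      have h4 : 0 ≤ 1 / (p : ℝ) ^ e := by positivity
      have h5 : 1 / (p : ℝ) ^ e ≤ 1 := by
        rw [div_le_one hpe0]
        exact hpe
      obtain ⟨x, hx⟩ : ∃ x, x = ((QQ W e).card : ℝ) / ((p : ℝ) ^ e) ^ d := ⟨_, rfl⟩
      obtain ⟨y, hy⟩ : ∃ y, y = 1 / (p : ℝ) ^ e := ⟨_, rfl⟩
      rw [← hx] at h2 ⊢
      rw [← hy] at h3 h4 h5 ⊢
      have h6 : x * (1 - y) - 1 = (x - 1) * (1 - y) - y := by ring
      rw [h6]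
      have h7 : |(x - 1) * (1 - y)| ≤ (C₀ + e * (1 + C₀)) * ep p := by
        rw [abs_mul, abs_of_nonneg (by linarith : 0 ≤ 1 - y)]
        calc |x - 1| * (1 - y) ≤ |x - 1| * 1 := mul_le_mul_of_nonneg_left (by linarith) (abs_nonneg _)
          _ ≤ _ := by rw [mul_one]; exact h2
      have h8 := abs_sub ((x - 1) * (1 - y)) y
      rw [abs_of_nonneg h4] at h8
      have h9 : (C₀ + (e : ℝ) * (1 + C₀)) * ep p + ep p ≤ (j + 3) * (1 + C₀) * ep p := by
        have h10 : (e : ℝ) ≤ j := by exact_mod_cast he'.2.le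
        have h11 : 0 ≤ ep p := hep.le
        have h12 : C₀ + (e : ℝ) * (1 + C₀) + 1 ≤ (j + 3) * (1 + C₀) := by nlinarith
        calc (C₀ + (e : ℝ) * (1 + C₀)) * ep p + ep p = (C₀ + (e : ℝ) * (1 + C₀) + 1) * ep p := by ring
          _ ≤ _ := mul_le_mul_of_nonneg_right h12 h11
      linarith
  -- the parity
  have heta : eta j = ∑ e ∈ j.properDivisors, (if 2 * e = j then (1 : ℝ) else 0) := by
    unfold eta
    split_ifs with h
    · obtain ⟨k, hk⟩ := h
      rw [sum_eq_single k]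
      · rw [if_pos (by omega)]
      · intro b _ hb
        rw [if_neg (by omega)]
      · intro hk'
        exfalso
        apply hk'
        rw [Nat.mem_properDivisors]
        exact ⟨⟨2, by omega⟩, by omega⟩
    · symm
      refine sum_eq_zero fun e he => ?_
      rw [if_neg]
      intro h2
      exact h ⟨e, by omega⟩
  rw [Mj_eq hj1, heta, add_div, sum_div, add_sub_assoc, ← sum_sub_distrib]
  refine (abs_add_le _ _).trans ?_
  have h1 : |(((VW W j).card : ℝ) / (p : ℝ) ^ j - c j) / sp p d ^ j| ≤ C₀ * ep p := by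
    rw [abs_div, abs_of_pos hsj, div_le_iff₀ hsj, mul_assoc]
    exact hc
  have h2 : |∑ e ∈ j.properDivisors, (((QQ W e).card : ℝ) * (1 / (p : ℝ) ^ e - 1 / (p : ℝ) ^ j) / sp p d ^ j - (if 2 * e = j then 1 else 0))| ≤
      j * ((j + 3) * (1 + C₀) * ep p) := by
    refine (abs_sum_le_sum_abs _ _).trans ((sum_le_sum hterm).trans ?_)
    rw [sum_const, nsmul_eq_mul]
    refine mul_le_mul_of_nonneg_right ?_ (by positivity)
    have h4 : j.properDivisors.card ≤ j := by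
      have h5 : j.properDivisors ⊆ range j := fun d hd => mem_range.2 (Nat.mem_properDivisors.1 hd).2
      simpa using card_le_card h5
    exact_mod_cast h4
  calc _ ≤ C₀ * ep p + j * ((j + 3) * (1 + C₀) * ep p) := add_le_add h1 h2
    _ = _ := by ring

end

end Run7.h3.ST
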